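import Pool.Agent.PB.AsmR

/-!
# The tilted bound of one configuration, geometry with any bulk exponent

`PB/AsmR` with a bulk exponent `EX m` instead of `m ^ 2 EM` (ends away from the rows give a linear
term): `GeoX`, `S4R`, `OneR`, `PerGR`, **`perG_ofR`**.
-/

set_option autoImplicit false
set_option linter.unusedSectionVars false

noncomputable section

open MeasureTheory Finset
open scoped ENNReal

namespace PBOX

open PBO NUGC
open NUO NUP1 NUStabP NUDispW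
open NUC43 (sg kq)
open NUSea.H0 (Gd IG TG cstF)
open NUSp (kG spo qc)
open NUDirP (Small)
open Pool.Agent.NUM3 (sgn)

/-- **a geometry**: one body data with `m` rows and cutoff exponent `β` (no groups), exponent of the
objects `one m ep e1 J O i`, bulk exponent, mean field value of a group -/
structure GeoX where
  /-- one body data without groups -/
  B : ℕ → ℝ → OB
  /-- exponent of an object -/
  one : ℕ → ℝ → ℝ → ℝ → (r : ℕ) → (Fin r → Xo) → Fin r → ℝ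
  /-- bulk exponent with `m` rows -/
  EX : ℕ → ℝ
  /-- mean field value of a group -/
  MF : NUSp.Cl → ℂ → ℝ

variable [NUSea.Sea]

/-- exponent of a configuration -/
def confR (G : GeoX) (m : ℕ) (ep e1 J K kap : ℝ) {r : ℕ} (O : Fin r → Xo) : ℝ :=
  ∑ i, G.one m ep e1 J r O i + K * r + enC O + kap * win univ (fun i => ht (O i))

/-- prefactor: mean field value, mean field values of the groups at their true heights, far factors -/
def prefR (G : GeoX) (m : ℕ) {n : ℕ} (g : Fin n → Gd) (E x Cst : ℝ) : ℝ :=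
  Cst * Real.exp (G.EX m) *
    Real.exp (m * ∑ i, G.MF (g i).c (g i).w) * Real.exp (37 / 20 * x + 12 / 5 * E)

/-- the left side: tilt and positive gas -/
def lhsR (G : GeoX) (ep e1 J : ℝ) (m : ℕ) {n : ℕ} (g : Fin n → Gd) (aX aY : ℕ) (ν : ℝ) (N : ℕ)
    (b' : ℝ) {r : ℕ} (O : Fin r → Xo) : ℝ≥0∞ :=
  ENNReal.ofReal (Real.exp (b' * (ν - N))) *
    Z1c ((G.B m (4 / 3 * (1 - ep))).mul (spF g)) (NUSea.O.par0 m) (etaC e1 J m m)
      (etaC' e1 J m m) O (N + aX - chgO O true) (N + aY - chgO O false)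

/-- **the gas in the presence of the objects and of the groups**, the gain kept -/
def S4R (G : GeoX) : Prop :=
  ∃ K Ca : ℝ, 0 ≤ K ∧ 0 ≤ Ca ∧ ∀ kap : ℝ, 0 < kap →
    ∀ ep : ℝ, 0 < ep → ep ≤ 1 / 100 → ∀ e1 : ℝ, 0 < e1 → e1 ≤ 1 / 100 → ∀ J : ℝ, 0 ≤ J →
    ∀ δ : ℝ, 0 < δ → ∃ d Cst : ℝ, 0 < d ∧ 0 ≤ Cst ∧ ∃ m0 : ℕ, ∀ m ≥ m0,
      ∀ (n : ℕ) (g : Fin n → Gd) (aX aY : ℕ) (ν : ℝ) (N : ℕ) (b' : ℝ) (r : ℕ) (O : Fin r → Xo)
        (E x : ℝ), b' = d ∨ b' = -d → RgR ep e1 m g aX aY ν N O E x →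
        lhsR G ep e1 J m g aX aY ν N b' O ≤
          ENNReal.ofReal (prefR G m g E x Cst * (m : ℝ) ^ (Ca * (ep + e1) + δ) *
            (if ∀ i, |(g i).τ| ≤ TW ep e1 m then 1 else Real.exp (Real.log m / 2)) *
            Real.exp (-gnF e1 J m g) *
            Real.exp (confR G m ep e1 J K kap O +
              enR m g O (T1R ep e1 m O E) (N + aX - chgO O true) (N + aY - chgO O false)))

/-- **one body factor of an object against the activity** -/
def OneR (G : GeoX) : Prop := ∀ (K0 : ℝ) (k0 : ℕ), ∃ C c : ℝ, 0 < C ∧ 0 < c ∧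
  ∀ ep : ℝ, 0 < ep → ep ≤ 1 / 100 → ∀ e1 : ℝ, 0 < e1 → e1 ≤ 1 / 100 → ∀ J : ℝ, 0 ≤ J →
  ∃ m1 : ℕ, ∀ m ≥ m1, ∀ (r : ℕ) (O : Fin r → Xo) (i : Fin r),
    ob1c (G.B m (4 / 3 * (1 - ep))) (NUSea.O.par0 m).jL (ei (NUSea.O.par0 m) O i)
        (rr (NUSea.O.par0 m) O i) (O i) *
      Real.exp (G.one m ep e1 J r O i + K0) * colK (((r : ℝ) + 1) ^ k0) (kd (O i)) ≤
    act C 1 c (1 / 10) (k0 + 6) (Real.log m) ep e1 J r (ht (O i))

/-- **the tilted bounds for a family of groups** -/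
def PerGR (G : GeoX) (C c b : ℝ) (k : ℕ) (c1 Ca : ℝ) : Prop :=
  ∀ ep : ℝ, 0 < ep → ep ≤ 1 / 100 → ∀ e1 : ℝ, 0 < e1 → e1 ≤ 1 / 100 → ∀ J : ℝ, 0 ≤ J →
    ∀ δ : ℝ, 0 < δ → ∃ d Cst : ℝ, 0 < d ∧ 0 ≤ Cst ∧ ∃ m0 : ℕ, ∀ m ≥ m0,
      ∀ (n : ℕ) (g : Fin n → Gd) (aX aY : ℕ) (ν E Qe : ℝ), n ≤ 2 →
        (∀ i j, i ≠ j → (g i).σ ≠ (g j).σ) → aX ≤ 3 → aY ≤ 3 →
        (aX : ℝ) - aY = -∑ i, NUC43.sg (g i).σ * qc (g i).c / 2 →
        |ν - m| ≤ 2 → 0 ≤ E →
        (∀ i, (g i).c = .w ∨ (g i).c = .d ∨ |(g i).τ| ≤ TW ep e1 m + E) → 0 ≤ Qe →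
        (∀ T1, TW ep e1 m + E ≤ T1 → ∃ x, 0 ≤ x ∧ (∀ i, NUSp.exc T1 (g i).τ ≤ x) ∧
          Real.exp (enQ g aX aY E x T1) ≤ Qe) →
        PerCof C 1 c b k c1 0 (Real.log m) ep e1 J ν d (2 * m)
          ((G.B m (4 / 3 * (1 - ep))).mul (spF g)) (NUSea.O.par0 m) aX aY
          (Cst * Real.exp (G.EX m) * (m : ℝ) ^ (Ca * (ep + e1) + δ) *
            Real.exp (m * ∑ i, G.MF (g i).c (g i).w) *
            (if ∀ i, |(g i).τ| ≤ TW ep e1 m then 1 else Real.exp (Real.log m / 2)) *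
            Real.exp (-gnF e1 J m g) * Qe)

theorem prefR_nonneg {G : GeoX} {m : ℕ} {n : ℕ} {g : Fin n → Gd} {E x Cst : ℝ} (h : 0 ≤ Cst) :
    0 ≤ prefR G m g E x Cst := by
  unfold prefR
  positivity

/-- **the tilted bounds for a family of groups** from the stability bound, `S4R` and `OneR` -/
theorem perG_ofR {G : GeoX} (hB : ∀ m β, (G.B m β).Nn) (hS : StabProd) (h4 : S4R G) (h1 : OneR G) :
    ∃ (C c b c1 Ca : ℝ) (k : ℕ), 0 < C ∧ 0 < c ∧ 0 < b ∧
    0 < c1 ∧ 0 ≤ Ca ∧ PerGR G C c b k c1 Ca := by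
  obtain ⟨C2, c1, hC2, hc1, hstab⟩ := hS
  obtain ⟨K, Ca, hK, hCa, h4⟩ := h4
  obtain ⟨C3, hC3, hspec⟩ := spec_pin
  obtain ⟨C, c, hC, hc, hone⟩ := h1 (2 * C2 + K + (C2 * 6144 + 1) * 4 + Real.log C3) 12
  refine ⟨C, c, 1 / 10, c1 / 2, Ca, 12 + 6, hC, hc, by norm_num, by positivity, hCa, ?_⟩
  intro ep hep hep1 e1 he1 he11 J hJ δ hδ
  obtain ⟨d, Cst, hd, hCst, M0, h4⟩ :=
    h4 (c1 / 2) (by positivity) ep hep hep1 e1 he1 he11 J hJ δ hδ
  obtain ⟨m1, hm1, hcur⟩ := curOKC he1 he11 hJ hep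
  obtain ⟨m2, hone⟩ := hone ep hep hep1 e1 he1 he11 J hJ
  refine ⟨d, Cst, hd, hCst, max (max M0 m2) (max m1 2), ?_⟩
  intro m hM n g aX aY ν E Qe hn hσ haX haY hq hν hE hcE hQe hpin
  have hM0 : M0 ≤ m := ((le_max_left _ _).trans (le_max_left _ _)).trans hM
  have hM1 : m2 ≤ m := ((le_max_right _ _).trans (le_max_left _ _)).trans hM
  have hM2 : m1 ≤ m := ((le_max_left _ _).trans (le_max_right _ _)).trans hM
  have hM3 : 2 ≤ m := ((le_max_right _ _).trans (le_max_right _ _)).trans hM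
  intro N hN b' hb' r hr O
  refine ⟨etaC e1 J m m, etaC' e1 J m m,
    hcur m hM2 _ (by
      have : (0 : ℝ) ≤ m := Nat.cast_nonneg _
      linarith), fun W => ?_⟩
  unfold TmC Fnc
  by_cases hchg : chgO O true ≤ N + aX ∧ chgO O false ≤ N + aY
  swap
  · rw [if_neg hchg, mul_zero]
    exact zero_le
  rw [if_pos hchg]
  -- the end of the window
  obtain ⟨T1, hT1⟩ : ∃ T1, T1 = T1R ep e1 m O E := ⟨_, rfl⟩
  have hexc0 := excS_nonneg (TW ep e1 m) O
  have hT1E : TW ep e1 m + E ≤ T1 := by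
    rw [hT1]
    unfold T1R
    linarith [le_max_right (excS (TW ep e1 m) O) E]
  have hT1O : ∀ i, |ht (O i)| ≤ T1 := by
    intro i
    have h1 := excS_ge (TW ep e1 m) O i
    have h2 := le_max_left (excS (TW ep e1 m) O) E
    rw [hT1]
    unfold T1R
    linarith
  obtain ⟨x, hx0, hx, hQ⟩ := hpin T1 hT1E
  have hR : RgR ep e1 m g aX aY ν N O E x :=
    ⟨hn, hσ, haX, haY, hq, hν, hN, hr, hchg.1, hchg.2, hE, hcE, hx0, fun i => by
      rw [← hT1]
      exact hx i⟩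
  have h5 := h4 m hM0 n g aX aY ν N b' r O E x hb' hR
  rw [← hT1] at h5
  obtain ⟨F, hF⟩ : ∃ F : ℝ, F = if ∀ i, |(g i).τ| ≤ TW ep e1 m then 1 else
    Real.exp (Real.log m / 2) := ⟨_, rfl⟩
  rw [← hF] at h5 ⊢
  have hF0 : 0 ≤ F := by
    rw [hF]
    split_ifs
    · exact zero_le_one
    · exact (Real.exp_pos _).le
  obtain ⟨gn, hgn⟩ : ∃ gn : ℝ, gn = Real.exp (-gnF e1 J m g) := ⟨_, rfl⟩
  rw [← hgn] at h5 ⊢
  have hgn0 : 0 ≤ gn := by
    rw [hgn]
    exact (Real.exp_pos _).le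
  obtain ⟨mp, hmp⟩ : ∃ mp, mp = (m : ℝ) ^ (Ca * (ep + e1) + δ) := ⟨_, rfl⟩
  rw [← hmp] at h5 ⊢
  have hmp0 : 0 ≤ mp := by
    rw [hmp]
    positivity
  -- the numbers
  have hpq : (((N + aX - chgO O true : ℕ) : ℝ) - ((N + aY - chgO O false : ℕ) : ℝ)) =
      ((aX : ℝ) - aY) - ∑ i, sg (NUO.sp (O i)) * kq (kd (O i)) := by
    rw [NUH0.sum_kq, Nat.cast_sub hchg.1, Nat.cast_sub hchg.2]
    push_cast
    ring
  obtain ⟨EE, hEE⟩ : ∃ EE, EE = 1 / 2 * (∑ d, ∑ d', ES (TG (fun i => (g i).pin T1) d)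
    (TG (fun i => (g i).pin T1) d')) := ⟨_, rfl⟩
  obtain ⟨ct, hct⟩ : ∃ ct, ct = cstF T1 g true := ⟨_, rfl⟩
  set es : Fin r → ℝ := fun i => ∑ d, ES (obSr (NUSea.O.par0 m).jL (NUSea.O.par0 m).e (O i))
    (TG (fun i => (g i).pin T1) d) - ct * (sg (NUO.sp (O i)) * kq (kd (O i))) with hes
  have henG : enR m g O T1 (N + aX - chgO O true) (N + aY - chgO O false) =
      ∑ i, es i + (EE + ct * ((aX : ℝ) - aY)) := by
    unfold enR
    rw [hpq, hes, sum_sub_distrib, ← mul_sum, ← hEE, ← hct]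
    ring
  set B : ℝ := prefR G m g E x Cst * mp * F * gn * Real.exp (EE + ct * ((aX : ℝ) - aY)) with hBd
  have hB0 : 0 ≤ B := by
    have := prefR_nonneg (G := G) (m := m) (g := g) (E := E) (x := x) hCst
    positivity
  -- the algebra
  have hobj0 : ∀ i, 0 ≤ ob1c (G.B m (4 / 3 * (1 - ep))) (NUSea.O.par0 m).jL
      (ei (NUSea.O.par0 m) O i) (rr (NUSea.O.par0 m) O i) (O i) := fun i =>
    ob1c_nonneg (hB _ _) _ _ (NUSea.O.rad0_pos _ _ _).le _
  have hdr : (r : ℝ) ^ 2 * (NUSea.O.par0 m).d r ≤ r := by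
    rcases Nat.eq_zero_or_pos r with h | h
    · simp [h]
    · have h1 := d0_sq r
      have h2 : (1 : ℝ) ≤ r := by exact_mod_cast h
      rw [NUSea.O.par0_d]
      linarith
  have key := conf_algC (x := fun i => ht (O i))
    (o := fun i => ob1c (G.B m (4 / 3 * (1 - ep))) (NUSea.O.par0 m).jL (ei (NUSea.O.par0 m) O i)
      (rr (NUSea.O.par0 m) O i) (O i))
    (sp := fun i => facL (spF g) (cons (NUSea.O.par0 m) O i))
    (u := fun i => G.one m ep e1 J r O i) (es := es)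
    (act' := fun i => act C 1 c (1 / 10) (12 + 6) (Real.log m) ep e1 J r (ht (O i)))
    (coll := fun i => collC C2 4 (NUSea.O.par0 m) r (O i))
    (col := fun i => colK (((r : ℝ) + 1) ^ 12) (kd (O i)))
    (PP := ∏ i, ∏ j, if i < j then pairN (NUSea.O.par0 m) O i j else 1) (EG := enC O) (B := B)
    (K := K) (C2 := C2) (A := (C2 * 6144 + 1) * 4) (A2 := Real.log C3) (c1 := c1) (kap := c1 / 2)
    (dr := (NUSea.O.par0 m).d r) W hC2.le (by positivity) le_rfl hdr hobj0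
    (fun i => facL_nonneg (spFR_nonneg g) _)
    (fun i => collC_nonneg hC2.le (d0_pos r) _)
    (fun i => coll_bd hC2.le (by norm_num) (d0_pos r) (d0_inv r).le _)
    (fun W => hstab (NUSea.O.par0 m) rfl rfl r (NUSea.O.small_par0 _ r) O W)
    (fun i => by
      have h := hspec (NUSea.O.par0 m) rfl rfl r (NUSea.O.small_par0 _ r) O i T1 (hT1O i) n g hn
      rw [Real.exp_log (by linarith), hes]
      rw [← hct] at h
      exact h)
    (fun i => hone m hM1 r O i) hB0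
  -- the weight of the objects
  have hobj : objWc ((G.B m (4 / 3 * (1 - ep))).mul (spF g)) (NUSea.O.par0 m) O =
      ((∏ i, ob1c (G.B m (4 / 3 * (1 - ep))) (NUSea.O.par0 m).jL (ei (NUSea.O.par0 m) O i)
        (rr (NUSea.O.par0 m) O i) (O i)) * ∏ i, facL (spF g) (cons (NUSea.O.par0 m) O i)) *
        ∏ i, ∏ j, if i < j then pairN (NUSea.O.par0 m) O i j else 1 := by
    unfold objWc
    rw [prod_ob1c_mul]
  have hobjn : 0 ≤ objWc ((G.B m (4 / 3 * (1 - ep))).mul (spF g)) (NUSea.O.par0 m) O := by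
    rw [hobj]
    refine mul_nonneg (mul_nonneg (prod_nonneg fun i _ => hobj0 i)
      (prod_nonneg fun i _ => facL_nonneg (spFR_nonneg g) _)) ?_
    refine prod_nonneg fun i _ => prod_nonneg fun j _ => ?_
    split_ifs
    · exact pairN_nonneg _ _ _ _
    · exact zero_le_one
  have hexp : prefR G m g E x Cst * mp * F * gn * Real.exp (confR G m ep e1 J K (c1 / 2) O +
      enR m g O T1 (N + aX - chgO O true) (N + aY - chgO O false)) =
      B * Real.exp (∑ i, G.one m ep e1 J r O i + ∑ i, es i + K * r + enC O +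
        c1 / 2 * win univ fun i => ht (O i)) := by
    rw [henG, hBd, mul_assoc _ (Real.exp _) (Real.exp _), ← Real.exp_add]
    congr 2
    unfold confR
    ring
  rw [hexp] at h5
  -- the prefactor
  have hBQ : B ≤ Cst * Real.exp (G.EX m) * mp *
      Real.exp (m * ∑ i, G.MF (g i).c (g i).w) * F * gn * Qe := by
    have e1 : B = Cst * Real.exp (G.EX m) * mp *
        Real.exp (m * ∑ i, G.MF (g i).c (g i).w) * F * gn *
        Real.exp (enQ g aX aY E x T1) := by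
      rw [hBd]
      unfold prefR enQ
      rw [← hEE, ← hct, Real.exp_add (EE + ct * ((aX : ℝ) - aY))]
      ring
    rw [e1]
    refine mul_le_mul_of_nonneg_left hQ ?_
    positivity
  have hact0 : 0 ≤ ∏ i, act C 1 c (1 / 10) (12 + 6) (Real.log m) ep e1 J r (ht (O i)) :=
    prod_nonneg fun i _ => act_nonneg hC.le zero_le_one (log_nn m)
  have hlast : B * (∏ i, act C 1 c (1 / 10) (12 + 6) (Real.log m) ep e1 J r (ht (O i))) *
      Real.exp (-(c1 / 2 * ∑ w ∈ W, (cnt (fun i => ht (O i)) w : ℝ) ^ 2)) ≤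
      Cst * Real.exp (G.EX m) * mp *
        Real.exp (m * ∑ i, G.MF (g i).c (g i).w) * F * gn * Qe *
        (if (r : ℝ) ≤ Real.log m then 1 else Real.exp (0 * Real.log m)) *
        (∏ i, act C 1 c (1 / 10) (12 + 6) (Real.log m) ep e1 J r (ht (O i))) *
        Real.exp (-(c1 / 2 * ∑ w ∈ W, (cO O w : ℝ) ^ 2)) := by
    have g3 : ∀ w, cO O w = cnt (fun i => ht (O i)) w := fun w => rfl
    have g4 : (if (r : ℝ) ≤ Real.log m then (1 : ℝ) else Real.exp (0 * Real.log m)) = 1 := by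
      split_ifs
      · rfl
      · rw [zero_mul, Real.exp_zero]
    simp only [g3]
    rw [g4, mul_one]
    refine mul_le_mul_of_nonneg_right ?_ (Real.exp_pos _).le
    exact mul_le_mul_of_nonneg_right hBQ hact0
  calc ENNReal.ofReal (Real.exp (b' * (ν - N))) *
        (ENNReal.ofReal (objWc ((G.B m (4 / 3 * (1 - ep))).mul (spF g)) (NUSea.O.par0 m) O) *
          Z1c ((G.B m (4 / 3 * (1 - ep))).mul (spF g)) (NUSea.O.par0 m) (etaC e1 J m m)
            (etaC' e1 J m m) O (N + aX - chgO O true) (N + aY - chgO O false))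
      = ENNReal.ofReal (objWc ((G.B m (4 / 3 * (1 - ep))).mul (spF g)) (NUSea.O.par0 m) O) *
        lhsR G ep e1 J m g aX aY ν N b' O := by
        unfold lhsR
        ring
    _ ≤ ENNReal.ofReal (objWc ((G.B m (4 / 3 * (1 - ep))).mul (spF g)) (NUSea.O.par0 m) O) *
        ENNReal.ofReal (B * Real.exp (∑ i, G.one m ep e1 J r O i + ∑ i, es i + K * r +
          enC O + c1 / 2 * win univ fun i => ht (O i))) := mul_le_mul_right h5 _
    _ = ENNReal.ofReal (objWc ((G.B m (4 / 3 * (1 - ep))).mul (spF g)) (NUSea.O.par0 m) O *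
        (B * Real.exp (∑ i, G.one m ep e1 J r O i + ∑ i, es i + K * r +
          enC O + c1 / 2 * win univ fun i => ht (O i)))) := (ENNReal.ofReal_mul hobjn).symm
    _ ≤ ENNReal.ofReal (B * (∏ i, act C 1 c (1 / 10) (12 + 6) (Real.log m) ep e1 J r (ht (O i))) *
      Real.exp (-(c1 / 2 * ∑ w ∈ W, (cnt (fun i => ht (O i)) w : ℝ) ^ 2))) := by
        refine ENNReal.ofReal_le_ofReal ?_
        rw [hobj]
        exact key
    _ ≤ _ := ENNReal.ofReal_le_ofReal hlast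

end PBOX

end
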