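import Pool.Agent.PB.AsmKR
import Pool.Agent.GEX.Asm

/-!
# The tilted bounds of all classes, geometry with any bulk exponent

`PB/AsmKR` for `GeoX`: `ACR`, `PerBdR`, **`perBd_ofR`**.
-/

set_option autoImplicit false
set_option linter.unusedSectionVars false

noncomputable section

open Complex MeasureTheory Finset
open scoped ENNReal

namespace PBOX

open PBO NUGC
open NUO NUP1 NUCR NUP1S NURow NUP1.Leg
open NUC43 (kq)
open NUSea.H0 (Gd IG TG cstF)
open NUSp (kG spo qc)

/-- the constant `A` of `QFR`, `QDR` -/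
def ACR (EX : ℕ → ℝ) (Cst Ca ep e1 δ : ℝ) (m : ℕ) : ℝ := Cst * (m : ℝ) ^ (Ca * (ep + e1) + δ) *
  Real.exp (EX m)

theorem ACR_nonneg {Cst : ℝ} (h : 0 ≤ Cst) (EX : ℕ → ℝ) (Ca ep e1 δ : ℝ) (m : ℕ) :
    0 ≤ ACR EX Cst Ca ep e1 δ m := by
  unfold ACR
  positivity

variable [NUSea.Sea]

/-- **the tilted bounds of all classes** with the prefactors `QFR`, `QDR` -/
def PerBdR (G : GeoX) : Prop :=
  ∃ (C c b c1 c' Ca : ℝ) (k : ℕ), 0 < C ∧ 0 < c ∧ 0 < b ∧ 0 < c1 ∧ 0 ≤ c' ∧ 0 ≤ Ca ∧
    ∀ ep : ℝ, 0 < ep → ep ≤ 1 / 100 → ∀ e1 : ℝ, 0 < e1 → e1 ≤ 1 / 100 → ∀ J : ℝ, 0 ≤ J →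
    ∀ δ : ℝ, 0 < δ → ∃ d C' Cst : ℝ, 0 < d ∧ 0 ≤ C' ∧ 0 ≤ Cst ∧ ∃ m0 : ℕ, ∀ m : ℕ, m0 ≤ m →
      (∀ (t t' : HT) (y : ℝ × ℝ) (u : Bool × Bool), (u.1 = true → htP t = true) →
          (u.2 = true → htP t' = true) →
          PerGen C C' c b k c1 c' (Real.log m) ep e1 J m d (2 * m) (aXt t t' + aYt t t')
            (TmV u.1.toNat u.2.toNat (obKB (G.B m (beC ep)) t t' (vl (htL t) y.1)
              (vl (htL t') y.2) u.1 u.2) (NUSea.O.par0 m) (aXt t t') (aYt t t'))
            (QFR G.MF ep e1 J m (ACR G.EX Cst Ca ep e1 δ m) t t' y u)) ∧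
      ∀ (o : Bool) (y : ℝ), PerCof C C' c b k c1 c' (Real.log m) ep e1 J m d (2 * m)
          (obDB (G.B m (beC ep)) o (vl (-(11 / 4) * l) y)) (NUSea.O.par0 m) 0 0
          (QDR G.MF ep e1 J m (ACR G.EX Cst Ca ep e1 δ m) y)

/-- **the tilted bounds of all classes** from those of the families of groups -/
theorem perBd_ofR {G : GeoX} {C c b c1 Ca : ℝ} {k : ℕ} (hC0 : 0 < C) (hc : 0 < c) (hb : 0 < b)
    (hc1 : 0 < c1) (hCa : 0 ≤ Ca) (hG : PerGR G C c b k c1 Ca) : PerBdR G := by
  obtain ⟨K2, hK2, hQ2⟩ := grp_QX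
  obtain ⟨K1, hK1, hQ1⟩ := one_QX
  refine ⟨C, c, b, c1, 0, Ca, k, hC0, hc, hb, hc1, le_rfl, hCa, ?_⟩
  intro ep hep hep' e1 he1 he1' J hJ δ hδ
  obtain ⟨d, Cst, hd, hCst, M0, hM0⟩ := hG ep hep hep' e1 he1 he1' J hJ δ hδ
  refine ⟨d, 1, Cst * Real.exp (K1 + K2), hd, zero_le_one, by positivity, M0, fun m hM => ?_⟩
  have hT := TWR_nonneg hep he1 m
  have hL := log_nn m
  have hAC := ACR_nonneg (Cst := Cst * Real.exp (K1 + K2)) (by positivity) G.EX Ca ep e1 δ m
  have hexp1 : Real.exp K2 ≤ Real.exp (K1 + K2) := Real.exp_le_exp.2 (by linarith)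
  have hexp2 : Real.exp K1 ≤ Real.exp (K1 + K2) := Real.exp_le_exp.2 (by linarith)
  refine ⟨fun t t' y u h h' => ?_, fun o τ => ?_⟩
  · -- the classes
    obtain ⟨a1, a2, a3⟩ := aXY_K t t' u h h'
    have hsh := shK_le t t' u.1 u.2
    refine perK_ofB (parM_par0 m).1 (parM_par0 m).2.1 (NUSea.O.par0_e _) hep.le hep' hC0.le
      zero_le_one hL (QFR_nonneg hAC t t' y u) h h' ?_
    obtain ⟨aX, haX⟩ : ∃ aX, aX = htM t t' - htD t' + shK t t' u.1 u.2 - u.1.toNat := ⟨_, rfl⟩
    obtain ⟨aY, haY⟩ : ∃ aY, aY = htM t t' - htD t + shK t t' u.1 u.2 - u.2.toNat := ⟨_, rfl⟩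
    rw [← haX, ← haY]
    rw [← haX] at a1
    rw [← haY] at a2
    rw [← haX, ← haY] at a3
    have hq : (aX : ℝ) - aY = -∑ i, NUC43.sg (gdK t t' u y i).σ * qc (gdK t t' u y i).c / 2 := by
      rw [Fin.sum_univ_two, a3]
      show _ = -(NUC43.sg true * qc (clh t u.1) / 2 + NUC43.sg false * qc (clh t' u.2) / 2)
      rw [qc_clh t u.1 h, qc_clh t' u.2 h']
      unfold NUC43.sg
      simp only [if_true, Bool.false_eq_true, if_false]
      ring
    have hE0 : ∀ q τ, 0 ≤ ex (TW ep e1 m) q τ := by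
      intro q τ
      unfold ex xs
      split_ifs
      · exact le_rfl
      · exact le_max_right _ _
    have hexc : ∀ (c : NUSp.Cl) (τ : ℝ), c ≠ .d → c = .w ∨ |τ| ≤ TW ep e1 m +
        ex (TW ep e1 m) (qc c) τ := by
      intro c τ hc
      rcases eq_or_ne c .w with hw | hw
      · exact Or.inl hw
      · right
        have : qc c ≠ 1 := by
          revert hc hw
          cases c <;> norm_num [qc]
        unfold ex xs
        rw [if_neg this]
        linarith [le_max_left (|τ| - TW ep e1 m) 0]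
    have hcd : ∀ (t : HT) (i : Bool), clh t i ≠ .d := by
      intro t i
      cases t <;> cases i <;> simp [clh]
    set E : ℝ := max (ex (TW ep e1 m) (qc (clh t u.1)) y.1)
      (ex (TW ep e1 m) (qc (clh t' u.2)) y.2) with hE
    have hE1 : ex (TW ep e1 m) (qc (clh t u.1)) y.1 ≤ E := le_max_left _ _
    have hE2 : ex (TW ep e1 m) (qc (clh t' u.2)) y.2 ≤ E := le_max_right _ _
    have hall : ∀ i, (gdK t t' u y i).c = .w ∨ |(gdK t t' u y i).τ| ≤ TW ep e1 m + E := by
      intro i
      fin_cases i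
      · rcases hexc (clh t u.1) y.1 (hcd t u.1) with h0 | h0
        · exact Or.inl h0
        · right
          show |y.1| ≤ _
          linarith
      · rcases hexc (clh t' u.2) y.2 (hcd t' u.2) with h0 | h0
        · exact Or.inl h0
        · right
          show |y.2| ≤ _
          linarith
    have key := hM0 m hM 2 (gdK t t' u y) aX aY ((m : ℝ) - shK t t' u.1 u.2) E
      (Real.exp K2 * QX (TW ep e1 m) (qh t u.1) (qh t' u.2) y.1 y.2) le_rfl
      (by
        intro i j hij
        fin_cases i <;> fin_cases j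
        · exact absurd rfl hij
        · show true ≠ false
          simp
        · show false ≠ true
          simp
        · exact absurd rfl hij)
      a1 a2 hq
      (by
        rw [abs_le]
        have h1 : (shK t t' u.1 u.2 : ℝ) ≤ 1 := by exact_mod_cast hsh
        have h2 : (0 : ℝ) ≤ (shK t t' u.1 u.2 : ℝ) := Nat.cast_nonneg _
        constructor <;> linarith)
      ((hE0 _ _).trans hE1)
      (fun i => by
        rcases hall i with h0 | h0
        · exact Or.inl h0
        · exact Or.inr (Or.inr h0))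
      (mul_nonneg (Real.exp_pos _).le (QX_nonneg _ _ _ _ _))
      (by
        intro T1 hT1
        refine ⟨max (xs T1 y.1) (xs T1 y.2), (le_max_right _ _).trans (le_max_left _ _), ?_, ?_⟩
        · intro i
          fin_cases i
          · exact le_max_left (xs T1 y.1) (xs T1 y.2)
          · exact le_max_right (xs T1 y.1) (xs T1 y.2)
        · have h0 : 0 ≤ E := (hE0 _ _).trans hE1
          have k1 := hQ2 (gdK t t' u y) rfl rfl (by
            intro i
            fin_cases i
            · exact hcd t u.1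
            · exact hcd t' u.2) (TW ep e1 m) T1 hT (by linarith) (by
              intro i
              rcases hall i with h1 | h1
              · exact Or.inl h1
              · exact Or.inr (h1.trans hT1))
          rw [← hq] at k1
          refine le_trans (le_of_eq ?_) k1
          unfold enQ
          congr 1
          rw [hE]
          show _ + (37 / 20 * max (xs T1 y.1) (xs T1 y.2) + 12 / 5 * max
            (ex (TW ep e1 m) (qc (clh t u.1)) y.1) (ex (TW ep e1 m) (qc (clh t' u.2)) y.2)) =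
            _ + 37 / 20 * max (xs T1 y.1) (xs T1 y.2) + 12 / 5 * max
            (ex (TW ep e1 m) (qc (clh t u.1)) y.1) (ex (TW ep e1 m) (qc (clh t' u.2)) y.2)
          ring)
    rw [spF_gdK] at key
    refine perGen_monoQ hC0.le zero_le_one hL ?_ key
    have hF : (if ∀ i, |(gdK t t' u y i).τ| ≤ TW ep e1 m then (1 : ℝ) else
        Real.exp (Real.log m / 2)) = fr (TW ep e1 m) (Real.log m) y := by
      unfold fr
      by_cases hc : |y.1| ≤ TW ep e1 m ∧ |y.2| ≤ TW ep e1 m
      · rw [if_pos hc, if_pos (Fin.forall_fin_two.2 hc)]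
      · rw [if_neg hc, if_neg fun hc' => hc (Fin.forall_fin_two.1 hc')]
    have hMF : ∑ i, G.MF (gdK t t' u y i).c (gdK t t' u y i).w =
        G.MF (clh t u.1) (vl (htL t) y.1) + G.MF (clh t' u.2) (vl (htL t') y.2) := by
      rw [Fin.sum_univ_two, ← w_gd true t u.1 y.1, ← w_gd false t' u.2 y.2]
      rfl
    have hgn : gnF e1 J m (gdK t t' u y) =
        gnP e1 J m (phC (clh t u.1)) (phC (clh t' u.2)) y := by
      unfold gnF gnP
      rw [Fin.sum_univ_two]
      show 12 * NUMF.l * NUGC.hC e1 J m 0 + (2 * (phC (clh t u.1) * NUGC.hC e1 J m y.1) +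
        2 * (phC (clh t' u.2) * NUGC.hC e1 J m y.2)) = _
      ring
    rw [hF, hMF, hgn]
    unfold QFR ACR
    have f0 := fr_nonneg (TW ep e1 m) (Real.log m) y
    have q0 := QX_nonneg (TW ep e1 m) (qh t u.1) (qh t' u.2) y.1 y.2
    rw [mul_add (m : ℝ) (G.MF _ _), Real.exp_add ((m : ℝ) * G.MF _ _)]
    set f := fr (TW ep e1 m) (Real.log m) y with hf
    set qx := QX (TW ep e1 m) (qh t u.1) (qh t' u.2) y.1 y.2 with hqx
    set E1 := Real.exp ((m : ℝ) * G.MF (clh t u.1) (vl (htL t) y.1)) with hE1'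
    set E2 := Real.exp ((m : ℝ) * G.MF (clh t' u.2) (vl (htL t') y.2)) with hE2'
    set X := Real.exp (G.EX m) with hX
    set gn := Real.exp (-gnP e1 J m (phC (clh t u.1)) (phC (clh t' u.2)) y) with hgn'
    set p := (m : ℝ) ^ (Ca * (ep + e1) + δ) with hp
    have hp0 : 0 ≤ p := by positivity
    calc Cst * X * p * (E1 * E2) * f * gn * (Real.exp K2 * qx)
        = (Cst * X * p * (E1 * E2) * f * gn * qx) * Real.exp K2 := by ring
      _ ≤ (Cst * X * p * (E1 * E2) * f * gn * qx) * Real.exp (K1 + K2) :=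
          mul_le_mul_of_nonneg_left hexp1 (by positivity)
      _ = Cst * Real.exp (K1 + K2) * p * X * (E1 * E2 * (f * qx)) * gn := by ring
  · -- D1, D1'
    refine perD_ofB (parM_par0 m).1 (parM_par0 m).2.1 (NUSea.O.par0_e _) hep.le hep' ?_
    have hq : ((0 : ℕ) : ℝ) - ((0 : ℕ) : ℝ) =
        -∑ i, NUC43.sg (gdD o τ i).σ * qc (gdD o τ i).c / 2 := by
      rw [Fin.sum_univ_one]
      show ((0 : ℕ) : ℝ) - ((0 : ℕ) : ℝ) = -(NUC43.sg (!o) * qc .d / 2)
      simp [qc]
    have key := hM0 m hM 1 (gdD o τ) 0 0 m 0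
      (Real.exp K1 * Real.exp (37 / 20 * xs (TW ep e1 m) τ)) (by norm_num)
      (by
        intro i j hij
        exact absurd (Subsingleton.elim i j) hij)
      (by norm_num) (by norm_num) hq
      (by
        rw [sub_self, abs_zero]
        norm_num)
      le_rfl
      (fun i => Or.inr (Or.inl rfl))
      (by positivity)
      (by
        intro T1 hT1
        refine ⟨xs T1 τ, le_max_right _ _, fun i => le_rfl, ?_⟩
        have k1 := hQ1 (gdD o τ) rfl (TW ep e1 m) T1 (by linarith)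
        rw [← hq] at k1
        refine le_trans (le_of_eq ?_) k1
        unfold enQ
        congr 1
        show _ + (37 / 20 * xs T1 τ + 12 / 5 * 0) = _ + 37 / 20 * xs T1 τ
        ring)
    rw [spF_gdD] at key
    refine perGen_monoQ hC0.le zero_le_one hL ?_ key
    have hF : (if ∀ i, |(gdD o τ i).τ| ≤ TW ep e1 m then (1 : ℝ) else
        Real.exp (Real.log m / 2)) =
        if |τ| ≤ TW ep e1 m then 1 else Real.exp (Real.log m / 2) := by
      by_cases hc : |τ| ≤ TW ep e1 m
      · rw [if_pos hc, if_pos (Fin.forall_fin_one.2 hc)]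
      · rw [if_neg hc, if_neg fun hc' => hc (Fin.forall_fin_one.1 hc')]
    have hMF : ∑ i, G.MF (gdD o τ i).c (gdD o τ i).w = G.MF .d (vl (-(11 / 4) * l) τ) := by
      rw [Fin.sum_univ_one]
      rfl
    have hgn : gnF e1 J m (gdD o τ) = gnQ e1 J m (phC .d) τ := by
      unfold gnF gnQ
      rw [Fin.sum_univ_one]
      rfl
    rw [hF, hMF, hgn]
    unfold QDR ACR
    set f : ℝ := if |τ| ≤ TW ep e1 m then 1 else Real.exp (Real.log m / 2) with hf
    have f0 : 0 ≤ f := by
      rw [hf]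
      split_ifs
      · exact zero_le_one
      · exact (Real.exp_pos _).le
    set E1 := Real.exp ((m : ℝ) * G.MF .d (vl (-(11 / 4) * l) τ)) with hE1'
    set E2 := Real.exp (37 / 20 * xs (TW ep e1 m) τ) with hE2'
    set X := Real.exp (G.EX m) with hX
    set gn := Real.exp (-gnQ e1 J m (phC .d) τ) with hgn'
    set p := (m : ℝ) ^ (Ca * (ep + e1) + δ) with hp
    have hp0 : 0 ≤ p := by positivity
    calc Cst * X * p * E1 * f * gn * (Real.exp K1 * E2)
        = (Cst * X * p * E1 * f * gn * E2) * Real.exp K1 := by ring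
      _ ≤ (Cst * X * p * E1 * f * gn * E2) * Real.exp (K1 + K2) :=
          mul_le_mul_of_nonneg_left hexp2 (by positivity)
      _ = Cst * Real.exp (K1 + K2) * p * X * (E1 * (f * E2)) * gn := by ring

end PBOX

end
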