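import Pool.Agent.PB.AsmI
import Pool.Agent.GEX.AsmK

/-!
# The gas with a statistic, geometry with any bulk exponent

`PB/AsmI` for `GeoX`: `S4K`, `S4I`, `OneRT`, `PerGI`, **`perI_ofK`**.
-/

set_option autoImplicit false
set_option linter.unusedSectionVars false

noncomputable section

open MeasureTheory Finset
open scoped ENNReal

namespace PBOX

open PBI
open NUGC PBO PBF PotH
open NUO NUP1 NUStabP NUDispW
open NUC43 (sg kq)
open NUSea.H0 (Gd IG TG cstF)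
open NUSp (kG spo qc)
open NUDirP (Small)
open PBP (gT)

variable [NUSea.Sea]

/-- the left side: tilt and positive gas with a statistic -/
def lhsI (G : GeoX) (ep e1 J : ℝ) (m : ℕ) {n : ℕ} (g : Fin n → Gd) (aX aY : ℕ) (ν : ℝ) (N : ℕ)
    (b' : ℝ) {r : ℕ} (O : Fin r → Xo) (φ : InsE) : ℝ≥0∞ :=
  ENNReal.ofReal (Real.exp (b' * (ν - N))) *
    gasI ((G.B m (4 / 3 * (1 - ep))).mul (spF g)) (NUSea.O.par0 m) (etaC e1 J m m)
      (etaC' e1 J m m) O (N + aX - chgO O true) (N + aY - chgO O false)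
      (φ r O (N + aX - chgO O true) (N + aY - chgO O false))

/-- **the gas with a statistic in the presence of the objects and of near groups**, the gain kept;
`K` = constant per object, `Ca` = constant of the exponent -/
def S4K (G : GeoX) {ι : Type*} (ok : ℕ → ι → Prop) (Φ : ι → ℕ → ℕ → InsE) (K Ca : ℝ) : Prop :=
  ∀ kap : ℝ, 0 < kap →
    ∀ ep : ℝ, 0 < ep → ep ≤ 1 / 100 → ∀ e1 : ℝ, 0 < e1 → e1 ≤ 1 / 100 → ∀ J : ℝ, 0 ≤ J →
    ∀ δ : ℝ, 0 < δ → ∃ d Cst : ℝ, 0 < d ∧ 0 ≤ Cst ∧ ∃ m0 : ℕ, ∀ m ≥ m0,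
      ∀ (n : ℕ) (g : Fin n → Gd) (aX aY : ℕ) (ν : ℝ) (N : ℕ) (b' : ℝ) (r : ℕ) (O : Fin r → Xo),
        b' = d ∨ b' = -d → RgR ep e1 m g aX aY ν N O 0 0 → (∀ i, |(g i).τ| ≤ TW ep e1 m) →
        ∀ i : ι, ok m i → lhsI G ep e1 J m g aX aY ν N b' O (Φ i m N) ≤
          ENNReal.ofReal (prefR G m g 0 0 Cst * (m : ℝ) ^ (Ca * (ep + e1) + δ) *
            Real.exp (-gnF e1 J m g) * Real.exp (confR G m ep e1 J K kap O +
              enR m g O (T1R ep e1 m O 0) (N + aX - chgO O true) (N + aY - chgO O false)))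

/-- **the gas with a statistic**, some constants -/
def S4I (G : GeoX) {ι : Type*} (ok : ℕ → ι → Prop) (Φ : ι → ℕ → ℕ → InsE) : Prop :=
  ∃ K Ca : ℝ, 0 ≤ K ∧ 0 ≤ Ca ∧ S4K G ok Φ K Ca

/-- **one body factor of an object against the activity**, the gain of the tent kept -/
def OneRT (G : GeoX) : Prop := ∀ (K0 : ℝ) (k0 : ℕ), ∃ C c : ℝ, 0 < C ∧ 0 < c ∧
  ∀ ep : ℝ, 0 < ep → ep ≤ 1 / 100 → ∀ e1 : ℝ, 0 < e1 → e1 ≤ 1 / 100 → ∀ J : ℝ, 0 ≤ J →
  ∃ m1 : ℕ, ∀ m ≥ m1, ∀ (r : ℕ) (O : Fin r → Xo) (i : Fin r),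
    ob1c (G.B m (4 / 3 * (1 - ep))) (NUSea.O.par0 m).jL (ei (NUSea.O.par0 m) O i)
        (rr (NUSea.O.par0 m) O i) (O i) *
      Real.exp (G.one m ep e1 J r O i + K0) * colK (((r : ℝ) + 1) ^ k0) (kd (O i)) ≤
    act C 1 c (1 / 10) (k0 + 6) (Real.log m) ep e1 J r (ht (O i)) *
      Real.exp (-gT e1 (Real.log m) (ht (O i)))

theorem OneRT.oneR {G : GeoX} (h : OneRT G) : OneR G := by
  intro K0 k0
  obtain ⟨C, c, hC, hc, h⟩ := h K0 k0
  refine ⟨C, c, hC, hc, fun ep hep hep1 e1 he1 he11 J hJ => ?_⟩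
  obtain ⟨m1, h⟩ := h ep hep hep1 e1 he1 he11 J hJ
  refine ⟨m1, fun m hm r O i => (h m hm r O i).trans ?_⟩
  have h0 : 0 ≤ act C 1 c (1 / 10) (k0 + 6) (Real.log m) ep e1 J r (ht (O i)) :=
    act_nonneg hC.le zero_le_one (log_nn m)
  exact mul_le_of_le_one_right h0
    (Real.exp_le_one_iff.2 (by linarith [PBP.gT_nonneg e1 (Real.log m) (ht (O i))]))

/-- **the tilted bounds for a family of near groups with a statistic and a weight of the objects** -/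
def PerGI (G : GeoX) {ι : Type*} (ok : ℕ → ι → Prop) (Φ : ι → ℕ → ℕ → InsE) (K2 C c b : ℝ) (k : ℕ)
    (c1 Ca : ℝ) : Prop :=
  ∀ ep : ℝ, 0 < ep → ep ≤ 1 / 100 → ∀ e1 : ℝ, 0 < e1 → e1 ≤ 1 / 100 → ∀ J : ℝ, 0 ≤ J →
    ∀ δ : ℝ, 0 < δ → ∃ d Cst : ℝ, 0 < d ∧ 0 ≤ Cst ∧ ∃ m0 : ℕ, ∀ m ≥ m0,
      ∀ (n : ℕ) (g : Fin n → Gd) (aX aY : ℕ) (ν Qe : ℝ), n ≤ 2 →
        (∀ i j, i ≠ j → (g i).σ ≠ (g j).σ) → aX ≤ 3 → aY ≤ 3 →
        (aX : ℝ) - aY = -∑ i, NUC43.sg (g i).σ * qc (g i).c / 2 →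
        |ν - m| ≤ 2 → (∀ i, |(g i).τ| ≤ TW ep e1 m) → 0 ≤ Qe →
        (∀ T1, TW ep e1 m ≤ T1 → Real.exp (enQ g aX aY 0 0 T1) ≤ Qe) →
        ∀ i : ι, ok m i → ∀ (w : (r : ℕ) → (Fin r → Xo) → ℝ) (Bw : ℝ), 0 ≤ Bw →
        (∀ r O, 0 ≤ w r O) → (∀ (r : ℕ) (O : Fin r → Xo), w r O ≤ Bw * Real.exp (K2 * r) *
          Real.exp (∑ i, gT e1 (Real.log m) (ht (O i)))) →
        PerI C 1 c b k c1 0 (Real.log m) ep e1 J ν d (2 * m)
          ((G.B m (4 / 3 * (1 - ep))).mul (spF g)) (NUSea.O.par0 m) aX aY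
          (fun _ _ _ => etaC e1 J m m) (fun _ _ _ => etaC' e1 J m m)
          (fun N r O a b x => ENNReal.ofReal (w r O) * Φ i m N r O a b x)
          (Bw * (Cst * Real.exp (G.EX m) * (m : ℝ) ^ (Ca * (ep + e1) + δ) *
            Real.exp (m * ∑ i, G.MF (g i).c (g i).w) * Real.exp (-gnF e1 J m g) * Qe))

/-- **the tilted bounds for a family of near groups with a statistic and a weight of the objects**,
constants independent of the statistic -/
theorem perI_ofK {G : GeoX} (hB : ∀ m β, (G.B m β).Nn) (hS : StabProd) (h1 : OneRT G) (K K2 : ℝ) :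
    ∃ (C c b c1 : ℝ) (k : ℕ), 0 < C ∧ 0 < c ∧ 0 < b ∧ 0 < c1 ∧
      ∀ (ι : Type*) (ok : ℕ → ι → Prop) (Φ : ι → ℕ → ℕ → InsE) (Ca : ℝ), S4K G ok Φ K Ca →
        PerGI G ok Φ K2 C c b k c1 Ca := by
  obtain ⟨K', c1, hc1, hper⟩ := perH hS K K2
  obtain ⟨C3, hC3, hspec⟩ := spec_pin
  obtain ⟨C, c, hC, hc, hone⟩ := h1 (K' + Real.log C3) 12
  refine ⟨C, c, 1 / 10, c1, 12 + 6, hC, hc, by norm_num, hc1, ?_⟩
  intro ι ok Φ Ca h4 ep hep hep1 e1 he1 he11 J hJ δ hδ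
  obtain ⟨d, Cst, hd, hCst, M0, h4⟩ := h4 c1 hc1 ep hep hep1 e1 he1 he11 J hJ δ hδ
  obtain ⟨m2, hone⟩ := hone ep hep hep1 e1 he1 he11 J hJ
  refine ⟨d, Cst, hd, hCst, max M0 m2, ?_⟩
  intro m hM n g aX aY ν Qe hn hσ haX haY hq hν hnear hQe hpin i hok w Bw hBw hw0 hwB
  have hM0 : M0 ≤ m := (le_max_left _ _).trans hM
  have hM1 : m2 ≤ m := (le_max_right _ _).trans hM
  intro N hN b' hb' r hr O W
  -- the end of the window
  obtain ⟨T1, hT1⟩ : ∃ T1, T1 = T1R ep e1 m O 0 := ⟨_, rfl⟩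
  have hexc0 := excS_nonneg (TW ep e1 m) O
  have hT1E : TW ep e1 m ≤ T1 := by
    rw [hT1]
    unfold T1R
    linarith [le_max_left (excS (TW ep e1 m) O) 0]
  have hT1O : ∀ i, |ht (O i)| ≤ T1 := by
    intro i
    have h1 := excS_ge (TW ep e1 m) O i
    have h2 := le_max_left (excS (TW ep e1 m) O) 0
    rw [hT1]
    unfold T1R
    linarith
  have hQ := hpin T1 hT1E
  -- the prefactor
  obtain ⟨EE, hEE⟩ : ∃ EE, EE = 1 / 2 * (∑ d, ∑ d', ES (TG (fun i => (g i).pin T1) d)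
    (TG (fun i => (g i).pin T1) d')) := ⟨_, rfl⟩
  obtain ⟨ct, hct⟩ : ∃ ct, ct = cstF T1 g true := ⟨_, rfl⟩
  set es : Fin r → ℝ := fun i => ∑ d, ES (obSr (NUSea.O.par0 m).jL (NUSea.O.par0 m).e (O i))
    (TG (fun i => (g i).pin T1) d) - ct * (sg (NUO.sp (O i)) * kq (kd (O i))) with hes
  obtain ⟨mp, hmp⟩ : ∃ mp, mp = (m : ℝ) ^ (Ca * (ep + e1) + δ) := ⟨_, rfl⟩
  have hmp0 : 0 ≤ mp := by
    rw [hmp]
    positivity
  obtain ⟨gn, hgn⟩ : ∃ gn : ℝ, gn = Real.exp (-gnF e1 J m g) := ⟨_, rfl⟩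
  have hgn0 : 0 ≤ gn := by
    rw [hgn]
    exact (Real.exp_pos _).le
  obtain ⟨Qp, hQp⟩ : ∃ Qp : ℝ, Qp = prefR G m g 0 0 Cst * mp * gn *
    Real.exp (EE + ct * ((aX : ℝ) - aY)) := ⟨_, rfl⟩
  have hpref := prefR_nonneg (G := G) (m := m) (g := g) (E := 0) (x := 0) hCst
  have hQp0 : 0 ≤ Qp := by
    rw [hQp]
    positivity
  have hQpQ : Qp ≤ Cst * Real.exp (G.EX m) * mp *
      Real.exp (m * ∑ i, G.MF (g i).c (g i).w) * gn * Qe := by
    have e1 : Qp = Cst * Real.exp (G.EX m) * mp *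
        Real.exp (m * ∑ i, G.MF (g i).c (g i).w) * gn *
        Real.exp (enQ g aX aY 0 0 T1) := by
      rw [hQp]
      unfold prefR enQ
      rw [← hEE, ← hct, mul_zero, mul_zero, add_zero, add_zero, Real.exp_zero]
      ring
    rw [e1]
    refine mul_le_mul_of_nonneg_left hQ ?_
    positivity
  -- the weight with the tilt
  obtain ⟨φ, hφ⟩ : ∃ φ : (a b : ℕ) → (Fin a → ℝ) × (Fin b → ℝ) → ℝ≥0∞,
    φ = fun a b x => ENNReal.ofReal (Real.exp (b' * (ν - N))) *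
      (ENNReal.ofReal (w r O) * Φ i m N r O a b x) := ⟨_, rfl⟩
  have hleft : ENNReal.ofReal (Real.exp (b' * (ν - N))) *
      FnI ((G.B m (4 / 3 * (1 - ep))).mul (spF g)) (NUSea.O.par0 m) (etaC e1 J m m)
        (etaC' e1 J m m) (N + aX) (N + aY) O
        (fun a b x => ENNReal.ofReal (w r O) * Φ i m N r O a b x) =
      FnI ((G.B m (4 / 3 * (1 - ep))).mul (spF g)) (NUSea.O.par0 m) (etaC e1 J m m)
        (etaC' e1 J m m) (N + aX) (N + aY) O φ := by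
    rw [hφ]
    exact (FnI_const _ _ _ _ _ _ O ENNReal.ofReal_ne_top _).symm
  have hBn : ((G.B m (4 / 3 * (1 - ep))).mul (spF g)).Nn := fun a u =>
    mul_nonneg (hB _ _ a u) (spFR_nonneg g a u)
  have key := hper ((G.B m (4 / 3 * (1 - ep))).mul (spF g)) hBn (NUSea.O.par0 m) rfl rfl rfl
    (fun r t => (NUSea.O.rad0_pos _ r t).le) r (NUSea.O.small_par0 _ r) O (etaC e1 J m m)
    (etaC' e1 J m m) (N + aX) (N + aY) φ (fun i => G.one m ep e1 J r O i + es i)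
    (fun i => gT e1 (Real.log m) (ht (O i)))
    (fun i => act C 1 c (1 / 10) (12 + 6) (Real.log m) ep e1 J r (ht (O i))) Qp Bw (w r O) hQp0
    (hw0 r O) hBw (hwB r O) (fun i => ?_) (fun k1 k2 => ?_) W
  · show ENNReal.ofReal (Real.exp (b' * (ν - N))) *
      FnI ((G.B m (4 / 3 * (1 - ep))).mul (spF g)) (NUSea.O.par0 m) (etaC e1 J m m)
        (etaC' e1 J m m) (N + aX) (N + aY) O
        (fun a b x => ENNReal.ofReal (w r O) * Φ i m N r O a b x) ≤ _
    rw [hleft]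
    refine key.trans (ENNReal.ofReal_le_ofReal ?_)
    have hact0 : 0 ≤ ∏ i, act C 1 c (1 / 10) (12 + 6) (Real.log m) ep e1 J r (ht (O i)) :=
      prod_nonneg fun i _ => act_nonneg hC.le zero_le_one (log_nn m)
    have g4 : (if (r : ℝ) ≤ Real.log m then (1 : ℝ) else Real.exp (0 * Real.log m)) = 1 := by
      split_ifs
      · rfl
      · rw [zero_mul, Real.exp_zero]
    rw [g4, mul_one, ← hmp, ← hgn]
    refine mul_le_mul_of_nonneg_right ?_ (Real.exp_pos _).le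
    exact mul_le_mul_of_nonneg_right (mul_le_mul_of_nonneg_left hQpQ hBw) hact0
  · -- the one body bounds
    have h := hspec (NUSea.O.par0 m) rfl rfl r (NUSea.O.small_par0 _ r) O i T1 (hT1O i) n g hn
    rw [← hct] at h
    have h' : facL (spF g) (NUO.cons (NUSea.O.par0 m) O i) * Real.exp (es i) ≤ C3 := h
    have h0 : 0 ≤ facL (spF g) (NUO.cons (NUSea.O.par0 m) O i) := facL_nonneg (spFR_nonneg g) _
    have h2 := hone m hM1 r O i
    have hob : ob1c ((G.B m (4 / 3 * (1 - ep))).mul (spF g)) (NUSea.O.par0 m).jL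
        (ei (NUSea.O.par0 m) O i) (rr (NUSea.O.par0 m) O i) (O i) =
        ob1c (G.B m (4 / 3 * (1 - ep))) (NUSea.O.par0 m).jL
          (ei (NUSea.O.par0 m) O i) (rr (NUSea.O.par0 m) O i) (O i) *
          facL (spF g) (NUO.cons (NUSea.O.par0 m) O i) := ob1c_mul _ _ _ _ _ _
    have ho : 0 ≤ ob1c (G.B m (4 / 3 * (1 - ep))) (NUSea.O.par0 m).jL
        (ei (NUSea.O.par0 m) O i) (rr (NUSea.O.par0 m) O i) (O i) :=
      ob1c_nonneg (hB _ _) _ _ (NUSea.O.rad0_pos _ _ _).le _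
    have hcol : 0 ≤ colK (((r : ℝ) + 1) ^ 12) (kd (O i)) := by
      have : (0 : ℝ) ≤ ((r : ℝ) + 1) ^ 12 := by positivity
      cases kd (O i) <;> simp only [colK] <;> first | exact this | exact zero_le_one
    rw [hob]
    obtain ⟨o1, ho1⟩ : ∃ o1, o1 = ob1c (G.B m (4 / 3 * (1 - ep))) (NUSea.O.par0 m).jL
          (ei (NUSea.O.par0 m) O i) (rr (NUSea.O.par0 m) O i) (O i) := ⟨_, rfl⟩
    obtain ⟨f1, hf1⟩ : ∃ f1, f1 = facL (spF g) (NUO.cons (NUSea.O.par0 m) O i) := ⟨_, rfl⟩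
    obtain ⟨cl, hcl⟩ : ∃ cl, cl = colK (((r : ℝ) + 1) ^ 12) (kd (O i)) := ⟨_, rfl⟩
    rw [← ho1, ← hcl] at h2
    rw [← hf1] at h' h0
    rw [← ho1] at ho
    rw [← hcl] at hcol
    rw [← ho1, ← hf1, ← hcl]
    calc o1 * f1 * Real.exp (G.one m ep e1 J r O i + es i + K') * cl
        = o1 * (f1 * Real.exp (es i)) * Real.exp (G.one m ep e1 J r O i + K') * cl := by
          rw [show G.one m ep e1 J r O i + es i + K' = es i + (G.one m ep e1 J r O i + K') by ring,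
            Real.exp_add (es i)]
          ring
      _ ≤ o1 * C3 * Real.exp (G.one m ep e1 J r O i + K') * cl := by gcongr
      _ = o1 * Real.exp (G.one m ep e1 J r O i + (K' + Real.log C3)) * cl := by
          rw [show G.one m ep e1 J r O i + (K' + Real.log C3) =
            (G.one m ep e1 J r O i + K') + Real.log C3 by ring, Real.exp_add _ (Real.log C3),
            Real.exp_log (by linarith)]
          ring
      _ ≤ _ := h2
  · -- the gas
    have hR : RgR ep e1 m g aX aY ν N O 0 0 :=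
      ⟨hn, hσ, haX, haY, hq, hν, hN, hr, k1, k2, le_rfl, fun i => by
        right
        right
        rw [add_zero]
        exact hnear i, le_rfl, fun i => by
        rw [← hT1]
        unfold NUSp.exc
        exact max_le (by linarith [hnear i]) le_rfl⟩
    have h5 := h4 m hM0 n g aX aY ν N b' r O hb' hR hnear i hok
    rw [← hT1] at h5
    have hpq : (((N + aX - chgO O true : ℕ) : ℝ) - ((N + aY - chgO O false : ℕ) : ℝ)) =
        ((aX : ℝ) - aY) - ∑ i, sg (NUO.sp (O i)) * kq (kd (O i)) := by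
      rw [NUH0.sum_kq, Nat.cast_sub k1, Nat.cast_sub k2]
      push_cast
      ring
    have henG : enR m g O T1 (N + aX - chgO O true) (N + aY - chgO O false) =
        ∑ i, es i + (EE + ct * ((aX : ℝ) - aY)) := by
      unfold enR
      rw [hpq, hes, sum_sub_distrib, ← mul_sum, ← hEE, ← hct]
      ring
    have hexp : prefR G m g 0 0 Cst * mp * gn * Real.exp (confR G m ep e1 J K c1 O +
        enR m g O T1 (N + aX - chgO O true) (N + aY - chgO O false)) =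
        Qp * Real.exp (∑ i, (G.one m ep e1 J r O i + es i) + K * r + enC O +
          c1 * win univ fun i => ht (O i)) := by
      rw [henG, hQp, mul_assoc _ (Real.exp _) (Real.exp _), ← Real.exp_add, sum_add_distrib]
      congr 2
      unfold confR
      ring
    rw [← hmp, ← hgn, hexp] at h5
    have e1 : gasI ((G.B m (4 / 3 * (1 - ep))).mul (spF g)) (NUSea.O.par0 m) (etaC e1 J m m)
        (etaC' e1 J m m) O (N + aX - chgO O true) (N + aY - chgO O false)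
        (φ (N + aX - chgO O true) (N + aY - chgO O false)) =
        ENNReal.ofReal (w r O) * lhsI G ep e1 J m g aX aY ν N b' O (Φ i m N) := by
      rw [hφ]
      unfold lhsI
      have e2 := gasI_const ((G.B m (4 / 3 * (1 - ep))).mul (spF g)) (NUSea.O.par0 m)
        (etaC e1 J m m) (etaC' e1 J m m) O (N + aX - chgO O true) (N + aY - chgO O false)
        (c := ENNReal.ofReal (Real.exp (b' * (ν - N)))) ENNReal.ofReal_ne_top
        (fun x => ENNReal.ofReal (w r O) *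
          Φ i m N r O (N + aX - chgO O true) (N + aY - chgO O false) x)
      have e3 := gasI_const ((G.B m (4 / 3 * (1 - ep))).mul (spF g)) (NUSea.O.par0 m)
        (etaC e1 J m m) (etaC' e1 J m m) O (N + aX - chgO O true) (N + aY - chgO O false)
        (c := ENNReal.ofReal (w r O)) ENNReal.ofReal_ne_top
        (Φ i m N r O (N + aX - chgO O true) (N + aY - chgO O false))
      rw [e3] at e2
      refine e2.trans ?_
      ring
    rw [e1, ENNReal.ofReal_mul (hw0 r O)]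
    exact mul_le_mul' le_rfl h5

/-- **the tilted bounds for a family of near groups with a statistic and a weight of the objects** -/
theorem perI_ofR {G : GeoX} (hB : ∀ m β, (G.B m β).Nn) (hS : StabProd) {ι : Type*}
    {ok : ℕ → ι → Prop} {Φ : ι → ℕ → ℕ → InsE} (h4 : S4I G ok Φ) (h1 : OneRT G) (K2 : ℝ) :
    ∃ (C c b c1 Ca : ℝ) (k : ℕ), 0 < C ∧ 0 < c ∧ 0 < b ∧ 0 < c1 ∧ 0 ≤ Ca ∧
      PerGI G ok Φ K2 C c b k c1 Ca := by
  obtain ⟨K, Ca, hK, hCa, h4⟩ := h4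
  obtain ⟨C, c, b, c1, k, hC, hc, hb, hc1, H⟩ := perI_ofK hB hS h1 K K2
  exact ⟨C, c, b, c1, Ca, k, hC, hc, hb, hc1, hCa, H _ _ _ _ h4⟩

end PBOX

end
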