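import Pool.Agent.GEX.EOwn

/-!
# Rows `0`, real ends: the classes belong to the geometry

* `own_le`: `PBQ.KD.own` with the ends `p`, `q` is at most `iS ^ 15` times the one with the ends `0`;
* **`clOk_GE`**.
-/

set_option autoImplicit false
set_option linter.unusedVariables false

noncomputable section

open Complex MeasureTheory Set

namespace PBE

open NUO NUP1 NUP1S.AbG NUGC PBX PBR NUCR NUP1S
open NURow (XB HT rD RR)
open NUP1.Leg (thE cc kap)
open PBO (s1 s1_pos s1_le_one sin_up sin_dn cR beC_bd CutOk)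
open NUP1.Bd (wt)

variable {p q : ℝ}

theorem pw_le {n : ℕ} (h : n ≤ 15) : iS ^ n ≤ iS ^ 15 := pow_le_pow_right₀ one_le_iS h

theorem one_le_pw : (1 : ℝ) ≤ iS ^ 15 := one_le_pow₀ one_le_iS

theorem hLn_htL (t : HT) (τ : ℝ) : HLn (vl (htL t) τ).re := by
  rw [NUO.vl_re]
  cases t
  · exact Or.inl rfl
  · exact Or.inr (Or.inl rfl)
  · exact Or.inr (Or.inl rfl)
  · exact Or.inr (Or.inr rfl)

section D

variable {m : ℕ} {β : ℝ} {x : Fin m → ℂ} {ex ex0 : List ℂ}

/-- own kernel, species `true` -/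
theorem ownK_le (hp : |p| ≤ l / 2) (hq : |q| ≤ l / 2) (t : HT) (i : Bool) (τ : ℝ) :
    ‖ownK (RX β x p q ex ex0).KF (RX β x p q ex ex0).KP (RX β x p q ex ex0).Y t
        (vl (htL t) τ)‖ *
      (if i then (if htP t then ‖(RX β x p q ex ex0).X none (vl (htL t) τ) * hR1 0‖ else 1) else 1) ≤
    iS ^ 15 * (‖ownK (RX β x 0 0 ex ex0).KF (RX β x 0 0 ex ex0).KP (RX β x 0 0 ex ex0).Y t
        (vl (htL t) τ)‖ *
      (if i then (if htP t then ‖(RX β x 0 0 ex ex0).X none (vl (htL t) τ) * hR1 0‖ else 1) else 1)) := by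
  have hl := Bd.l_pos
  have hi := iS_pos
  have key : ∀ {n : ℕ} {a b : ℝ}, n ≤ 15 → 0 ≤ b → a ≤ iS ^ n * b → a ≤ iS ^ 15 * b := by
    intro n a b hn hb h
    exact h.trans (mul_le_mul_of_nonneg_right (pw_le hn) hb)
  have hw := hLn_htL t τ
  cases t
  · have e : (if i then (if htP .W then ‖(RX β x p q ex ex0).X none (vl (htL .W) τ) * hR1 0‖ else 1)
        else 1) = (1 : ℝ) := by
      unfold htP
      simp
    have e' : (if i then (if htP .W then ‖(RX β x 0 0 ex ex0).X none (vl (htL .W) τ) * hR1 0‖ else 1)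
        else 1) = (1 : ℝ) := by
      unfold htP
      simp
    rw [e, e', mul_one, mul_one]
    exact key (n := 3) (by norm_num) (norm_nonneg _) (KF_le hp hw)
  · have e : (if i then (if htP .F then ‖(RX β x p q ex ex0).X none (vl (htL .F) τ) * hR1 0‖ else 1)
        else 1) = (1 : ℝ) := by
      unfold htP
      simp
    have e' : (if i then (if htP .F then ‖(RX β x 0 0 ex ex0).X none (vl (htL .F) τ) * hR1 0‖ else 1)
        else 1) = (1 : ℝ) := by
      unfold htP
      simp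
    rw [e, e', mul_one, mul_one]
    exact key (n := 3) (by norm_num) (norm_nonneg _) (KF_le hp hw)
  · have e : (if i then (if htP .P then ‖(RX β x p q ex ex0).X none (vl (htL .P) τ) * hR1 0‖ else 1)
        else 1) = (1 : ℝ) := by
      unfold htP
      simp
    have e' : (if i then (if htP .P then ‖(RX β x 0 0 ex ex0).X none (vl (htL .P) τ) * hR1 0‖ else 1)
        else 1) = (1 : ℝ) := by
      unfold htP
      simp
    rw [e, e', mul_one, mul_one]
    exact key (n := 7) (by norm_num) (norm_nonneg _) (KP_le hp hq (NUO.vl_re _ _))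
  · have hre : (vl (htL .H) τ).re = 5 / 8 * l := NUO.vl_re _ _
    have hre2 : (vl (htL .H) τ - 2 * (l : ℂ)).re = 5 / 8 * l - 2 * l := by
      rw [sub_re, hre]
      simp
    have a1 := KF_le (q := q) (β := β) (x := x) (ex := ex) (ex0 := ex0) hp hw
    have a2 := YS_le (β := β) (x := x) (ex := ex) (ex0 := ex0) hp hq (u := vl (htL .H) τ - 2 * l)
      (by rw [hre2]; linarith) (by rw [hre2]; linarith)
    have a3 := X_le (β := β) (x := x) (ex := ex) (ex0 := ex0) hp hq (u := vl (htL .H) τ)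
      (by rw [hre]; linarith) (by rw [hre]; linarith)
    have e1 : ∀ D : RD m, ‖ownK D.KF D.KP D.Y .H (vl (htL .H) τ)‖ =
        ‖(2 * Real.pi * rD (2 * l) * wt .S : ℂ)‖ *
          (‖D.Y (some .S) (vl (htL .H) τ - 2 * l)‖ * ‖D.KF (vl (htL .H) τ)‖) := by
      intro D
      show ‖-(2 * Real.pi * rD (2 * l) * wt .S * D.Y (some .S) (vl (htL .H) τ - 2 * l)) *
        D.KF (vl (htL .H) τ)‖ = _
      rw [norm_mul, norm_neg, norm_mul, mul_assoc]
    rw [e1, e1]
    have hP : htP .H = true := rfl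
    cases i
    · simp only [Bool.false_eq_true, if_false, mul_one]
      refine key (n := 11) (by norm_num) (by positivity) ?_
      rw [mul_left_comm (iS ^ 11)]
      refine mul_le_mul_of_nonneg_left ?_ (norm_nonneg _)
      refine (mul_le_mul a2 a1 (norm_nonneg _) (by positivity)).trans (le_of_eq ?_)
      ring
    · rw [hP]
      simp only [if_true]
      rw [norm_mul ((RX β x (p : ℂ) q ex ex0).X none _), norm_mul ((RX β x 0 0 ex ex0).X none _)]
      have b1 := mul_le_mul a2 a1 (norm_nonneg _) (by positivity)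
      have b2 := mul_le_mul_of_nonneg_left b1
        (norm_nonneg (2 * Real.pi * rD (2 * l) * wt .S : ℂ))
      have b3 := mul_le_mul_of_nonneg_right a3 (norm_nonneg (hR1 0))
      refine (mul_le_mul b2 b3 (by positivity) (by positivity)).trans (le_of_eq ?_)
      ring

/-- own kernel, species `false` -/
theorem ownK'_le (hp : |p| ≤ l / 2) (hq : |q| ≤ l / 2) (t : HT) (i : Bool) (τ : ℝ) :
    ‖ownK (RX β x p q ex ex0).KF' (RX β x p q ex ex0).KP' (RX β x p q ex ex0).X t
        (vl (htL t) τ)‖ *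
      (if i then (if htP t then ‖(RX β x p q ex ex0).Y none (vl (htL t) τ) * hR1 0‖ else 1) else 1) ≤
    iS ^ 15 * (‖ownK (RX β x 0 0 ex ex0).KF' (RX β x 0 0 ex ex0).KP' (RX β x 0 0 ex ex0).X t
        (vl (htL t) τ)‖ *
      (if i then (if htP t then ‖(RX β x 0 0 ex ex0).Y none (vl (htL t) τ) * hR1 0‖ else 1) else 1)) :=
  ownK_le (p := q) (q := p) (β := β) (x := x) (ex := ex) (ex0 := ex0) hq hp t i τ

end D

variable {ex ex0 : List ℂ} {EX : ℕ → ℝ}

/-- the classes with the ends `0` -/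
theorem KE_zero (ex ex0 : List ℂ) (ep : ℝ) (k : ℕ) : KE 0 0 ex ex0 ep k = PBO.KX ex ex0 ep k := by
  unfold KE PBO.KX
  rw [DE_zero]

/-- **the own factors** -/
theorem own_le (hp : |p| ≤ l / 2) (hq : |q| ≤ l / 2) (ep : ℝ) (k : ℕ) (a : Bool) (t : HT)
    (i : Bool) (hi : i = true → htP t = true) (τ : ℝ) :
    (KE p q ex ex0 ep k).own a t i (vl (htL t) τ) ≤
      iS ^ 15 * (PBO.KX ex ex0 ep k).own a t i (vl (htL t) τ) := by
  rw [← KE_zero]
  have hif : ∀ z : ℝ, (if i then (if htP t then z else 1) else 1) = (if i then z else 1 : ℝ) := by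
    intro z
    cases i
    · rfl
    · simp only [if_true, hi rfl]
  cases a
  · have h := ownK'_le (p := p) (q := q) (m := k - 1) (β := beC ep) (x := fun _ => 0) (ex := ex)
      (ex0 := ex0) hp hq t i τ
    rw [hif, hif] at h
    unfold PBQ.KD.own PBQ.KD.ownZ PBQ.KD.ownQ
    simp only [Bool.false_eq_true, if_false]
    have z : ((0 : ℝ) : ℂ) = 0 := ofReal_zero
    unfold KE DE
    rw [z]
    exact h
  · have h := ownK_le (p := p) (q := q) (m := k - 1) (β := beC ep) (x := fun _ => 0) (ex := ex)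
      (ex0 := ex0) hp hq t i τ
    rw [hif, hif] at h
    unfold PBQ.KD.own PBQ.KD.ownZ PBQ.KD.ownQ
    simp only [if_true]
    have z : ((0 : ℝ) : ℂ) = 0 := ofReal_zero
    unfold KE DE
    rw [z]
    exact h

/-- captured pairs -/
theorem ownD_le (hp : |p| ≤ l / 2) (hq : |q| ≤ l / 2) (ep : ℝ) (k : ℕ) (o : Bool) (τ : ℝ) :
    ‖kDE p q ex ex0 ep k o (vl (-(11 / 4) * l) τ)‖ ≤
      iS ^ 15 * ‖PBO.kDX ex ex0 ep k o (vl (-(11 / 4) * l) τ)‖ := by
  have e := DE_zero ex ex0 ep k
  have z : ((0 : ℝ) : ℂ) = 0 := ofReal_zero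
  have h15 : ∀ b : ℝ, 0 ≤ b → iS ^ 2 * b ≤ iS ^ 15 * b := fun b hb =>
    mul_le_mul_of_nonneg_right (pw_le (by norm_num)) hb
  unfold kDE PBO.kDX
  rw [← e]
  cases o
  · simp only [Bool.false_eq_true, if_false]
    unfold DE
    rw [z]
    exact (XD'_le hp hq (NUO.vl_re _ _)).trans (h15 _ (norm_nonneg _))
  · simp only [if_true]
    unfold DE
    rw [z]
    exact (XD_le hp hq (NUO.vl_re _ _)).trans (h15 _ (norm_nonneg _))

/-- the family of the one body data -/
theorem obR_mul (k : ℕ) (β : ℝ) (g : Bool → ℂ → ℝ) :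
    obR (RX β (fun _ : Fin (k - 1) => 0) p q ex ex0) ex ex0 (2 * Real.cos l) g =
      (obE p q k β ex ex0).mul g := by
  unfold obE obR PBX.obX OB.mul
  simp only [mul_one, mul_assoc]

/-- **the classes belong to the geometry** -/
theorem clOk_GE (hX : CutOk ex ex0) (hp : |p| ≤ l / 2) (hq : |q| ≤ l / 2) :
    @PBOX.ClOk NUSea.seaP (GE p q EX ex ex0) (KE p q ex ex0) (kDE p q ex ex0) := by
  let _ : NUSea.Sea := NUSea.seaP
  have h0 : PBO.ClOk (PBR.G0 ex ex0) (PBO.KX ex ex0) (PBO.kDX ex ex0) :=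
    PBO.clOk0 hX (fun _ _ => rfl) rfl
  have hi : (0 : ℝ) < iS ^ 15 := pow_pos iS_pos _
  refine ⟨fun ep e0 e1 => ⟨2, fun k hk => ?_⟩, fun ep e0 e1 => ?_, fun ep e0 e1 => ?_,
    fun ep e0 e1 => ?_⟩
  · obtain ⟨b1, b2, b3⟩ := beC_bd e0 e1
    have hpr : |((p : ℂ)).re| ≤ l / 2 := by rwa [ofReal_re]
    have hqr : |((q : ℂ)).re| ≤ l / 2 := by rwa [ofReal_re]
    have hl := Bd.l_pos
    have hOk := RX_Ok (m := k - 1) (β := beC ep) (x := fun _ => 0) (ex := ex) (ex0 := ex0) b3 b2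
      (fun i => by
        show |((0 : ℂ)).re| ≤ _
        rw [zero_re, abs_zero]
        positivity)
      (fun i => by
        show ((0 : ℂ)).re ≠ _
        rw [zero_re]
        exact ne_of_lt (by linarith)) hpr hqr hX.re hX.re0
    have h := bs_RD hOk (REq_RX (m := k - 1) (β := beC ep) (x := fun _ => 0) (p := (p : ℂ))
      (q := (q : ℂ)) (ex0 := ex0) hX.re) (PBO.parC_par0 k) e0 e1
    refine ⟨_, _, h.congr (fun a u z => ?_) fun g => ?_⟩
    · cases a <;> rfl
    · exact obR_mul k (beC ep) g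
  · obtain ⟨C, hC, m0, h⟩ := h0.own ep e0 e1
    refine ⟨iS ^ 15 * C, by positivity, m0, fun k hk a t i hi' τ => ?_⟩
    have h1 := own_le (ex := ex) (ex0 := ex0) hp hq ep k a t i hi' τ
    have h2 := h k hk a t i hi' τ
    have h3 := mul_le_mul_of_nonneg_left h2 hi.le
    refine (mul_le_mul_of_nonneg_right h1 (Real.exp_pos _).le).trans ?_
    rw [mul_assoc]
    refine h3.trans (le_of_eq ?_)
    ring
  · obtain ⟨C, c, hC, hc, m0, h⟩ := h0.ownF ep e0 e1
    refine ⟨iS ^ 15 * C, c, by positivity, hc, m0, fun k hk a i hi' τ => ?_⟩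
    have h1 := own_le (ex := ex) (ex0 := ex0) hp hq ep k a .F i hi' τ
    have h2 := h k hk a i hi' τ
    have h3 := mul_le_mul_of_nonneg_left h2 hi.le
    refine (mul_le_mul_of_nonneg_right h1 (Real.exp_pos _).le).trans ?_
    rw [mul_assoc]
    refine h3.trans (le_of_eq ?_)
    ring
  · obtain ⟨C, hC, m0, h⟩ := h0.ownD ep e0 e1
    refine ⟨iS ^ 15 * C, by positivity, m0, fun k hk o τ => ?_⟩
    have h1 := ownD_le (ex := ex) (ex0 := ex0) hp hq ep k o τ
    have h2 := h k hk o τ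
    have h3 := mul_le_mul_of_nonneg_left h2 hi.le
    refine (mul_le_mul_of_nonneg_right h1 (Real.exp_pos _).le).trans ?_
    rw [mul_assoc]
    refine h3.trans (le_of_eq ?_)
    ring

end PBE

end
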