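import Pool.Agent.PB.Oth0
import Pool.Agent.NUM3.Certs4
import Pool.Agent.GEX.AsmK

/-!
# All classes except `W W`, geometry with any bulk exponent

`PB/Oth0` for `GeoX`: `ClOk`, **`oth0`**; `perBd_of0`.
-/

set_option autoImplicit false
set_option linter.unusedSectionVars false

noncomputable section

open Complex MeasureTheory Finset
open scoped ENNReal

namespace PBOX

open PBO
open NUO NUP1 NUCR NUP1S NUP1S.Ab NUP1S.AbC NUP1S.AbG NURow NUP1.Leg NUGC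

variable [NUSea.Sea]

/-- **the classes belong to the geometry `G`** -/
structure ClOk (G : GeoX) (K : ℝ → ℕ → PBQ.KD) (kD : ℝ → ℕ → Bool → ℂ → ℂ) : Prop where
  base : ∀ ep : ℝ, 0 < ep → ep ≤ 1 / 100 → ∃ m0 : ℕ, ∀ m ≥ m0, ∃ (κ : ℝ) (E0 : Set ℝ),
    PBR.Bs (K ep m).Z (fun g => (G.B m (beC ep)).mul g) (NUSea.O.par0 m) ep κ E0
  own : ∀ ep : ℝ, 0 < ep → ep ≤ 1 / 100 → ∃ C : ℝ, 0 ≤ C ∧ ∃ m0 : ℕ, ∀ m ≥ m0,
    (K ep m).OwnLe G.MF m ep C
  ownF : ∀ ep : ℝ, 0 < ep → ep ≤ 1 / 100 → ∃ C c : ℝ, 0 ≤ C ∧ 0 < c ∧ ∃ m0 : ℕ, ∀ m ≥ m0,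
    (K ep m).OwnFLe G.MF m C fun τ => Real.exp (-(c * (m * Real.exp (-(8 / 3) * |τ|))))
  ownD : ∀ ep : ℝ, 0 < ep → ep ≤ 1 / 100 → ∃ C : ℝ, 0 ≤ C ∧ ∃ m0 : ℕ, ∀ m ≥ m0,
    PBQ.OwnDLe (kD ep m) G.MF m C

/-- **the state sum over a geometry: all classes except `W W`, and `W W` outside the near set** -/
theorem oth0 {G : GeoX} (hP : PerBdR G) {K : ℝ → ℕ → PBQ.KD} {kD : ℝ → ℕ → Bool → ℂ → ℂ}
    (hK : ClOk G K kD) : ∀ ε : ℝ, 0 < ε → ∃ ep0 : ℝ, 0 < ep0 ∧ ep0 ≤ 1 / 100 ∧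
      ∀ ep : ℝ, 0 < ep → ep ≤ ep0 → ∃ (Cst : ℝ) (m0 : ℕ), 0 ≤ Cst ∧ 1 ≤ m0 ∧ ∀ m : ℕ, m0 ≤ m →
        (∀ t t' : HT, ¬(t = .W ∧ t' = .W) →
          sVal (K ep m) (NUSea.O.par0 m) (2 * m) t t' ≤
            Cst * (m : ℝ) ^ (-(7 / 16) + ε) * Real.exp (G.EX m)) ∧
        (∀ o : Bool, sValD (K ep m) (kD ep m) (NUSea.O.par0 m) (2 * m) o ≤
            Cst * (m : ℝ) ^ (-(7 / 16) + ε) * Real.exp (G.EX m)) ∧
        (∀ (S : Set (ℝ × ℝ)) (κ : ℝ), MeasurableSet S →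
          (∀ z ∈ S, κ ≤ 2 * |z.1| + 2 * |z.2| + |z.1 - z.2| / 2) →
          sInt (K ep m) (NUSea.O.par0 m) (2 * m) .W .W S ≤
            ENNReal.ofReal (Cst * (Real.exp (-κ) * (m : ℝ) ^ ε + (m : ℝ) ^ (-(7 / 16) + ε)) *
              Real.exp (G.EX m))) ∧
        (∀ y : ℝ × ℝ, |y.1| ≤ 3 / 8 * Real.log m → |y.2| ≤ 3 / 8 * Real.log m →
          sPt (K ep m) (NUSea.O.par0 m) (2 * m) .W .W (vl (htL .W) y.1) (vl (htL .W) y.2) ≤
            Cst * (Real.exp (-(2 * |y.1| + 2 * |y.2| + |y.1 - y.2| / 2)) * (m : ℝ) ^ ε) *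
              Real.exp (G.EX m)) := by
  intro ε hε
  obtain ⟨C, c, b, c1, c', Ca, k, hC, hc, hb, hc1, hc', hCa, hP⟩ := hP
  obtain ⟨δ, hδ⟩ : ∃ δ : ℝ, δ = min (ε / 8) (1 / 4) := ⟨_, rfl⟩
  have hδ0 : 0 < δ := by rw [hδ]; exact lt_min (by positivity) (by norm_num)
  have hδ1 : δ ≤ 1 / 4 := by rw [hδ]; exact min_le_right _ _
  have hδε : δ ≤ ε / 8 := by rw [hδ]; exact min_le_left _ _
  obtain ⟨a0, ha0, hcls⟩ := top_cFS (k := k) hC hc hb hc1 hc' hδ0
  obtain ⟨a1, ha1, hcD⟩ := PBR.top_cDB (k := k) hC hc hb hc1 hc' hδ0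
  obtain ⟨a2, ha2, hpt⟩ := PBR.cls_leB (k := k) hC hc hb hc1 hc' hδ0
  obtain ⟨am, ham⟩ : ∃ am : ℝ, am = min a0 (min a1 a2) := ⟨_, rfl⟩
  have ham0 : 0 < am := by rw [ham]; exact lt_min ha0 (lt_min ha1 ha2)
  have hm0 : am ≤ a0 := by rw [ham]; exact min_le_left _ _
  have hm1 : am ≤ a1 := by rw [ham]; exact (min_le_right _ _).trans (min_le_left _ _)
  have hm2 : am ≤ a2 := by rw [ham]; exact (min_le_right _ _).trans (min_le_right _ _)
  refine ⟨min (am / 12) (min (1 / 100) (ε / (8 * (Ca + 4)))),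
    lt_min (by positivity) (lt_min (by norm_num) (by positivity)),
    (min_le_right _ _).trans (min_le_left _ _), fun ep hep0 hep => ?_⟩
  have hep1 : ep ≤ am / 12 := hep.trans (min_le_left _ _)
  have hep2 : ep ≤ 1 / 100 := hep.trans ((min_le_right _ _).trans (min_le_left _ _))
  have hep3 : ep ≤ ε / (8 * (Ca + 4)) := hep.trans ((min_le_right _ _).trans (min_le_right _ _))
  have hCe : (Ca + 4) * ep ≤ ε / 8 := by
    rw [le_div_iff₀ (by positivity)] at hep3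
    linarith
  obtain ⟨J, hJ0, hJ⟩ := exists_J (a := am / 2) (by positivity)
  have hs0 : Real.exp (-(2 * Real.pi * J)) + 3 * ep + 3 * ep ≤ am := by linarith
  obtain ⟨d, C', Cst, hd, hC', hCst, M0, hM0⟩ := hP ep hep0 hep2 ep hep0 hep2 J hJ0 δ hδ0
  obtain ⟨L0, hL0⟩ := hcls C' hC'
  obtain ⟨L1, hL1⟩ := hcD C' hC'
  obtain ⟨L2, hL2⟩ := hpt C' hC'
  obtain ⟨n0, hbase⟩ := hK.base ep hep0 hep2
  obtain ⟨Co, hCo, n1, hown⟩ := hK.own ep hep0 hep2
  obtain ⟨Cf, cf, hCf, hcf, n2, hownF⟩ := hK.ownF ep hep0 hep2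
  obtain ⟨Cd, hCd, n3, hownD⟩ := hK.ownD ep hep0 hep2
  obtain ⟨n4, hfF⟩ := PBQ.fF_small hcf hep0
  obtain ⟨CG, hCG, hDir⟩ := dirLe
  obtain ⟨Cm, hCm⟩ : ∃ Cm : ℝ, Cm = max Co Cf := ⟨_, rfl⟩
  have hCm0 : 0 ≤ Cm := by rw [hCm]; exact hCo.trans (le_max_left _ _)
  have hlog : Filter.Tendsto (fun m : ℕ => Real.log m) Filter.atTop Filter.atTop :=
    Real.tendsto_log_atTop.comp tendsto_natCast_atTop_atTop
  obtain ⟨n5, hn5⟩ := Filter.eventually_atTop.1
    (hlog.eventually_ge_atTop (max 54 (max L0 (max L1 L2))))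
  -- the constants
  obtain ⟨F0, hF0⟩ : ∃ F0 : ℝ, F0 = 4 * (1 + 1 / d) := ⟨_, rfl⟩
  have hF00 : 0 ≤ F0 := by rw [hF0]; positivity
  obtain ⟨D1, hD1⟩ : ∃ D1 : ℝ, D1 = Cst * (Cm * Cm * CG) := ⟨_, rfl⟩
  have hD10 : 0 ≤ D1 := by rw [hD1]; positivity
  have hKC := PBQ.KC_nonneg δ
  obtain ⟨R1, hR1⟩ : ∃ R1 : ℝ, R1 = F0 * (D1 * (4 * PBQ.KC δ)) := ⟨_, rfl⟩
  obtain ⟨R2, hR2⟩ : ∃ R2 : ℝ, R2 = F0 * (Cd * Cst * (40 / 3 * Real.exp 12)) := ⟨_, rfl⟩
  obtain ⟨R3, hR3⟩ : ∃ R3 : ℝ, R3 = F0 * (D1 * (4 * (δ⁻¹) ^ 2 * Real.exp 20)) := ⟨_, rfl⟩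
  obtain ⟨R4, hR4⟩ : ∃ R4 : ℝ, R4 = F0 * (D1 * (3000 * (δ⁻¹) ^ 2 * Real.exp 6)) := ⟨_, rfl⟩
  obtain ⟨R5, hR5⟩ : ∃ R5 : ℝ, R5 = F0 * (D1 * Real.exp 20) := ⟨_, rfl⟩
  have hR10 : 0 ≤ R1 := by rw [hR1]; positivity
  have hR20 : 0 ≤ R2 := by rw [hR2]; positivity
  have hR30 : 0 ≤ R3 := by rw [hR3]; positivity
  have hR40 : 0 ≤ R4 := by rw [hR4]; positivity
  have hR50 : 0 ≤ R5 := by rw [hR5]; positivity
  refine ⟨R1 + R2 + R3 + R4 + R5, max (max (max M0 n0) (max n1 n2)) (max (max n3 n4) (max n5 6)),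
    by positivity, le_trans (by norm_num) ((le_max_right n5 6).trans ((le_max_right _ _).trans
      (le_max_right _ _))), fun m hm => ?_⟩
  have g0 : M0 ≤ m := (((le_max_left _ _).trans (le_max_left _ _)).trans (le_max_left _ _)).trans hm
  have g1 : n0 ≤ m := (((le_max_right _ _).trans (le_max_left _ _)).trans (le_max_left _ _)).trans hm
  have g2 : n1 ≤ m := (((le_max_left _ _).trans (le_max_right _ _)).trans (le_max_left _ _)).trans hm
  have g3 : n2 ≤ m :=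
    (((le_max_right _ _).trans (le_max_right _ _)).trans (le_max_left _ _)).trans hm
  have g4 : n3 ≤ m := (((le_max_left _ _).trans (le_max_left _ _)).trans (le_max_right _ _)).trans hm
  have g5 : n4 ≤ m :=
    (((le_max_right _ _).trans (le_max_left _ _)).trans (le_max_right _ _)).trans hm
  have g6 : n5 ≤ m :=
    (((le_max_left _ _).trans (le_max_right _ _)).trans (le_max_right _ _)).trans hm
  have g7 : 6 ≤ m :=
    (((le_max_right _ _).trans (le_max_right _ _)).trans (le_max_right _ _)).trans hm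
  have gm : 1 ≤ m := by omega
  have hmR : (0 : ℝ) < m := by exact_mod_cast gm
  have hmR1 : (1 : ℝ) ≤ m := by exact_mod_cast gm
  have gL := hn5 m g6
  have gLT : (54 : ℝ) ≤ Real.log m := (le_max_left _ _).trans gL
  have gL0 : L0 ≤ Real.log m := ((le_max_left _ _).trans (le_max_right _ _)).trans gL
  have gL1 : L1 ≤ Real.log m :=
    (((le_max_left _ _).trans (le_max_right _ _)).trans (le_max_right _ _)).trans gL
  have gL2 : L2 ≤ Real.log m :=
    (((le_max_right _ _).trans (le_max_right _ _)).trans (le_max_right _ _)).trans gL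
  have hT : 20 ≤ Tb (Real.log m) := by
    unfold Tb
    linarith
  have hT0 : 0 ≤ Tb (Real.log m) := by linarith
  obtain ⟨hcl, hclD⟩ := hM0 m g0
  obtain ⟨κB, E0, hB⟩ := hbase m g1
  have hO := ownLe_mono (C' := Cm) (by rw [hCm]; exact le_max_left _ _) (hown m g2)
  have hOF := ownFLe_mono (C' := Cm) (fun τ => (Real.exp_pos _).le)
    (by rw [hCm]; exact le_max_right _ _) (hownF m g3)
  have hOD := hownD m g4
  have hfs := hfF m g5
  obtain ⟨A, hA⟩ : ∃ A : ℝ, A = ACR G.EX Cst Ca ep ep δ m := ⟨_, rfl⟩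
  have hA0 : 0 ≤ A := by rw [hA]; exact ACR_nonneg hCst _ _ _ _ _ _
  rw [← hA] at hcl hclD
  obtain ⟨X, hX⟩ : ∃ X : ℝ, X = Real.exp (G.EX m) := ⟨_, rfl⟩
  have hX0 : 0 ≤ X := by rw [hX]; exact (Real.exp_pos _).le
  have hAX : A = Cst * (m : ℝ) ^ (Ca * (ep + ep) + δ) * X := by rw [hA, hX]; rfl
  rw [← hX]
  have hN : ∀ a : ℕ, a ≤ 4 → ((2 * (2 * m) + a + 1 : ℕ) : ℝ) ≤ Real.exp (2 * Real.log m) := by
    intro a ha
    have h2 : 2 * (2 * m) + a + 1 ≤ m * m := by nlinarith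
    calc ((2 * (2 * m) + a + 1 : ℕ) : ℝ) ≤ ((m * m : ℕ) : ℝ) := by exact_mod_cast h2
      _ = Real.exp (Real.log m) * Real.exp (Real.log m) := by
        rw [Real.exp_log hmR]
        push_cast
        ring
      _ = Real.exp (2 * Real.log m) := by rw [← Real.exp_add]; ring_nf
  have hPP := parC_par0 m
  -- the sum over a set
  have hset : ∀ (t t' : HT) (S : Set (ℝ × ℝ)),
      sInt (K ep m) (NUSea.O.par0 m) (2 * m) t t' S ≤
        ENNReal.ofReal (F0 * Real.exp (δ * Real.log m)) *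
          ∫⁻ y in S, ‖((K ep m).cl t t').pre (vl (htL t) y.1) (vl (htL t') y.2)‖ₑ *
            ENNReal.ofReal (∑ u : Bool × Bool, (K ep m).wt t t' (vl (htL t) y.1)
              (vl (htL t') y.2) u.1 u.2 * PBQ.QG G.MF m ep ep J A t t' y u) := by
    intro t t' S
    have ha : aXt t t' + aYt t t' ≤ 4 := by
      cases t <;> cases t' <;> decide
    rw [hF0]
    exact hL0 (Real.log m) gL0 ep hep0 hep2 ep hep0 (by linarith) J hJ0 (hs0.trans hm0)
      (NUSea.O.par0 m) hPP (K ep m).Z _ κB E0 hB (K ep m).kF (K ep m).kP (K ep m).kF'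
      (K ep m).kP' t t' (fun _ => (m : ℝ)) d (2 * m)
      (fun y u => PBQ.QG G.MF m ep ep J A t t' y u) hd
      (fun y u => PBQ.QG_nonneg hA0 t t' y u) (hN _ ha) (fun y u h1 h2 => by
        have h := hcl t t' y u h1 h2
        rw [QFR_eq] at h
        exact h) S
  -- the final form of a class
  have hfin : ∀ (t t' : HT) (x R y0 : ℝ), 0 ≤ R → x = 7 / 6 - ep - 2 * δ → y0 ≤ R →
      ∫⁻ y, ‖((K ep m).cl t t').pre (vl (htL t) y.1) (vl (htL t') y.2)‖ₑ *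
            ENNReal.ofReal (∑ u : Bool × Bool, (K ep m).wt t t' (vl (htL t) y.1)
              (vl (htL t') y.2) u.1 u.2 * PBQ.QG G.MF m ep ep J A t t' y u) ≤
        ENNReal.ofReal (A * (Cm * Cm * CG) * y0 * Real.exp (-(x * Tb (Real.log m)))) →
      sVal (K ep m) (NUSea.O.par0 m) (2 * m) t t' ≤
        F0 * (D1 * R) * (m : ℝ) ^ (-(7 / 16) + ε) * X := by
    intro t t' x R y0 hR hx hy0 hI
    refine cls_val_le _ _ _ _ _ _ _ (by positivity) ?_
    have e1 : ((K ep m).cl t t').a = htL t := cF_a _ _ _ _ _ _ _ _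
    have e2 : ((K ep m).cl t t').b = htL t' := cF_b _ _ _ _ _ _ _ _
    rw [e1, e2]
    refine (hset t t' Set.univ).trans ?_
    rw [Measure.restrict_univ]
    refine (mul_le_mul' le_rfl hI).trans ?_
    rw [← ENNReal.ofReal_mul (by positivity)]
    refine ENNReal.ofReal_le_ofReal ?_
    have key := pow_comb gm (A := F0) (B := D1 * R) (x := x) (δ := δ)
      (α := Ca * (ep + ep) + δ) (y := -(7 / 16) + ε) hF00 (by positivity) (by
        rw [hx]
        nlinarith)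
    calc F0 * Real.exp (δ * Real.log m) * (A * (Cm * Cm * CG) * y0 *
          Real.exp (-(x * Tb (Real.log m))))
        ≤ F0 * Real.exp (δ * Real.log m) * (A * (Cm * Cm * CG) * R *
          Real.exp (-(x * Tb (Real.log m)))) := by gcongr
      _ = F0 * Real.exp (δ * Real.log m) * (D1 * R * (m : ℝ) ^ (Ca * (ep + ep) + δ) *
          Real.exp (-(x * Tb (Real.log m)))) * X := by
          rw [hAX, hD1]
          ring
      _ ≤ _ := mul_le_mul_of_nonneg_right key hX0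
  have hRR : ∀ R : ℝ, R ≤ R1 + R2 + R3 + R4 + R5 → R * (m : ℝ) ^ (-(7 / 16) + ε) * X ≤
      (R1 + R2 + R3 + R4 + R5) * (m : ℝ) ^ (-(7 / 16) + ε) * X := by
    intro R hR
    have : 0 ≤ (m : ℝ) ^ (-(7 / 16) + ε) := by positivity
    gcongr
  refine ⟨fun t t' hne => ?_, fun o => ?_, fun S κ hS hκ => ?_, fun y hy1 hy2 => ?_⟩
  · -- the classes
    refine le_trans ?_ (hRR R1 (by linarith))
    rw [hR1]
    by_cases hcomp : PBQ.cmp t ∨ PBQ.cmp t'
    · exact hfin t t' _ (4 * PBQ.KC δ) _ (by positivity) rfl le_rfl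
        ((K ep m).int_comp hCm0 hCG hO hDir hep0.le hep2 hep0 hep2 hJ0 hT hA0 hδ0 hδ1 hcomp)
    · have hb1 : PBQ.KD.bare t := bare_of fun h => hcomp (Or.inl h)
      have hb2 : PBQ.KD.bare t' := bare_of fun h => hcomp (Or.inr h)
      have hF : t = .F ∨ t' = .F := F_of hb1 hb2 hne
      exact hfin t t' _ (4 * PBQ.KC δ) (PBQ.KC δ) (by positivity) rfl (by linarith)
        ((K ep m).int_F hCm0 hCG hO (fun τ => (Real.exp_pos _).le)
          (fun τ => Real.exp_le_one_iff.2 (by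
            have : 0 ≤ cf * (m * Real.exp (-(8 / 3) * |τ|)) := by positivity
            linarith)) hfs hOF hDir hep0.le hep2 hep0 hep2 hJ0 hT hA0 hδ0 hδ1 hb1 hb2 hF)
  · -- D1, D1'
    refine le_trans ?_ (hRR R2 (by linarith))
    refine sum_norm_le (by positivity) ?_
    have h1 := hL1 (Real.log m) gL1 ep hep0 hep2 ep hep0 (by linarith) J hJ0 (hs0.trans hm1)
      (NUSea.O.par0 m) hPP (K ep m).Z _ κB E0 hB (kD ep m o) o (fun _ => (m : ℝ)) d (2 * m)
      (fun y => PBQ.QGD G.MF m ep ep J A y) hd (fun y => PBQ.QGD_nonneg hA0 y)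
      (by simpa using hN 0 (by norm_num)) (Filter.Eventually.of_forall fun y => hclD o y)
    refine h1.trans ?_
    have h2 := PBQ.int_D hCd hOD hep0.le hep2 hep0 hep2 hJ0 hT hA0 o
    have e : ∀ y : ℝ, ENNReal.ofReal (‖kD ep m o (vl (-(11 / 4) * l) y)‖ *
        PBQ.QGD G.MF m ep ep J A y) = ‖kD ep m o (vl (-(11 / 4) * l) y)‖ₑ *
        ENNReal.ofReal (PBQ.QGD G.MF m ep ep J A y) := fun y => by
      rw [ENNReal.ofReal_mul (norm_nonneg _), ofReal_norm]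
    simp only [e]
    rw [← hF0]
    refine (mul_le_mul' le_rfl h2).trans ?_
    rw [← ENNReal.ofReal_mul (by positivity)]
    refine ENNReal.ofReal_le_ofReal ?_
    have key := pow_comb gm (A := F0) (B := Cd * Cst * (40 / 3 * Real.exp 12))
      (x := 2 * (1 - ep)) (δ := δ)
      (α := Ca * (ep + ep) + δ) (y := -(7 / 16) + ε) hF00 (by positivity) (by nlinarith)
    calc F0 * Real.exp (δ * Real.log m) * (Cd * A * (40 / 3 * Real.exp 12) *
          Real.exp (-(2 * (1 - ep) * Tb (Real.log m))))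
        = F0 * Real.exp (δ * Real.log m) * (Cd * Cst * (40 / 3 * Real.exp 12) *
          (m : ℝ) ^ (Ca * (ep + ep) + δ) * Real.exp (-(2 * (1 - ep) * Tb (Real.log m)))) * X := by
          rw [hAX]
          ring
      _ ≤ _ := by
          rw [hR2]
          exact mul_le_mul_of_nonneg_right key hX0
  · -- `W W` over a set
    refine (hset .W .W S).trans ?_
    refine (mul_le_mul' le_rfl ((K ep m).int_ww hCm0 hCG hO hDir hep0.le hep2 hep0 hep2 hJ0 hT hA0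
      hδ0 hδ1 hS hκ)).trans ?_
    rw [← ENNReal.ofReal_mul (by positivity)]
    refine ENNReal.ofReal_le_ofReal ?_
    have key1 := pow_comb gm (A := F0) (B := D1 * (4 * (δ⁻¹) ^ 2 * Real.exp 20))
      (x := -(6 * ep + 4 * ep + 4 * δ)) (δ := δ)
      (α := Ca * (ep + ep) + δ) (y := ε) hF00 (by positivity) (by nlinarith)
    have key2 := pow_comb gm (A := F0) (B := D1 * (3000 * (δ⁻¹) ^ 2 * Real.exp 6))
      (x := 7 / 6 - ep - 2 * δ) (δ := δ)
      (α := Ca * (ep + ep) + δ) (y := -(7 / 16) + ε) hF00 (by positivity) (by nlinarith)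
    have hXp : 0 ≤ Real.exp (-κ) * (m : ℝ) ^ ε + (m : ℝ) ^ (-(7 / 16) + ε) := by positivity
    have e3 : Real.exp (-(κ - (6 * ep + 4 * ep + 4 * δ) * Tb (Real.log m))) =
        Real.exp (-κ) * Real.exp (-(-(6 * ep + 4 * ep + 4 * δ) * Tb (Real.log m))) := by
      rw [← Real.exp_add]
      congr 1
      ring
    rw [e3]
    calc F0 * Real.exp (δ * Real.log m) * (A * (Cm * Cm * CG) * (4 * (δ⁻¹) ^ 2 * Real.exp 20 *
          (Real.exp (-κ) * Real.exp (-(-(6 * ep + 4 * ep + 4 * δ) * Tb (Real.log m)))) +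
          3000 * (δ⁻¹) ^ 2 * Real.exp 6 *
            Real.exp (-((7 / 6 - ep - 2 * δ) * Tb (Real.log m)))))
        = (Real.exp (-κ) * (F0 * Real.exp (δ * Real.log m) *
            (D1 * (4 * (δ⁻¹) ^ 2 * Real.exp 20) * (m : ℝ) ^ (Ca * (ep + ep) + δ) *
              Real.exp (-(-(6 * ep + 4 * ep + 4 * δ) * Tb (Real.log m))))) +
          F0 * Real.exp (δ * Real.log m) *
            (D1 * (3000 * (δ⁻¹) ^ 2 * Real.exp 6) * (m : ℝ) ^ (Ca * (ep + ep) + δ) *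
              Real.exp (-((7 / 6 - ep - 2 * δ) * Tb (Real.log m))))) * X := by
          rw [hAX, hD1]
          ring
      _ ≤ (Real.exp (-κ) * (R3 * (m : ℝ) ^ ε) + R4 * (m : ℝ) ^ (-(7 / 16) + ε)) * X := by
          rw [hR3, hR4]
          refine mul_le_mul_of_nonneg_right (add_le_add ?_ key2) hX0
          exact mul_le_mul_of_nonneg_left key1 (Real.exp_pos _).le
      _ ≤ _ := by
          refine mul_le_mul_of_nonneg_right ?_ hX0
          have q1 : 0 ≤ Real.exp (-κ) * (m : ℝ) ^ ε := by positivity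
          have q2 : 0 ≤ (m : ℝ) ^ (-(7 / 16) + ε) := by positivity
          have q3 : R3 * (Real.exp (-κ) * (m : ℝ) ^ ε) ≤
              (R1 + R2 + R3 + R4 + R5) * (Real.exp (-κ) * (m : ℝ) ^ ε) :=
            mul_le_mul_of_nonneg_right (by linarith) q1
          have q4 : R4 * (m : ℝ) ^ (-(7 / 16) + ε) ≤
              (R1 + R2 + R3 + R4 + R5) * (m : ℝ) ^ (-(7 / 16) + ε) :=
            mul_le_mul_of_nonneg_right (by linarith) q2
          linarith
  · -- `W W` in the window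
    have ha : aXt .W .W + aYt .W .W ≤ 4 := by decide
    have h1 := hL2 (Real.log m) gL2 ep hep0 hep2 ep hep0 (by linarith) J hJ0 (hs0.trans hm2)
      (NUSea.O.par0 m) hPP (K ep m).Z _ κB E0 hB (K ep m).kF (K ep m).kP (K ep m).kF'
      (K ep m).kP' .W .W (vl (htL .W) y.1) (vl (htL .W) y.2) (by simp [vl]) (by simp [vl])
      (m : ℝ) d (2 * m)
      (fun u => PBQ.QG G.MF m ep ep J A .W .W y u) hd
      (fun u => PBQ.QG_nonneg hA0 .W .W y u) (hN _ ha) (fun u h1 h2 => by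
        have h := hcl .W .W y u h1 h2
        rw [QFR_eq] at h
        exact h)
    have hTW : TW ep ep m = (1 + 2 * ep + 2 * ep) * Tb (Real.log m) := rfl
    have hTW' : 3 / 8 * Real.log m ≤ TW ep ep m := by
      have : Tb (Real.log m) = 3 / 8 * Real.log m := rfl
      rw [← this, hTW]
      nlinarith
    have h2 := (K ep m).near_ww hCm0 hCG hO hDir hep0.le hep2 hep0 hep2 hJ0 hT hA0
      (hy1.trans hTW') (hy2.trans hTW')
    have h3 := mul_le_mul_of_nonneg_left h1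
      (norm_nonneg (((K ep m).cl .W .W).pre (vl (htL .W) y.1) (vl (htL .W) y.2)))
    refine h3.trans ?_
    obtain ⟨pr, hpr⟩ : ∃ pr : ℝ, pr = ‖((K ep m).cl .W .W).pre (vl (htL .W) y.1)
      (vl (htL .W) y.2)‖ := ⟨_, rfl⟩
    obtain ⟨su, hsu⟩ : ∃ su : ℝ, su = ∑ u : Bool × Bool, (K ep m).wt .W .W (vl (htL .W) y.1)
      (vl (htL .W) y.2) u.1 u.2 * PBQ.QG G.MF m ep ep J A .W .W y u := ⟨_, rfl⟩
    rw [← hpr, ← hsu] at h2
    have hsu' : (∑ u : Bool × Bool, PBR.wKB (K ep m).Z .W .W (vl (htL .W) y.1)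
        (vl (htL .W) y.2) u.1 u.2 * PBQ.QG G.MF m ep ep J A .W .W y u) = su := hsu.symm
    rw [← hpr, hsu', ← hF0]
    have key := pow_comb gm (A := F0) (B := D1 * Real.exp 20)
      (x := -(6 * ep + 4 * ep)) (δ := δ)
      (α := Ca * (ep + ep) + δ) (y := ε) hF00 (by positivity) (by nlinarith)
    have e3 : Real.exp (20 + (6 * ep + 4 * ep) * Tb (Real.log m)) = Real.exp 20 *
        Real.exp (-(-(6 * ep + 4 * ep) * Tb (Real.log m))) := by
      rw [← Real.exp_add]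
      congr 1
      ring
    rw [e3] at h2
    obtain ⟨Ey, hEy⟩ : ∃ Ey : ℝ, Ey = Real.exp (-(2 * |y.1| + 2 * |y.2| + |y.1 - y.2| / 2)) :=
      ⟨_, rfl⟩
    rw [← hEy] at h2 ⊢
    have hEy0 : 0 ≤ Ey := by rw [hEy]; exact (Real.exp_pos _).le
    calc pr * (F0 * (su * Real.exp (δ * Real.log m)))
        = F0 * Real.exp (δ * Real.log m) * (pr * su) := by ring
      _ ≤ F0 * Real.exp (δ * Real.log m) * (A * (Cm * Cm * CG) * (Real.exp 20 *
          Real.exp (-(-(6 * ep + 4 * ep) * Tb (Real.log m))) * Ey)) :=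
          mul_le_mul_of_nonneg_left h2 (by positivity)
      _ = F0 * Real.exp (δ * Real.log m) * (D1 * Real.exp 20 * (m : ℝ) ^ (Ca * (ep + ep) + δ) *
          Real.exp (-(-(6 * ep + 4 * ep) * Tb (Real.log m)))) * (Ey * X) := by
          rw [hAX, hD1]
          ring
      _ ≤ R5 * (m : ℝ) ^ ε * (Ey * X) := by
          rw [hR5]
          exact mul_le_mul_of_nonneg_right key (mul_nonneg hEy0 hX0)
      _ ≤ (R1 + R2 + R3 + R4 + R5) * (m : ℝ) ^ ε * (Ey * X) := by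
          have q1 : 0 ≤ (m : ℝ) ^ ε := by positivity
          exact mul_le_mul_of_nonneg_right (mul_le_mul_of_nonneg_right (by linarith) q1)
            (mul_nonneg hEy0 hX0)
      _ = _ := by ring

/-- the tilted bounds of all classes from the gas and the one body bounds -/
theorem perBd_of0 {G : GeoX} (hnn : ∀ m β, (G.B m β).Nn) (h4 : S4R G) (h1 : OneR G) :
    PerBdR G := by
  obtain ⟨C, c, b, c1, Ca, k, hC, hc, hb, hc1, hCa, h⟩ :=
    perG_ofR hnn Pool.Agent.NUM3.stabProd h4 h1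
  exact perBd_ofR hC hc hb hc1 hCa h

end PBOX

end
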