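import Pool.Agent.PB.Mst0
import Pool.Agent.GEX.Oth

/-!
# The regular function over a geometry with any bulk exponent, on the window

`PB/Mst0` for `GeoX`, for the sizes with `Pk k`: **`mst_fam`**.
-/

set_option autoImplicit false
set_option linter.unusedSectionVars false

noncomputable section

open Complex MeasureTheory Finset Filter
open scoped ENNReal

namespace PBOX

open PBR
open NUO NUP1 NUCR NUP1S NURow NUGC PBX
open NUP1.N (E11)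
open NUP1.Leg (Dk)
open PBTR (winW)

variable [NUSea.Sea]

/-- **The regular function over a geometry, on the window.** -/
theorem mst_fam {G : PBOX.GeoX} (hP : PBOX.PerBdR G) {K : ℝ → ℕ → PBQ.KD}
    {kD : ℝ → ℕ → Bool → ℂ → ℂ} (hK : PBOX.ClOk G K kD) {D : ∀ (_ : ℝ) (k : ℕ), RD (k - 1)}
    {ex ex0 : List ℂ} {c0 : ℝ}
    {Pk : ℕ → Prop} (hD : ∀ ep : ℝ, 0 < ep → ep ≤ 1 / 100 → ∀ k : ℕ, Pk k → (D ep k).Ok ∧ 1 < (D ep k).β ∧
      REq (D ep k) ex ex0 c0 ∧ IsKD (K ep k) (kD ep k) (D ep k)) :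
    ∀ ε : ℝ, 0 < ε → ∃ ep0 : ℝ, 0 < ep0 ∧ ep0 ≤ 1 / 100 ∧
      ∀ ep : ℝ, 0 < ep → ep ≤ ep0 → ∃ (Cst : ℝ) (k0 : ℕ), 0 ≤ Cst ∧ 1 ≤ k0 ∧ ∀ k : ℕ, k0 ≤ k → Pk k →
        ∀ η η' : ℝ × ℝ → PBF.Crs, (∀ y, ∀ r ≤ 2 * (k - 1) + 2 * (k - 1),
          ∀ᵐ O ∂(Measure.pi fun _ : Fin r => nu), CurB ep (η y r O) (η' y r O)) →
        ‖∑ n ∈ range (2 * (k - 1) + 1), EED (D ep k) n - (2 * (Real.pi : ℂ))⁻¹ ^ 2 *
          ∫ y in winW (3 / 8) k, preWW (D ep k) y * ∑ n ∈ range (2 * (k - 1) + 1),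
            PBF.FF (ZWW (D ep k) y) (NUSea.O.par0 k) n n (η y) (η' y) (fun _ _ _ _ _ => 1)‖ ≤
          Cst * (k : ℝ) ^ (-(7 / 16) + ε) * Real.exp (G.EX k) ∧
        ∀ y ∈ winW (3 / 8) k, ‖preWW (D ep k) y * ∑ n ∈ range (2 * (k - 1) + 1),
            PBF.FF (ZWW (D ep k) y) (NUSea.O.par0 k) n n (η y) (η' y) (fun _ _ _ _ _ => 1)‖ ≤
          Cst * ((k : ℝ) ^ ε * Real.exp (-(PBTR.mT y))) * Real.exp (G.EX k) := by
  intro ε hε
  obtain ⟨ep0, h0, h1, hoth⟩ := PBOX.oth0 hP hK ε hε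
  refine ⟨ep0, h0, h1, fun ep hep hep' => ?_⟩
  obtain ⟨Cst, k0, hC, hk0, hk⟩ := hoth ep hep hep'
  have hep1 : ep ≤ 1 / 100 := hep'.trans h1
  refine ⟨RG.KA * Cst + (2 * Real.pi)⁻¹ ^ 2 * (2 * Cst) + Cst, k0, by
    have := RG.KA_nonneg
    positivity, hk0, fun k hkk hPk0 η η' hη => ?_⟩
  obtain ⟨ho, hd, hww, hpt⟩ := hk k hkk
  obtain ⟨hOk, hβ, hR, hIs⟩ := hD ep hep hep1 k hPk0
  have hk1 : 1 ≤ k := hk0.trans hkk
  have hkR : (1 : ℝ) ≤ k := by exact_mod_cast hk1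
  have hkR0 : (0 : ℝ) < k := by linarith
  have hPk : ParM (NUSea.O.par0 k) := PBO.parM_par0 k
  have hρ := PBC.parZ_low (m := k)
  obtain ⟨X, hX⟩ : ∃ X : ℝ, X = Real.exp (G.EX k) := ⟨_, rfl⟩
  have hX0 : 0 < X := by rw [hX]; exact Real.exp_pos _
  rw [← hX] at ho hd hww hpt ⊢
  have hKA := RG.KA_nonneg
  refine ⟨?_, fun y hy => ?_⟩
  · have hw := hww (winW (3 / 8) k)ᶜ (15 / 16 * Real.log k)
      (PBTR.measurableSet_winW _ _).compl fun z hz => out_win hz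
    have e1 : Real.exp (-(15 / 16 * Real.log k)) * (k : ℝ) ^ ε ≤ (k : ℝ) ^ (-(7 / 16) + ε) := by
      have e2 : Real.exp (-(15 / 16 * Real.log k)) = (k : ℝ) ^ (-(15 / 16) : ℝ) := by
        rw [Real.rpow_def_of_pos hkR0]
        congr 1
        ring
      rw [e2, ← Real.rpow_add hkR0]
      exact Real.rpow_le_rpow_of_exponent_le hkR (by linarith)
    have hB' : 0 ≤ 2 * Cst * (k : ℝ) ^ (-(7 / 16) + ε) * X := by positivity
    have hf : PBO.sInt (K ep k) (NUSea.O.par0 k) (2 * k) .W .W (winW (3 / 8) k)ᶜ ≤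
        ENNReal.ofReal (2 * Cst * (k : ℝ) ^ (-(7 / 16) + ε) * X) := by
      refine hw.trans (ENNReal.ofReal_le_ofReal ?_)
      refine mul_le_mul_of_nonneg_right ?_ hX0.le
      calc Cst * (Real.exp (-(15 / 16 * Real.log k)) * (k : ℝ) ^ ε + (k : ℝ) ^ (-(7 / 16) + ε))
          ≤ Cst * ((k : ℝ) ^ (-(7 / 16) + ε) + (k : ℝ) ^ (-(7 / 16) + ε)) := by gcongr
        _ = _ := by ring
    refine (mst_FF hOk hβ hR hPk hep hep1 hρ hIs (N := 2 * k) (N' := 2 * (k - 1)) (by omega) hB'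
      ho hd (PBTR.measurableSet_winW _ _) hf η η' hη).trans ?_
    have h3 : 0 ≤ (k : ℝ) ^ (-(7 / 16) + ε) * X := by positivity
    calc RG.KA * (Cst * (k : ℝ) ^ (-(7 / 16) + ε) * X) + (2 * Real.pi)⁻¹ ^ 2 *
          (2 * Cst * (k : ℝ) ^ (-(7 / 16) + ε) * X)
        = (RG.KA * Cst + (2 * Real.pi)⁻¹ ^ 2 * (2 * Cst)) * ((k : ℝ) ^ (-(7 / 16) + ε) * X) := by
          ring
      _ ≤ (RG.KA * Cst + (2 * Real.pi)⁻¹ ^ 2 * (2 * Cst) + Cst) *
          ((k : ℝ) ^ (-(7 / 16) + ε) * X) := by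
          refine mul_le_mul_of_nonneg_right ?_ h3
          linarith
      _ = _ := by ring
  · have h2 := hpt y hy.1 hy.2
    have e1 : ∑ n ∈ range (2 * (k - 1) + 1),
        PBF.FF (ZWW (D ep k) y) (NUSea.O.par0 k) n n (η y) (η' y) (fun _ _ _ _ _ => 1) =
        ∑ n ∈ range (2 * (k - 1) + 1), objWW (D ep k) (NUSea.O.par0 k) n y := by
      refine Finset.sum_congr rfl fun n hn => ?_
      exact (RWW_FF hOk hR hPk.1 hep hep1 hρ (by simp [vl]) (by simp [vl]) n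
        fun r hr => hη y r (by have := Finset.mem_range.1 hn; omega)).symm
    rw [e1, norm_mul]
    have e2 : PBO.sPt (K ep k) (NUSea.O.par0 k) (2 * k) .W .W (vl (htL .W) y.1)
        (vl (htL .W) y.2) = ‖preWW (D ep k) y‖ * ∑ n ∈ range (2 * k + 1),
          ‖objWW (D ep k) (NUSea.O.par0 k) n y‖ := by
      unfold PBO.sPt
      rw [hIs.cl, hIs.zX, hIs.zY]
      show ‖(rgD (D ep k)).pre .W .W y‖ * ∑ n ∈ range (2 * k + 1),
        ‖(rgD (D ep k)).Z (NUSea.O.par0 k) .W .W n y‖ = _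
      rw [rgD_pre]
      simp only [rgD_Z]
    rw [e2] at h2
    have e3 : ‖∑ n ∈ range (2 * (k - 1) + 1), objWW (D ep k) (NUSea.O.par0 k) n y‖ ≤
        ∑ n ∈ range (2 * k + 1), ‖objWW (D ep k) (NUSea.O.par0 k) n y‖ :=
      (norm_sum_le _ _).trans (Finset.sum_le_sum_of_subset_of_nonneg
        (Finset.range_subset_range.2 (by omega)) fun _ _ _ => norm_nonneg _)
    refine (mul_le_mul_of_nonneg_left e3 (norm_nonneg _)).trans (h2.trans ?_)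
    have e4 : Real.exp (-(2 * |y.1| + 2 * |y.2| + |y.1 - y.2| / 2)) =
        Real.exp (-(PBTR.mT y)) := by
      unfold PBTR.mT
      congr 1
    rw [e4]
    have h4 : 0 ≤ (k : ℝ) ^ ε * Real.exp (-(PBTR.mT y)) := by positivity
    have h5 : 0 ≤ RG.KA * Cst + (2 * Real.pi)⁻¹ ^ 2 * (2 * Cst) := by positivity
    calc Cst * (Real.exp (-(PBTR.mT y)) * (k : ℝ) ^ ε) * X
        = Cst * ((k : ℝ) ^ ε * Real.exp (-(PBTR.mT y))) * X := by ring
      _ ≤ _ := by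
        refine mul_le_mul_of_nonneg_right (mul_le_mul_of_nonneg_right ?_ h4) hX0.le
        linarith

end PBOX

end
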