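import Pool.Agent.PB.S4R0
import Pool.Agent.GEX.Asm

/-!
# The gas in the presence of objects and groups, geometry with any bulk exponent

`PB/S4R0` for `GeoX`: the mean of the potential may grow like `LX m`: `GOk`, `s4R_of`, **`s4R`**.
-/

set_option autoImplicit false
set_option linter.unusedSectionVars false

noncomputable section

open MeasureTheory Finset Filter Topology
open scoped ENNReal

namespace PBOX

open PBO NUGC
open NUO (Kind Xo kd ht Par TW Tb excS chgO exc)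
open NUStabP (enC)
open NUDispW (win)
open NUSea.H0 (Gd TG cstF)
open PotH (CrvP CutR HOk DomH EnvH S4H RgH crH phG linH T1H lhsH prefH oneEH confEH enH)

variable [NUSea.Sea]

/-- **what is asked of a geometry**: one body data dominated on the curve by the rows of the sea, the
ends `ThN` and a real potential; admissible cutoff; exponents -/
structure GOk (G : GeoX) (LX : ℕ → ℝ) : Prop where
  nn : ∀ m β, (G.B m β).Nn
  pot : ∃ B0 N0 : ℝ, 0 ≤ B0 ∧ 0 ≤ N0 ∧ ∀ ep : ℝ, 0 < ep → ep ≤ 1 / 100 → ∀ e1 : ℝ, 0 < e1 →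
    e1 ≤ 1 / 100 → ∀ J : ℝ, 0 ≤ J → ∃ CH : ℝ, ∃ m0 : ℕ, ∀ m ≥ m0, ∃ H H' : Bool → ℝ → ℝ,
      (∀ d : ℝ, 0 ≤ d → HOk B0 N0 d ((1 - e1) * Tb (Real.log m)) (Real.log m ^ 3) H H') ∧
      (∀ a t, (G.B m (4 / 3 * (1 - ep))).R a (NUO.pA (etaC e1 J m m) t) ≤
        2 * Real.cos NUP1.l *
          Real.exp ((m : ℝ) * (NUSea.vc (NUAct.zt (NUKer.iD (etaC e1 J m m)) t)).re) *
          ThN (NUO.pA (etaC e1 J m m) t) * Real.exp (H a t)) ∧
      ∑ a, ∫ t, (m : ℝ) * NUSea.P t * H a t ≤ CH + LX m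
  cut : ∀ ep : ℝ, 0 < ep → ep ≤ 1 / 100 → ∀ e1 : ℝ, 0 < e1 → e1 ≤ 1 / 100 → ∀ J : ℝ, 0 ≤ J →
    ∃ C0 : ℝ, 1 ≤ C0 ∧ ∃ m0 : ℕ, ∀ m ≥ m0, ∃ cr Bc Bc' : ℝ → ℝ,
      CutR ep C0 ((1 - e1) * Tb (Real.log m)) m cr Bc Bc' ∧
      ∀ t, ‖(G.B m (4 / 3 * (1 - ep))).φ (NUO.pA (etaC e1 J m m) t)‖ ≤ cr t
  one : ∃ K1 : ℝ, 0 ≤ K1 ∧ ∀ ep : ℝ, 0 < ep → ep ≤ 1 / 100 → ∀ e1 : ℝ, 0 < e1 → e1 ≤ 1 / 100 →
    ∀ J : ℝ, 0 ≤ J → ∃ m0 : ℕ, ∀ m ≥ m0, ∀ (r : ℕ) (O : Fin r → Xo) (i : Fin r),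
      oneEH m (etaC e1 J m m) (TW ep e1 m) O i ≤ G.one m ep e1 J r O i + K1
  EM : ∃ C : ℝ, 0 ≤ C ∧ ∀ m : ℕ, NUSea.MF (m : ℝ) + LX m ≤ G.EX m + C
  MF : ∃ C : ℝ, 0 ≤ C ∧ ∀ (m : ℕ) (g : Gd), seaG m g ≤ m * G.MF g.c g.w + C

/-- the exponent of the objects against the one of the geometry -/
theorem confEH_le {G : GeoX} {m : ℕ} {ep e1 J K K1 kap : ℝ} {r : ℕ} (O : Fin r → Xo)
    (h : ∀ i, oneEH m (etaC e1 J m m) (TW ep e1 m) O i ≤ G.one m ep e1 J r O i + K1) :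
    confEH m (etaC e1 J m m) (TW ep e1 m) K kap O ≤ confR G m ep e1 J (K + K1) kap O := by
  unfold confEH confR
  have h1 : ∑ i, oneEH m (etaC e1 J m m) (TW ep e1 m) O i ≤ ∑ i, (G.one m ep e1 J r O i + K1) :=
    sum_le_sum fun i _ => h i
  rw [sum_add_distrib, sum_const, card_univ, Fintype.card_fin, nsmul_eq_mul] at h1
  linarith

/-- **the environment** of the curve `etaC`, any family of groups: `B0`, `N0` before everything -/
theorem GOk.env {G : GeoX} {LX : ℕ → ℝ} (hG : GOk G LX) : ∃ B0 N0 : ℝ, 0 ≤ B0 ∧ 0 ≤ N0 ∧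
    ∀ ep : ℝ, 0 < ep →
    ep ≤ 1 / 100 → ∀ e1 : ℝ, 0 < e1 → e1 ≤ 1 / 100 → ∀ J : ℝ, 0 ≤ J →
    ∃ Cc C0 : ℝ, 1 ≤ Cc ∧ 1 ≤ C0 ∧ ∃ CL : ℝ, ∃ m0 : ℕ, ∀ m : ℕ, m0 ≤ m →
      1 ≤ m ∧ 20 ≤ Tb (Real.log m) ∧ ∃ (cr Bc Bc' : ℝ → ℝ) (H H' : Bool → ℝ → ℝ),
      (∀ (n : ℕ) (g : Fin n → Gd) (d : ℝ), 0 ≤ d →
        EnvH ep e1 Cc C0 B0 N0 d m (etaC e1 J m m) (etaC' e1 J m m) cr Bc Bc' H H'
          ((G.B m (4 / 3 * (1 - ep))).mul (spF g)) g) ∧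
      ∀ (n : ℕ) (g : Fin n → Gd) (T1 : ℝ), (1 - e1) * Tb (Real.log m) ≤ T1 →
        linH (etaC e1 J m m) (etaC' e1 J m m) m g T1 H ≤
          -((1 - e1) * Tb (Real.log m)) + CL + LX m - gnF e1 J m g := by
  obtain ⟨B0, N0, hB0, hN0, hpot⟩ := hG.pot
  refine ⟨B0, N0, hB0, hN0, ?_⟩
  intro ep hep hep1 e1 he he1 J hJ
  obtain ⟨CH, m1, hpot⟩ := hpot ep hep hep1 e1 he he1 J hJ
  obtain ⟨C0, hC0, m2, hcut⟩ := hG.cut ep hep hep1 e1 he he1 J hJ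
  obtain ⟨Cc, hCc, Cb, m4, hcrv⟩ := crvP_etaC (J := J) he he1 hJ
  refine ⟨Cc, C0, hCc, hC0, Cb + CH, max (max m1 m2) m4, ?_⟩
  intro m hm
  have a1 : m1 ≤ m := ((le_max_left _ _).trans (le_max_left _ _)).trans hm
  have a2 : m2 ≤ m := ((le_max_right _ _).trans (le_max_left _ _)).trans hm
  have a4 : m4 ≤ m := (le_max_right _ _).trans hm
  obtain ⟨H, H', hH, hdom, hint⟩ := hpot m a1
  obtain ⟨cr, Bc, Bc', hcr, hφ⟩ := hcut m a2
  obtain ⟨hm1, hT, hc, hcu⟩ := hcrv m a4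
  have hη : ∀ t, |etaC e1 J m m t| < NUMF.l / 5 := fun t => (hc.small.1 t).trans_lt PotH.small_l
  refine ⟨hm1, hT, cr, Bc, Bc', H, H', fun n g d hd => ?_, fun n g T1 hT1 => ?_⟩
  · exact { crv := hc, cut := hcr, hok := hH d hd
            nn := fun a u => mul_nonneg (hG.nn _ _ a u) (spFR_nonneg g a u)
            dom := domH_of hcr.nn hη g hdom hφ }
  · have hlin := lin_leG hm1 he he1 hT hT1 hcu g H
    linarith

/-- **the prefactors** -/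
theorem GOk.pref_le {G : GeoX} {LX : ℕ → ℝ} (hG : GOk G LX) : ∃ C : ℝ, 0 ≤ C ∧
    ∀ (m n : ℕ) (g : Fin n → Gd), n ≤ 2 →
    NUSea.MF (m : ℝ) + LX m + ∑ i, seaG m (g i) ≤
      G.EX m + m * ∑ i, G.MF (g i).c (g i).w + C := by
  obtain ⟨CE, hCE, hEM⟩ := hG.EM
  obtain ⟨CM, hCM, hMF⟩ := hG.MF
  refine ⟨CE + 2 * CM, by positivity, fun m n g hn => ?_⟩
  have h1 : ∑ i, seaG m (g i) ≤ ∑ i, (m * G.MF (g i).c (g i).w + CM) :=
    sum_le_sum fun i _ => hMF m (g i)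
  rw [sum_add_distrib, ← mul_sum, sum_const, card_univ, Fintype.card_fin, nsmul_eq_mul] at h1
  have h2 : (n : ℝ) ≤ 2 := by exact_mod_cast hn
  have h3 : (n : ℝ) * CM ≤ 2 * CM := mul_le_mul_of_nonneg_right h2 hCM
  have h4 := hEM m
  linarith

/-- the prefactors, exponentiated: power `3 / 8 + a`, linear term `LI`, gain `GN` -/
theorem pref_alg {G : GeoX} {m n : ℕ} (hm : 1 ≤ m) {g : Fin n → Gd} {E x Cst CP CL e1 a a' LI GN CF CR
    F1 F2 LM : ℝ} (hCst : 0 ≤ Cst) (hF : F1 ≤ F2) (hF1 : 0 ≤ F1)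
    (hp : NUSea.MF (m : ℝ) + LM + ∑ i, seaG m (g i) ≤
      G.EX m + m * ∑ i, G.MF (g i).c (g i).w + CP)
    (hl : LI ≤ -((1 - e1) * Tb (Real.log m)) + CL + LM - GN) (hc : CF ≤ CR) (ha : a + 3 / 8 * e1 ≤ a') :
    prefH m g E x Cst * (m : ℝ) ^ (3 / 8 + a) * F1 * Real.exp (CF + LI) ≤
      prefR G m g E x (Cst * Real.exp (CP + CL)) * (m : ℝ) ^ a' * F2 * Real.exp (-GN) *
        Real.exp CR := by
  have hmR : (0 : ℝ) < m := by exact_mod_cast hm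
  unfold prefH prefR
  rw [Real.rpow_def_of_pos hmR, Real.rpow_def_of_pos hmR]
  obtain ⟨L, hL⟩ : ∃ L, L = Real.log m := ⟨_, rfl⟩
  have hTb : Tb (Real.log m) = 3 / 8 * L := by
    rw [hL]
    rfl
  rw [hTb] at hl
  rw [← hL]
  have hL0 : 0 ≤ L := by
    rw [hL]
    exact Real.log_nonneg (by exact_mod_cast hm)
  obtain ⟨SG, hSG⟩ : ∃ SG, SG = ∑ i, seaG m (g i) := ⟨_, rfl⟩
  obtain ⟨SM, hSM⟩ : ∃ SM, SM = ∑ i, G.MF (g i).c (g i).w := ⟨_, rfl⟩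
  rw [← hSG, ← hSM] at hp
  rw [← hSG, ← hSM]
  have h1 : Cst * Real.exp (NUSea.MF (m : ℝ) + SG) * Real.exp (37 / 20 * x + 12 / 5 * E) *
        Real.exp (L * (3 / 8 + a)) * F1 * Real.exp (CF + LI) =
      Cst * F1 * Real.exp (NUSea.MF (m : ℝ) + SG + (37 / 20 * x + 12 / 5 * E) +
        L * (3 / 8 + a) + (CF + LI)) := by
    rw [Real.exp_add _ (CF + LI), Real.exp_add _ (L * (3 / 8 + a)),
      Real.exp_add _ (37 / 20 * x + 12 / 5 * E)]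
    ring
  have h2 : Cst * Real.exp (CP + CL) * Real.exp (G.EX m) *
        Real.exp (m * SM) * Real.exp (37 / 20 * x + 12 / 5 * E) *
        Real.exp (L * a') * F2 * Real.exp (-GN) * Real.exp CR =
      Cst * F2 * Real.exp (CP + CL + G.EX m + m * SM +
        (37 / 20 * x + 12 / 5 * E) + L * a' + -GN + CR) := by
    rw [Real.exp_add _ CR, Real.exp_add _ (-GN), Real.exp_add _ (L * a'),
      Real.exp_add _ (37 / 20 * x + 12 / 5 * E), Real.exp_add _ (m * SM),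
      Real.exp_add _ (G.EX m)]
    ring
  rw [h1, h2]
  refine mul_le_mul (mul_le_mul_of_nonneg_left hF hCst) (Real.exp_le_exp.2 ?_) (Real.exp_pos _).le
    (mul_nonneg hCst (hF1.trans hF))
  have h3 : L * (a + 3 / 8 * e1) ≤ L * a' := mul_le_mul_of_nonneg_left ha hL0
  nlinarith

/-- **the gas in the presence of objects and groups** -/
theorem s4R_of (h4 : S4H) {G : GeoX} {LX : ℕ → ℝ} (hG : GOk G LX) : S4R G := by
  obtain ⟨B0, N0, hB0, hN0, henv⟩ := hG.env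
  obtain ⟨K, Ca, hK, hCa, h4⟩ := h4 B0 N0 hB0 hN0
  obtain ⟨K1, hK1, hone⟩ := hG.one
  obtain ⟨CP, hCP, hpref⟩ := hG.pref_le
  refine ⟨K + K1, Ca + 1, by linarith, by linarith, ?_⟩
  intro kap hkap ep hep hep1 e1 he he1 J hJ δ hδ
  obtain ⟨Cc, C0, hCc, hC0, CL, m1, henv⟩ := henv ep hep hep1 e1 he he1 J hJ
  obtain ⟨m3, hone⟩ := hone ep hep hep1 e1 he he1 J hJ
  obtain ⟨d, Cst, hd, hCst, m5, h4⟩ := h4 kap hkap ep hep hep1 e1 he he1 Cc C0 hCc hC0 δ hδ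
  refine ⟨d, Cst * Real.exp (CP + CL), hd, by positivity, max m1 (max m3 m5), ?_⟩
  intro m hm n g aX aY ν N b' r O E x hb' hR
  have a1 : m1 ≤ m := (le_max_left _ _).trans hm
  have a3 : m3 ≤ m := ((le_max_left _ _).trans (le_max_right _ _)).trans hm
  have a5 : m5 ≤ m := ((le_max_right _ _).trans (le_max_right _ _)).trans hm
  obtain ⟨hm1, hT, cr, Bc, Bc', H, H', hE, hlin⟩ := henv m a1
  have hRH : RgH ep e1 m g aX aY ν N O E x :=
    ⟨hR.n2, hR.sp, hR.ax, hR.ay, hR.q, hR.nu.trans (by norm_num), hR.hN.trans (by omega), hR.hr,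
      hR.hc1, hR.hc2, hR.E0, hR.hE, hR.x0, hR.hx⟩
  have hbd : |b'| ≤ d := by
    rcases hb' with rfl | rfl
    · exact (abs_of_pos hd).le
    · rw [abs_neg, abs_of_pos hd]
  have key := h4 m a5 n _ _ cr Bc Bc' H H' _ g (hE n g d hd.le) aX aY ν N b' r O E x hbd hRH
  have e0 : lhsR G ep e1 J m g aX aY ν N b' O =
      lhsH ((G.B m (4 / 3 * (1 - ep))).mul (spF g)) m (etaC e1 J m m) (etaC' e1 J m m) aX aY ν N b' O
        (fun _ => 1) := by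
    unfold lhsR lhsH
    rw [PBZ.Z1S_one]
  rw [e0]
  refine key.trans (ENNReal.ofReal_le_ofReal ?_)
  -- the linear term
  have hT1 : (1 - e1) * Tb (Real.log m) ≤ T1H ep e1 m O E := by
    have h1 := TW_geR hep he hT
    have h2 : TW ep e1 m ≤ T1H ep e1 m O E := by
      unfold T1H
      linarith [le_max_right (excS (TW ep e1 m) O) E, hR.E0]
    linarith
  have hlin := hlin n g _ hT1
  have hconf := confEH_le (G := G) (K := K) (kap := kap) O fun i => hone m a3 r O i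
  have hen : enH m g O (T1H ep e1 m O E) (N + aX - chgO O true) (N + aY - chgO O false) =
      enR m g O (T1R ep e1 m O E) (N + aX - chgO O true) (N + aY - chgO O false) := rfl
  rw [hen]
  obtain ⟨EN, hEN⟩ : ∃ EN, EN = enR m g O (T1R ep e1 m O E) (N + aX - chgO O true)
    (N + aY - chgO O false) := ⟨_, rfl⟩
  rw [← hEN]
  have e1' : 3 / 8 + Ca * (ep + e1) + δ = 3 / 8 + (Ca * (ep + e1) + δ) := by ring
  have e2' : confEH m (etaC e1 J m m) (TW ep e1 m) K kap O +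
      linH (etaC e1 J m m) (etaC' e1 J m m) m g (T1H ep e1 m O E) H + EN =
      (confEH m (etaC e1 J m m) (TW ep e1 m) K kap O + EN) +
      linH (etaC e1 J m m) (etaC' e1 J m m) m g (T1H ep e1 m O E) H := by ring
  rw [e1', e2']
  refine pref_alg (e1 := e1) hm1 hCst (far_le hep1 he1 hm1 hT g) ?_ (hpref m n g hR.n2) hlin
    (by linarith) (by nlinarith)
  split_ifs
  · exact zero_le_one
  · exact (Real.exp_pos _).le

/-- **the gas in the presence of objects and groups**, unconditional -/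
theorem s4R {G : GeoX} {LX : ℕ → ℝ} (hG : GOk G LX) : S4R G := s4R_of PotH.s4H hG

end PBOX

end
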