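import Pool.Agent.PB.RowsH
import Pool.Agent.PB.ClO0
import Pool.Agent.PB.S4G0
import Pool.Agent.GEX.Mst
import Pool.Agent.GEX.S4

/-!
# Rows `0`, real ends `p`, `q`: data, classes, geometry

`k` effective rows: `k - 1` rows at `0` in both groups, ends at real `p`, `q`, `|p|, |q| ≤ l / 2`; cutoffs over the rows
and the points `ex` (quanta), `ex0` (strings), exponent `beC ep`; sea `NUSea.seaP`.

* `DE p q ex ex0 ep k`: the data; `KE`, `kDE`: the 16 classes, the kernels of D1, D1'; `DE_zero`;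
* `obE`, `GE0`, **`GE p q EX ex ex0`**: the one body data and the geometry with the bulk exponent `EX`;
* `sr`: quotients of sines; **`spZ_E`**: the ends are an admissible spectator; `oneR_GE`, `oneRT_GE`.
-/

set_option autoImplicit false

noncomputable section

open Complex MeasureTheory Set

namespace PBE

open NUO NUP1 NUP1S.AbG NUGC PBX PBR
open NURow (XB)
open NUP1.Leg (thE cc kap)
open PBO (s1 s1_pos s1_le_one sin_up sin_dn cR eM ObZ PtZ PtsZ SpZ beC_bd)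

/-- the data with `k` effective rows -/
def DE (p q : ℝ) (ex ex0 : List ℂ) (ep : ℝ) (k : ℕ) : RD (k - 1) :=
  RX (beC ep) (fun _ => 0) p q ex ex0

/-- the 16 classes -/
def KE (p q : ℝ) (ex ex0 : List ℂ) (ep : ℝ) (k : ℕ) : PBQ.KD := PB0.KRD (DE p q ex ex0 ep k)

/-- the kernels of D1 (`true`), D1' -/
def kDE (p q : ℝ) (ex ex0 : List ℂ) (ep : ℝ) (k : ℕ) (o : Bool) : ℂ → ℂ :=
  if o then (DE p q ex ex0 ep k).XD else (DE p q ex ex0 ep k).XD'

/-- ends `0` -/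
theorem DE_zero (ex ex0 : List ℂ) (ep : ℝ) (k : ℕ) : DE 0 0 ex ex0 ep k = PBO.DX ex ex0 ep k := by
  unfold DE PBO.DX RX R0
  simp only [ofReal_zero]

/-- the one body data -/
def obE (p q : ℝ) (k : ℕ) (β : ℝ) (ex ex0 : List ℂ) : OB :=
  obR (RX β (fun _ : Fin (k - 1) => 0) p q ex ex0) ex ex0 (2 * Real.cos l) fun _ _ => 1

/-- the factor of the ends -/
def fE (p q : ℝ) (u : ℂ) : ℝ := ‖thE (p : ℂ) p q q u‖

theorem fE_nonneg (p q : ℝ) (u : ℂ) : 0 ≤ fE p q u := norm_nonneg _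

theorem fE_eq (p q : ℝ) (u : ℂ) : fE p q u =
    (‖sin (u - p + 3 * l)‖ / ‖sin (u - p - 2 * l)‖) * (‖sin (u - q + 3 * l)‖ / ‖sin (u - q - 2 * l)‖) := by
  unfold fE
  rw [thE_ends, norm_mul, norm_div, norm_div]

theorem obE_R (p q : ℝ) (k : ℕ) (β : ℝ) (ex ex0 : List ℂ) (a : Bool) (u : ℂ) :
    (obE p q k β ex ex0).R a u = 2 * Real.cos l * PBX.rwC 0 u ^ (k - 1) * fE p q u := by
  show 2 * Real.cos l * (∏ i : Fin (k - 1), PBX.rwC ((fun _ => (0 : ℂ)) i) u) *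
    (‖thE (p : ℂ) p q q u‖ * 1) = _
  rw [Finset.prod_const, Finset.card_univ, Fintype.card_fin, mul_one]
  rfl

theorem obE_φ (p q : ℝ) (k : ℕ) (β : ℝ) (ex ex0 : List ℂ) :
    (obE p q k β ex ex0).φ = NUP1.phi β (List.replicate (k - 1) 0 ++ ex) := by
  show NUP1.phi β (List.ofFn (fun _ : Fin (k - 1) => (0 : ℂ)) ++ ex) = _
  rw [List.ofFn_const]

theorem obE_φ0 (p q : ℝ) (k : ℕ) (β : ℝ) (ex ex0 : List ℂ) :
    (obE p q k β ex ex0).φ0 = NUP1.phi (4 / 3) (List.replicate (k - 1) 0 ++ ex0) := by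
  show NUP1.phi (4 / 3) (List.ofFn (fun _ : Fin (k - 1) => (0 : ℂ)) ++ ex0) = _
  rw [List.ofFn_const]

theorem obE_nn (p q : ℝ) (k : ℕ) (β : ℝ) (ex ex0 : List ℂ) : (obE p q k β ex ex0).Nn := by
  intro a u
  rw [obE_R]
  have h1 := cosl_nonneg
  have h2 := PBX.rwC_nonneg 0 u
  have h3 := fE_nonneg p q u
  exact mul_nonneg (mul_nonneg (by linarith) (pow_nonneg h2 _)) h3

/-! ### quotients of sines -/

theorem sr {z z' : ℂ} (h : z.im = z'.im) (h1 : l / 1000 ≤ |z'.re|) (h2 : |z'.re| ≤ 8 * l - l / 1000) :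
    ‖sin z‖ ≤ s1⁻¹ * ‖sin z'‖ := by
  have a1 := sin_up z
  have a2 := sin_dn h1 h2
  have a3 := s1_pos
  rw [h] at a1
  rw [← div_eq_inv_mul, le_div_iff₀ a3]
  nlinarith

theorem one_le_is : 1 ≤ s1⁻¹ := (one_le_inv₀ s1_pos).2 s1_le_one

theorem is_pos : 0 < s1⁻¹ := inv_pos.2 s1_pos

/-- a quotient of two quotients -/
theorem quo_le {a b a' b' A B : ℝ} (hb : 0 < b) (hb' : 0 < b') (hA : 0 ≤ A)
    (ha' : 0 ≤ a') (h1 : a ≤ A * a') (h2 : b' ≤ B * b) : a / b ≤ A * B * (a' / b') := by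
  have e : A * B * (a' / b') * b = A * B * a' * b / b' := by ring
  rw [div_le_iff₀ hb, e, le_div_iff₀ hb']
  calc a * b' ≤ (A * a') * (B * b) := mul_le_mul h1 h2 hb'.le (by positivity)
    _ = A * B * a' * b := by ring

theorem re_shift (u : ℂ) (r : ℝ) (n : ℝ) : (u - r + (n : ℂ) * l).re = u.re - r + n * l := by
  simp

theorem im_shift (u : ℂ) (r : ℝ) (n : ℝ) : (u - r + (n : ℂ) * l).im = u.im := by
  simp

/-- one end on the lines of the objects -/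
theorem end_le {r : ℝ} (hr : |r| ≤ l / 2) {u : ℂ} (h1 : -((2 + eM) * l) ≤ u.re)
    (h2 : u.re ≤ 4 / 5 * l) : ‖sin (u - r + 3 * l)‖ / ‖sin (u - r - 2 * l)‖ ≤ s1⁻¹ := by
  have hl := Bd.l_pos
  have he : eM = 1251 / 5000 := rfl
  obtain ⟨r1, r2⟩ := abs_le.1 hr
  rw [he] at h1
  have e1 : (u - r - 2 * l).re = u.re - r - 2 * l := by simp
  have hneg : (u - r - 2 * l).re < 0 := by rw [e1]; linarith
  have g1 : l / 1000 ≤ |(u - r - 2 * l).re| := by rw [abs_of_neg hneg, e1]; linarith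
  have g2 : |(u - r - 2 * l).re| ≤ 8 * l - l / 1000 := by rw [abs_of_neg hneg, e1]; linarith
  have h3 := sr (z := u - r + 3 * l) (z' := u - r - 2 * l) (by simp) g1 g2
  have h4 : 0 < ‖sin (u - r - 2 * l)‖ :=
    lt_of_lt_of_le (mul_pos s1_pos (Real.cosh_pos _)) (sin_dn g1 g2)
  exact (div_le_iff₀ h4).2 h3

variable {p q : ℝ}

/-- **the ends are an admissible spectator** -/
theorem spZ_E (hp : |p| ≤ l / 2) (hq : |q| ≤ l / 2) : SpZ cR eM fun _ u => fE p q u := by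
  intro a u h1 h2
  refine ⟨fE_nonneg p q u, ?_⟩
  have hs := is_pos
  have e : cR = s1⁻¹ * s1⁻¹ := by
    unfold PBO.cR
    rw [pow_two, mul_inv]
  show fE p q u ≤ cR
  rw [fE_eq, e]
  exact mul_le_mul (end_le hp h1 h2) (end_le hq h1 h2) (by positivity) hs.le

/-- **the bounds of the factors of `obE`** (`k` effective rows) -/
theorem ObZ_obE {n0 k : ℕ} (hn : 1 ≤ n0) (hk : 1 ≤ k) {h0 β : ℝ} {ex ex0 : List ℂ}
    (h1 : PtsZ n0 h0 ex) (h2 : PtsZ n0 h0 ex0) (hp : |p| ≤ l / 2) (hq : |q| ≤ l / 2) :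
    ObZ n0 h0 cR k β eM (obE p q k β ex ex0) (k - 1) (List.replicate (k - 1) 0) [] ex ex0
      (2 * Real.cos l) fun _ u => fE p q u where
  rows := ⟨by simp, Nat.zero_le _, by simp, by omega, by omega⟩
  w1 := h1
  w2 := h2
  cc := by
    have a1 := cos_l_pos
    have a2 := Real.cos_le_one l
    constructor <;> linarith
  sp := spZ_E hp hq
  R a u := by
    rw [obE_R, List.map_replicate, List.prod_replicate]
    rfl
  φ := obE_φ p q k β ex ex0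
  φ0 := obE_φ0 p q k β ex ex0

attribute [local instance] NUSea.seaP

/-- the geometry, without a bulk exponent -/
def GE0 (p q : ℝ) (ex ex0 : List ℂ) : PBO.Geo where
  B k β := obE p q k β ex ex0
  one k ep e1 J _ O i := PotH.oneEH k (etaC e1 J k k) (TW ep e1 k) O i
  EM := 0
  MF := PB0.MF0

/-- **the geometry of the rows `0`, ends `p`, `q`, bulk exponent `EX`** -/
def GE (p q : ℝ) (EX : ℕ → ℝ) (ex ex0 : List ℂ) : PBOX.GeoX where
  B k β := obE p q k β ex ex0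
  one k ep e1 J _ O i := PotH.oneEH k (etaC e1 J k k) (TW ep e1 k) O i
  EX := EX
  MF := PB0.MF0

variable {n0 : ℕ} {h0 : ℝ} {ex ex0 : List ℂ} {EX : ℕ → ℝ}

theorem GE_nn (p q : ℝ) (EX : ℕ → ℝ) (ex ex0 : List ℂ) (k : ℕ) (β : ℝ) :
    ((GE p q EX ex ex0).B k β).Nn := obE_nn _ _ _ _ _ _

theorem GE0_ObZ (hp : |p| ≤ l / 2) (hq : |q| ≤ l / 2) (h1 : PtsZ n0 h0 ex) (h2 : PtsZ n0 h0 ex0)
    (ep : ℝ) (_ : 0 < ep) (_ : ep ≤ 1 / 100) : ∃ m0 : ℕ, ∀ m ≥ m0,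
      ∃ (K : ℕ) (mu ex' W1 W2 : List ℂ) (c0 : ℝ) (g : Bool → ℂ → ℝ),
        ObZ (n0 + 1) h0 cR m (4 / 3 * (1 - ep)) eM ((GE0 p q ex ex0).B m (4 / 3 * (1 - ep))) K mu
          ex' W1 W2 c0 g ∧ ((GE0 p q ex ex0).B m (4 / 3 * (1 - ep))).Nn :=
  ⟨1, fun m hm => ⟨_, _, _, _, _, _, _, ObZ_obE (by omega) hm ⟨h1.len.trans (by omega), h1.pt⟩
    ⟨h2.len.trans (by omega), h2.pt⟩ hp hq, obE_nn _ _ _ _ _ _⟩⟩

/-- **the one body bounds** -/
theorem oneR_GE (hp : |p| ≤ l / 2) (hq : |q| ≤ l / 2) (hh : 0 ≤ h0) (h1 : PtsZ n0 h0 ex)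
    (h2 : PtsZ n0 h0 ex0) : PBOX.OneR (GE p q EX ex ex0) :=
  (PBO.oneR_seaP (Ge := GE0 p q ex ex0) (n0 + 1) hh (by
    have := s1_pos
    unfold PBO.cR
    positivity) (GE0_ObZ hp hq h1 h2) (Kc := 0) fun m ep e1 J _ _ _ _ r O i => by
      rw [add_zero]
      exact le_rfl : PBO.OneR (GE0 p q ex ex0))

end PBE

end
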