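import Pool.Agent.GEX.EPot
import Pool.Agent.PB.NrmG

/-!
# Rows `0`, real ends: the normaliser

* **`lE_eT`**: `lE p = - log |eT p|`; `mE_eT`: `mE 0 = - 2 log |eT 0|`;
* **`norm_nE`**: the normaliser of the rows `0`, ends `p`, `q` over its bulk, times `exp (EXE p q k)`, is
  a constant.
-/

set_option autoImplicit false
set_option linter.unusedSectionVars false

noncomputable section

open Complex MeasureTheory Finset Filter
open scoped ENNReal

namespace PBE

open PBX NUP1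
open NUP1.Leg (Bp)
open PBR (rh rh_neg rh_ne_zero)

variable {p q : ℝ}

/-- **mean field of a leg** -/
theorem lE_eT (hp : |p| ≤ l / 2) : NUMFH.lE (p : ℂ) = -Real.log ‖eT (p : ℂ)‖ := by
  have hl := Bd.l_pos
  obtain ⟨p1, p2⟩ := abs_le.1 hp
  obtain ⟨i1, e1⟩ := leg_eT (w := (p : ℂ)) (x := 0) (by rw [abs_zero]; exact hl)
    (by rw [ofReal_re]; linarith) (by rw [ofReal_re]; linarith)
  have hf : ∀ s : ℝ, NUMF.Pc (s + (0 : ℝ) * I) * Pool.Agent.PB.fS ((p : ℂ) + l - s * I) =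
      (NUMF.P s : ℂ) * Pool.Agent.PB.fS ((p : ℂ) + l - s * I) := by
    intro s
    rw [ofReal_zero, zero_mul, add_zero, NUMF.Pc_ofReal]
  simp only [hf] at i1 e1
  rw [ofReal_zero, sub_zero] at e1
  have h := congrArg norm e1
  rw [Complex.norm_exp] at h
  have h2 : (∫ s : ℝ, (NUMF.P s : ℂ) * Pool.Agent.PB.fS ((p : ℂ) + l - s * I)).re =
      ∫ s : ℝ, NUMF.P s * (Pool.Agent.PB.fS ((p : ℂ) + l - s * I)).re := by
    have h3 := integral_re i1
    simp only [RCLike.re_to_complex, re_ofReal_mul] at h3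
    exact h3.symm
  have q1 : -NUMF.l < p := by
    show -l < p
    linarith
  have q2 : p < 4 * NUMF.l := by
    show p < 4 * l
    linarith
  have hlm : (0 : ℝ) < NUMF.l := hl
  have hv := (NUMFH.int_leg (b := 0) le_rfl hlm (z := (p : ℂ)) (by rw [ofReal_re]; exact q1)
    (by rw [ofReal_re]; exact q2) (by rw [ofReal_re]; linarith) (by rw [ofReal_re]; linarith)).2
  rw [ofReal_zero, sub_zero, add_zero, add_self_div_two] at hv
  have h4 : ∀ t : ℝ, NUMFH.Pb 0 t * Real.log (‖Complex.sin ((p : ℂ) - ((NUMF.l : ℂ) + t * I) - 3 * NUMF.l)‖ /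
      ‖Complex.sin ((p : ℂ) - ((NUMF.l : ℂ) + t * I) + 2 * NUMF.l)‖) =
      -(NUMF.P t * (Pool.Agent.PB.fS ((p : ℂ) + l - t * I)).re) := by
    intro t
    rw [NUMFH.Pb_zero, ← mul_neg]
    congr 1
    have hre : ((p : ℂ) + l - t * I).re = p + l := by simp
    have h5 := congrArg norm (Pool.Agent.PB.exp_fS (z := (p : ℂ) + l - t * I)
      (by rw [hre]; linarith) (by
        rw [hre]
        show p + l < 5 * l
        linarith))
    rw [Complex.norm_exp, norm_div] at h5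
    have h6 := congrArg Real.log h5
    rw [Real.log_exp] at h6
    have hlr : (NUMF.l : ℂ) = l := rfl
    rw [h6, ← Real.log_inv, inv_div, hlr]
    have e1 : ‖Complex.sin ((p : ℂ) - ((l : ℂ) + t * I) - 3 * l)‖ =
        ‖Complex.sin ((p : ℂ) + l - t * I + 3 * l)‖ := by
      have : (p : ℂ) - ((l : ℂ) + t * I) - 3 * l = (p : ℂ) + l - t * I + 3 * l - Real.pi := by
        have h8 : (Real.pi : ℂ) = 8 * l := by
          unfold NUP1.l
          push_cast
          ring
        rw [h8]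
        ring
      rw [this, Complex.sin_sub_pi, norm_neg]
    have e2 : (p : ℂ) - ((l : ℂ) + t * I) + 2 * l = (p : ℂ) + l - t * I := by ring
    rw [e1, e2]
  rw [← hv, integral_congr_ae (ae_of_all _ h4), integral_neg, ← h2, ← h, Real.log_exp]

/-- **mean field of a row** -/
theorem mE_eT : NUMFH.mE 0 = -(2 * Real.log ‖eT 0‖) := by
  have hl := Bd.l_pos
  have hlm : (0 : ℝ) < NUMF.l := hl
  have h1 := (sea_eT (x := 0) (y := 0) (by rw [abs_zero]; exact hl) (by rw [abs_zero]; exact hl)).2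
  have h2 := (NUMFH.int_row (b := 0) le_rfl hlm (x := 0) (by rw [zero_re, abs_zero]; exact hlm)
    (by rw [zero_re, abs_zero, zero_add]; exact hlm.le)).2
  rw [ofReal_zero, sub_zero, add_zero, add_self_div_two] at h2
  rw [sub_zero, add_zero, add_self_div_two] at h1
  rw [log_eT_zero, ← h1, ← h2]
  refine integral_congr_ae (ae_of_all _ fun t => ?_)
  beta_reduce
  rw [NUMFH.Pb_zero, ofReal_zero, zero_mul, add_zero, NUMF.Pc_ofReal, ofReal_re]
  congr 2
  unfold rc0
  rw [norm_div, norm_pow, norm_mul]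
  rfl

theorem EMF0_eT : PBVR.EMF0 = -(2 * Real.log ‖eT 0‖) := by
  rw [← mE_eT, ← NUMFH.int_P_v]
  rfl

/-- the constant of the normaliser -/
def cN (p q : ℝ) : ℝ := 9 / 4 * ‖sin (l : ℂ)‖ / ‖rh ((p : ℂ) - q)‖ ^ 2 * ‖eT 0‖ ^ 2 /
  (‖eT (p : ℂ)‖ * ‖eT (q : ℂ)‖) ^ 2

/-- **the normaliser over its bulk, rows `0`, ends `p`, `q`** -/
theorem norm_nE (hp : |p| ≤ l / 2) (hq : |q| ≤ l / 2) {k : ℕ} (hk : 1 ≤ k) :
    ‖nG (fun _ : Fin (k - 1) => (0 : ℂ)) p q‖ * Real.exp (EXE p q k) = cN p q := by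
  have hl := Bd.l_pos
  obtain ⟨m, rfl⟩ : ∃ m, k = m + 1 := ⟨k - 1, by omega⟩
  rw [Nat.add_sub_cancel]
  have rr : ∀ r : ℝ, |r| ≤ l / 2 → |((r : ℂ)).re| < 2 * l := fun r hr => by
    rw [ofReal_re]
    linarith
  have np := norm_pos_iff.2 (eT_ne (rr p hp))
  have nq := norm_pos_iff.2 (eT_ne (rr q hq))
  have n0 := norm_pos_iff.2 (eT_ne (d := 0) (by rw [zero_re, abs_zero]; positivity))
  have hpq : |((p : ℂ) - q).re| < 5 * l := by
    rw [sub_re, ofReal_re, ofReal_re]
    exact (abs_sub _ _).trans_lt (by linarith)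
  have nr := norm_pos_iff.2 (rh_ne_zero hpq)
  rw [nG_eq _ _ _ (fun i j => by rw [sub_zero, zero_re, abs_zero]; positivity)
    (fun i => by rw [sub_zero]; linarith [rr p hp]) (fun i => by rw [sub_zero]; linarith [rr q hq])
    hpq]
  unfold eN cN EXE LE lamE
  simp only [sub_zero, Finset.prod_const, Finset.card_univ, Fintype.card_fin]
  rw [EMF0_eT, lE_eT hp, lE_eT hq, mE_eT]
  have sp : 0 < ‖sin (l : ℂ)‖ := by
    rw [sinl_norm]
    have := norm_pos_iff.2 rh_zero_ne
    positivity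
  have hn94 : ‖(9 / 4 : ℂ)‖ = 9 / 4 := by norm_num
  simp only [norm_mul, norm_div, norm_pow, hn94]
  obtain ⟨c0, hc0⟩ : ∃ c0 : ℝ, c0 = 9 / 4 := ⟨_, rfl⟩
  rw [← hc0]
  have hc : 0 < c0 := by rw [hc0]; norm_num
  refine Real.log_injOn_pos (Set.mem_Ioi.2 (by positivity)) (Set.mem_Ioi.2 (by positivity)) ?_
  have e1 := Real.log_exp (((m + 1 : ℕ) : ℝ) ^ 2 * -(2 * Real.log ‖eT 0‖) + 2 * (((m + 1 : ℕ) : ℝ) *
    (-Real.log ‖eT (p : ℂ)‖ + -Real.log ‖eT (q : ℂ)‖ - -(2 * Real.log ‖eT 0‖))))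
  rw [Real.log_mul (by positivity) (by positivity), e1, Real.log_mul (by positivity) (by positivity),
    Real.log_div (by positivity) (by positivity), Real.log_mul (by positivity) (by positivity),
    Real.log_pow, Real.log_pow, Real.log_mul (by positivity) (by positivity), Real.log_pow,
    Real.log_pow, Real.log_pow, Real.log_mul (by positivity) (by positivity)]
  have e2 : Real.log (c0 * ‖sin (l : ℂ)‖ / ‖rh ((p : ℂ) - q)‖ ^ 2 * ‖eT 0‖ ^ 2 /
      (‖eT (p : ℂ)‖ * ‖eT (q : ℂ)‖) ^ 2) = Real.log c0 + Real.log ‖sin (l : ℂ)‖ -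
      2 * Real.log ‖rh ((p : ℂ) - q)‖ + 2 * Real.log ‖eT 0‖ -
      2 * (Real.log ‖eT (p : ℂ)‖ + Real.log ‖eT (q : ℂ)‖) := by
    rw [Real.log_div (by positivity) (by positivity), Real.log_mul (by positivity) (by positivity),
      Real.log_div (by positivity) (by positivity), Real.log_mul (by positivity) (by positivity),
      Real.log_pow, Real.log_pow, Real.log_pow, Real.log_mul (by positivity) (by positivity)]
    push_cast
    ring
  rw [e2]
  push_cast
  ring

end PBE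

end
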