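import Pool.Agent.GEX.EPot
import Pool.Agent.GEX.ENrm
import Pool.Agent.PB.Mst0

/-!
# Rows `0`, real ends: the state sum on the window, and the normaliser

* **`mst_E`**: sum over all classes = class `W W` on the window, up to `k ^ (-7/16 + ε) exp EXE`; the
  class `W W` on the window is at most `k ^ ε exp (- mT) exp EXE`;
* `lE_eT`: `lE p = - log |eT p|`; **`norm_nE`**: the normaliser of the rows `0`, ends `p`, `q` times
  `exp (EXE p q k)` is a constant;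
* **`h1_E`**, **`h2_E`**.
-/

set_option autoImplicit false
set_option linter.unusedSectionVars false

noncomputable section

open Complex MeasureTheory Finset Filter
open scoped ENNReal

namespace PBE

open PBR
open NUO NUP1 NUCR NUP1S NURow NUGC PBX
open NUP1.Leg (Dk Bp)
open PBTR (winW)
open PBO (PtZ PtsZ CutOk)

variable {p q : ℝ} {ex ex0 : List ℂ}

theorem isKD_E (p q : ℝ) (ex ex0 : List ℂ) (ep : ℝ) (k : ℕ) :
    IsKD (KE p q ex ex0 ep k) (kDE p q ex ex0 ep k) (DE p q ex ex0 ep k) :=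
  ⟨rfl, rfl, rfl, rfl, rfl, rfl, rfl, rfl⟩

theorem DE_Ok (hX : CutOk ex ex0) (hp : |p| ≤ l / 2) (hq : |q| ≤ l / 2) {ep : ℝ} (h0 : 0 < ep)
    (h1 : ep ≤ 1 / 100) (k : ℕ) : (DE p q ex ex0 ep k).Ok := by
  obtain ⟨b1, b2, b3⟩ := PBO.beC_bd h0 h1
  have hpr : |((p : ℂ)).re| ≤ l / 2 := by rwa [ofReal_re]
  have hqr : |((q : ℂ)).re| ≤ l / 2 := by rwa [ofReal_re]
  have hl := Bd.l_pos
  exact RX_Ok (m := k - 1) (β := beC ep) (x := fun _ => 0) (ex := ex) (ex0 := ex0) b3 b2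
    (fun i => by
      show |((0 : ℂ)).re| ≤ _
      rw [zero_re, abs_zero]
      positivity)
    (fun i => by
      show ((0 : ℂ)).re ≠ _
      rw [zero_re]
      exact ne_of_lt (by linarith)) hpr hqr hX.re hX.re0

attribute [local instance] NUSea.seaP

variable {n0 : ℕ} {h0 : ℝ}

/-- **the state sum on the window** -/
theorem mst_E (hX : CutOk ex ex0) (hh : 0 ≤ h0) (h1 : PtsZ n0 h0 ex) (h2 : PtsZ n0 h0 ex0)
    (hp : |p| ≤ l / 2) (hq : |q| ≤ l / 2) :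
    ∀ ε : ℝ, 0 < ε → ∃ ep0 : ℝ, 0 < ep0 ∧ ep0 ≤ 1 / 100 ∧
      ∀ ep : ℝ, 0 < ep → ep ≤ ep0 → ∃ (Cst : ℝ) (k0 : ℕ), 0 ≤ Cst ∧ 1 ≤ k0 ∧ ∀ k : ℕ, k0 ≤ k →
        ∀ η η' : ℝ × ℝ → PBF.Crs, (∀ y, ∀ r ≤ 2 * (k - 1) + 2 * (k - 1),
          ∀ᵐ O ∂(Measure.pi fun _ : Fin r => nu), CurB ep (η y r O) (η' y r O)) →
        ‖∑ n ∈ range (2 * (k - 1) + 1), EED (DE p q ex ex0 ep k) n - (2 * (Real.pi : ℂ))⁻¹ ^ 2 *
          ∫ y in winW (3 / 8) k, preWW (DE p q ex ex0 ep k) y * ∑ n ∈ range (2 * (k - 1) + 1),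
            PBF.FF (ZWW (DE p q ex ex0 ep k) y) (NUSea.O.par0 k) n n (η y) (η' y)
              (fun _ _ _ _ _ => 1)‖ ≤
          Cst * (k : ℝ) ^ (-(7 / 16) + ε) * Real.exp (EXE p q k) ∧
        ∀ y ∈ winW (3 / 8) k, ‖preWW (DE p q ex ex0 ep k) y * ∑ n ∈ range (2 * (k - 1) + 1),
            PBF.FF (ZWW (DE p q ex ex0 ep k) y) (NUSea.O.par0 k) n n (η y) (η' y)
              (fun _ _ _ _ _ => 1)‖ ≤
          Cst * ((k : ℝ) ^ ε * Real.exp (-(PBTR.mT y))) * Real.exp (EXE p q k) := by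
  intro ε hε
  obtain ⟨ep0, a0, a1, H⟩ := PBOX.mst_fam (perBd_GE (p := p) (q := q) hh h1 h2 hp hq)
    (clOk_GE hX hp hq) (D := DE p q ex ex0) (ex := ex) (ex0 := ex0) (c0 := 2 * Real.cos l)
    (Pk := fun _ => True) (fun ep b0 b1 k _ => ⟨DE_Ok hX hp hq b0 b1 k, (PBO.beC_bd b0 b1).1,
      REq_RX hX.re, isKD_E p q ex ex0 ep k⟩) ε hε
  refine ⟨ep0, a0, a1, fun ep b0 b1 => ?_⟩
  obtain ⟨Cst, k0, c0, c1, H⟩ := H ep b0 b1
  exact ⟨Cst, k0, c0, c1, fun k hk => H k hk trivial⟩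

/-- the normaliser of the rows `0`, ends `p`, `q`, over its bulk -/
def nE (p q : ℝ) (k : ℕ) : ℂ := nG (fun _ : Fin (k - 1) => (0 : ℂ)) p q

/-- the normalised class `W W`, `S` = sum over the numbers of quanta -/
def KKE (p q : ℝ) (ex ex0 : List ℂ) (ep : ℝ) (S : ℝ × ℝ → ℂ) (k : ℕ) (y : ℝ × ℝ) : ℂ :=
  nE p q k * (2 * (Real.pi : ℂ))⁻¹ ^ 2 * (preWW (DE p q ex ex0 ep k) y * S y)

/-- **the normalised state sum is the class `W W` on the window**; the class `W W` is at most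
`C k ^ ε exp (- mT)` there -/
theorem h12_E (hX : CutOk ex ex0) (hh : 0 ≤ h0) (h1 : PtsZ n0 h0 ex) (h2 : PtsZ n0 h0 ex0)
    (hp : |p| ≤ l / 2) (hq : |q| ≤ l / 2) :
    ∀ ε : ℝ, 0 < ε → ∃ ep0 : ℝ, 0 < ep0 ∧ ep0 ≤ 1 / 100 ∧
      ∀ ep : ℝ, 0 < ep → ep ≤ ep0 → ∃ (Cst : ℝ) (k0 : ℕ), 0 ≤ Cst ∧ 1 ≤ k0 ∧ ∀ k : ℕ, k0 ≤ k →
        ∀ η η' : ℝ × ℝ → PBF.Crs, (∀ y, ∀ r ≤ 2 * (k - 1) + 2 * (k - 1),
          ∀ᵐ O ∂(Measure.pi fun _ : Fin r => nu), CurB ep (η y r O) (η' y r O)) →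
        ‖nE p q k * ∑ n ∈ range (2 * (k - 1) + 1), EED (DE p q ex ex0 ep k) n -
          ∫ y in winW (3 / 8) k, KKE p q ex ex0 ep (fun y => ∑ n ∈ range (2 * (k - 1) + 1),
            PBF.FF (ZWW (DE p q ex ex0 ep k) y) (NUSea.O.par0 k) n n (η y) (η' y)
              (fun _ _ _ _ _ => 1)) k y‖ ≤ Cst * (k : ℝ) ^ (-(7 / 16) + ε) ∧
        ∀ y ∈ winW (3 / 8) k, ‖KKE p q ex ex0 ep (fun y => ∑ n ∈ range (2 * (k - 1) + 1),
            PBF.FF (ZWW (DE p q ex ex0 ep k) y) (NUSea.O.par0 k) n n (η y) (η' y)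
              (fun _ _ _ _ _ => 1)) k y‖ ≤ Cst * ((k : ℝ) ^ ε * Real.exp (-(PBTR.mT y))) := by
  intro ε hε
  obtain ⟨ep0, a0, a1, H⟩ := mst_E (ex := ex) (ex0 := ex0) hX hh h1 h2 hp hq ε hε
  refine ⟨ep0, a0, a1, fun ep b0 b1 => ?_⟩
  obtain ⟨Cst, k0, hC, hk0, H⟩ := H ep b0 b1
  have hcN : 0 ≤ cN p q := by unfold cN; positivity
  have hpi : ‖((2 * (Real.pi : ℂ))⁻¹ ^ 2)‖ ≤ 1 := by
    have h3 := Real.pi_gt_three
    rw [norm_pow, norm_inv, norm_mul, Complex.norm_real, Real.norm_eq_abs,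
      abs_of_pos Real.pi_pos, Complex.norm_ofNat]
    refine pow_le_one₀ (by positivity) (inv_le_one_of_one_le₀ (by linarith))
  refine ⟨cN p q * Cst, k0, by positivity, hk0, fun k hk η η' hη => ?_⟩
  obtain ⟨e1, e2⟩ := H k hk η η' hη
  have hk1 : 1 ≤ k := hk0.trans hk
  have hn := norm_nE hp hq hk1
  refine ⟨?_, fun y hy => ?_⟩
  · unfold KKE
    rw [integral_const_mul, mul_assoc, ← mul_sub, norm_mul]
    refine (mul_le_mul_of_nonneg_left e1 (norm_nonneg _)).trans (le_of_eq ?_)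
    rw [← hn]
    unfold nE
    ring
  · unfold KKE
    rw [norm_mul, norm_mul]
    have h3 := e2 y hy
    refine (mul_le_mul (mul_le_of_le_one_right (norm_nonneg _) hpi) h3 (norm_nonneg _)
      (norm_nonneg _)).trans (le_of_eq ?_)
    rw [← hn]
    unfold nE
    ring

/-- the points `± i` -/
theorem mst_EI (hp : |p| ≤ l / 2) (hq : |q| ≤ l / 2) :
    ∀ ε : ℝ, 0 < ε → ∃ ep0 : ℝ, 0 < ep0 ∧ ep0 ≤ 1 / 100 ∧
      ∀ ep : ℝ, 0 < ep → ep ≤ ep0 → ∃ (Cst : ℝ) (k0 : ℕ), 0 ≤ Cst ∧ 1 ≤ k0 ∧ ∀ k : ℕ, k0 ≤ k →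
        ∀ η η' : ℝ × ℝ → PBF.Crs, (∀ y, ∀ r ≤ 2 * (k - 1) + 2 * (k - 1),
          ∀ᵐ O ∂(Measure.pi fun _ : Fin r => nu), CurB ep (η y r O) (η' y r O)) →
        ‖nE p q k * ∑ n ∈ range (2 * (k - 1) + 1), EED (DE p q [I, -I] [] ep k) n -
          ∫ y in winW (3 / 8) k, KKE p q [I, -I] [] ep (fun y => ∑ n ∈ range (2 * (k - 1) + 1),
            PBF.FF (ZWW (DE p q [I, -I] [] ep k) y) (NUSea.O.par0 k) n n (η y) (η' y)
              (fun _ _ _ _ _ => 1)) k y‖ ≤ Cst * (k : ℝ) ^ (-(7 / 16) + ε) ∧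
        ∀ y ∈ winW (3 / 8) k, ‖KKE p q [I, -I] [] ep (fun y => ∑ n ∈ range (2 * (k - 1) + 1),
            PBF.FF (ZWW (DE p q [I, -I] [] ep k) y) (NUSea.O.par0 k) n n (η y) (η' y)
              (fun _ _ _ _ _ => 1)) k y‖ ≤ Cst * ((k : ℝ) ^ ε * Real.exp (-(PBTR.mT y))) :=
  h12_E (n0 := 2) (h0 := 1) PBO.cutOk_I zero_le_one (PtsZ.II le_rfl le_rfl) (PtsZ.nil 2 1) hp hq

end PBE

end
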