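import Pool.Agent.GEX.EDef

/-!
# Rows `0`, real ends: the own bounds

* `thE_le`, `thS_le`, `KF_le`, `KP_le`, `XD_le`: every factor with the ends `p`, `q` is at most a constant times the
  factor with the ends `0` on the lines of the half quanta;
* `own_le`: the same for `PBQ.KD.own`; **`clOk_GE`**.
-/

set_option autoImplicit false
set_option linter.unusedVariables false

noncomputable section

open Complex MeasureTheory Set

namespace PBE

open NUO NUP1 NUP1S.AbG NUGC PBX PBR NUCR NUP1S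
open NURow (XB HT rD RR)
open NUP1.Leg (thE cc kap)
open PBO (s1 s1_pos s1_le_one sin_up sin_dn cR beC_bd CutOk)
open NUP1.Bd (wt)

variable {p q : ℝ}

/-- the constant -/
def iS : ℝ := s1⁻¹

theorem iS_pos : 0 < iS := is_pos
theorem one_le_iS : 1 ≤ iS := one_le_is

/-- admissible real parts -/
def Rg (x : ℝ) : Prop := l / 1000 ≤ |x| ∧ |x| ≤ 8 * l - l / 1000

theorem Rg.pos {z : ℂ} (h : Rg z.re) : 0 < ‖sin z‖ :=
  lt_of_lt_of_le (mul_pos s1_pos (Real.cosh_pos _)) (sin_dn h.1 h.2)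

theorem Rg.sr {z z' : ℂ} (h : Rg z'.re) (hi : z.im = z'.im) : ‖sin z‖ ≤ iS * ‖sin z'‖ :=
  PBE.sr hi h.1 h.2

theorem rg_neg {x : ℝ} (h1 : -(79 / 10 * l) ≤ x) (h2 : x ≤ -(l / 100)) : Rg x := by
  have hl := Bd.l_pos
  have : x < 0 := by linarith
  unfold Rg
  rw [abs_of_neg this]
  constructor <;> linarith

theorem rg_pos {x : ℝ} (h1 : l / 100 ≤ x) (h2 : x ≤ 79 / 10 * l) : Rg x := by
  have hl := Bd.l_pos
  have : 0 < x := by linarith
  unfold Rg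
  rw [abs_of_pos this]
  constructor <;> linarith

/-- one end -/
theorem end1_le {r : ℝ} {u : ℂ} (h1 : Rg (u.re - r - 2 * l)) (h2 : Rg (u.re + 3 * l))
    (h3 : Rg (u.re - 2 * l)) : ‖sin (u - r + 3 * l)‖ / ‖sin (u - r - 2 * l)‖ ≤
      iS * iS * (‖sin (u + 3 * l)‖ / ‖sin (u - 2 * l)‖) := by
  have a1 : Rg (u - r - 2 * l).re := by simpa using h1
  have a2 : Rg (u + 3 * l).re := by simpa using h2
  have a3 : Rg (u - 2 * l).re := by simpa using h3
  exact quo_le a1.pos a3.pos iS_pos.le (norm_nonneg _) (a2.sr (by simp)) (a1.sr (by simp))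

theorem thE0_eq (u : ℂ) : ‖thE (0 : ℂ) 0 0 0 u‖ =
    (‖sin (u + 3 * l)‖ / ‖sin (u - 2 * l)‖) * (‖sin (u + 3 * l)‖ / ‖sin (u - 2 * l)‖) := by
  rw [thE_ends, norm_mul, norm_div, sub_zero]

/-- **the ends** -/
theorem thE_le (hp : |p| ≤ l / 2) (hq : |q| ≤ l / 2) {u : ℂ} (h1 : -(5 * l / 2) ≤ u.re)
    (h2 : u.re ≤ l) : ‖thE (p : ℂ) p q q u‖ ≤ iS ^ 4 * ‖thE (0 : ℂ) 0 0 0 u‖ := by
  have hl := Bd.l_pos
  obtain ⟨p1, p2⟩ := abs_le.1 hp
  obtain ⟨q1, q2⟩ := abs_le.1 hq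
  have b2 : Rg (u.re + 3 * l) := rg_pos (by linarith) (by linarith)
  have b3 : Rg (u.re - 2 * l) := rg_neg (by linarith) (by linarith)
  have e1 := end1_le (r := p) (u := u) (rg_neg (by linarith) (by linarith)) b2 b3
  have e2 := end1_le (r := q) (u := u) (rg_neg (by linarith) (by linarith)) b2 b3
  rw [thE0_eq, thE_ends, norm_mul, norm_div, norm_div]
  have hi := iS_pos
  refine (mul_le_mul e1 e2 (by positivity) (by positivity)).trans (le_of_eq ?_)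
  ring

theorem thE_le' (hp : |p| ≤ l / 2) (hq : |q| ≤ l / 2) {u : ℂ} (h1 : -(5 * l / 2) ≤ u.re)
    (h2 : u.re ≤ l) : ‖thE (q : ℂ) q p p u‖ ≤ iS ^ 4 * ‖thE (0 : ℂ) 0 0 0 u‖ := thE_le hq hp h1 h2

/-- **the ends for a string** -/
theorem thS_le (hp : |p| ≤ l / 2) (hq : |q| ≤ l / 2) {u : ℂ} (h1 : -(3 * l / 2) ≤ u.re)
    (h2 : u.re ≤ l) : ‖thS (p : ℂ) p q q u‖ ≤ iS ^ 8 * ‖thS (0 : ℂ) 0 0 0 u‖ := by
  have hl := Bd.l_pos
  have e : (u - (l : ℂ)).re = u.re - l := by simp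
  have e1 := thE_le hp hq (u := u) (by linarith) h2
  have e2 := thE_le hp hq (u := u - l) (by rw [e]; linarith) (by rw [e]; linarith)
  unfold thS
  rw [norm_mul, norm_mul]
  have hi := iS_pos
  refine (mul_le_mul e1 e2 (norm_nonneg _) (by positivity)).trans (le_of_eq ?_)
  ring

/-- the places of the half quanta -/
def HLn (x : ℝ) : Prop := x = 5 / 4 * l ∨ x = -(11 / 4) * l ∨ x = 5 / 8 * l

theorem kap_le (hp : |p| ≤ l / 2) {w : ℂ} (hw : HLn w.re) : ‖kap (w - p)‖ ≤ iS ^ 2 * ‖kap w‖ := by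
  have hl := Bd.l_pos
  obtain ⟨p1, p2⟩ := abs_le.1 hp
  have c1 : Rg (w.re - p) ∧ Rg (w.re - p - 2 * l) ∧ Rg w.re ∧ Rg (w.re - 2 * l) := by
    rcases hw with h | h | h <;> rw [h]
    · exact ⟨rg_pos (by linarith) (by linarith), rg_neg (by linarith) (by linarith),
        rg_pos (by linarith) (by linarith), rg_neg (by linarith) (by linarith)⟩
    · exact ⟨rg_neg (by linarith) (by linarith), rg_neg (by linarith) (by linarith),
        rg_neg (by linarith) (by linarith), rg_neg (by linarith) (by linarith)⟩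
    · exact ⟨rg_pos (by linarith) (by linarith), rg_neg (by linarith) (by linarith),
        rg_pos (by linarith) (by linarith), rg_neg (by linarith) (by linarith)⟩
  obtain ⟨d1, d2, d3, d4⟩ := c1
  have a1 : Rg (w - p).re := by simpa using d1
  have a2 : Rg (w - p - 2 * l).re := by simpa using d2
  have a4 : Rg (w - 2 * l).re := by simpa using d4
  have i1 := a1.sr (z := w) (by simp)
  have i2 := a2.sr (z := w - 2 * l) (by simp)
  have n1 := a1.pos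
  have n2 := a2.pos
  have n3 := d3.pos
  have n4 := a4.pos
  have hi := iS_pos
  unfold NUP1.Leg.kap
  rw [norm_div, norm_div, norm_mul, norm_mul]
  have h := quo_le (a := ‖sin (2 * (l : ℂ))‖) (a' := ‖sin (2 * (l : ℂ))‖) (A := 1) (B := iS ^ 2)
    (mul_pos n1 n2) (mul_pos n3 n4) zero_le_one (norm_nonneg _) (le_of_eq (one_mul _).symm)
    ((mul_le_mul i1 i2 n4.le (by positivity)).trans (le_of_eq (by ring)))
  rwa [one_mul] at h

theorem sin3_le {w : ℂ} (hw : HLn w.re) : ‖sin (w - q + 3 * l)‖ ≤ iS * ‖sin (w + 3 * l)‖ := by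
  have hl := Bd.l_pos
  have c1 : Rg (w.re + 3 * l) := by
    rcases hw with h | h | h <;> rw [h] <;> exact rg_pos (by linarith) (by linarith)
  have a1 : Rg (w + 3 * l).re := by simpa using c1
  exact a1.sr (by simp)

section D

variable {m : ℕ} {β : ℝ} {x : Fin m → ℂ} {ex ex0 : List ℂ}

/-- **half quanta** -/
theorem KF_le (hp : |p| ≤ l / 2) {w : ℂ} (hw : HLn w.re) :
    ‖(RX β x p q ex ex0).KF w‖ ≤ iS ^ 3 * ‖(RX β x 0 0 ex ex0).KF w‖ := by
  rw [RX_KF, RX_KF, sub_zero, norm_mul, norm_mul, norm_mul, norm_mul, ← mul_assoc]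
  refine mul_le_mul_of_nonneg_right ?_ (norm_nonneg _)
  have hi := iS_pos
  refine (mul_le_mul (kap_le hp hw) (sin3_le hw) (norm_nonneg _) (by positivity)).trans
    (le_of_eq ?_)
  ring

theorem KF'_le (hq : |q| ≤ l / 2) {w : ℂ} (hw : HLn w.re) :
    ‖(RX β x p q ex ex0).KF' w‖ ≤ iS ^ 3 * ‖(RX β x 0 0 ex ex0).KF' w‖ :=
  KF_le (p := q) (q := p) (β := β) (x := x) (ex := ex) (ex0 := ex0) hq hw

/-- **quanta** -/
theorem X_le (hp : |p| ≤ l / 2) (hq : |q| ≤ l / 2) {u : ℂ} (h1 : -(5 * l / 2) ≤ u.re)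
    (h2 : u.re ≤ l) :
    ‖(RX β x p q ex ex0).X none u‖ ≤ iS ^ 4 * ‖(RX β x 0 0 ex ex0).X none u‖ := by
  rw [RX_X, RX_X, norm_mul, norm_mul (cc m * (∏ i, rc0 (u - x i)) * ph β x (gP β ex) u) _,
    mul_left_comm]
  exact mul_le_mul_of_nonneg_left (thE_le hp hq h1 h2) (norm_nonneg _)

theorem Y_le (hp : |p| ≤ l / 2) (hq : |q| ≤ l / 2) {u : ℂ} (h1 : -(5 * l / 2) ≤ u.re)
    (h2 : u.re ≤ l) :
    ‖(RX β x p q ex ex0).Y none u‖ ≤ iS ^ 4 * ‖(RX β x 0 0 ex ex0).Y none u‖ :=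
  X_le (p := q) (q := p) (β := β) (x := x) (ex := ex) (ex0 := ex0) hq hp h1 h2

/-- **strings** -/
theorem XS_le (hp : |p| ≤ l / 2) (hq : |q| ≤ l / 2) {u : ℂ} (h1 : -(3 * l / 2) ≤ u.re)
    (h2 : u.re ≤ l) :
    ‖(RX β x p q ex ex0).X (some .S) u‖ ≤ iS ^ 8 * ‖(RX β x 0 0 ex ex0).X (some .S) u‖ := by
  show ‖RR (cc m) x x u * RR (cc m) x x (u - l) * ph (4 / 3) x (gP (4 / 3) ex0) u *
      thS (p : ℂ) p q q u‖ ≤ iS ^ 8 *
    ‖RR (cc m) x x u * RR (cc m) x x (u - l) * ph (4 / 3) x (gP (4 / 3) ex0) u *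
      thS (0 : ℂ) 0 0 0 u‖
  rw [norm_mul, norm_mul (RR (cc m) x x u * RR (cc m) x x (u - l) *
    ph (4 / 3) x (gP (4 / 3) ex0) u) _, mul_left_comm]
  exact mul_le_mul_of_nonneg_left (thS_le hp hq h1 h2) (norm_nonneg _)

theorem YS_le (hp : |p| ≤ l / 2) (hq : |q| ≤ l / 2) {u : ℂ} (h1 : -(3 * l / 2) ≤ u.re)
    (h2 : u.re ≤ l) :
    ‖(RX β x p q ex ex0).Y (some .S) u‖ ≤ iS ^ 8 * ‖(RX β x 0 0 ex ex0).Y (some .S) u‖ :=
  XS_le (p := q) (q := p) (β := β) (x := x) (ex := ex) (ex0 := ex0) hq hp h1 h2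

/-- **half quanta with a captured quantum** -/
theorem KP_le (hp : |p| ≤ l / 2) (hq : |q| ≤ l / 2) {w : ℂ} (hw : w.re = -(11 / 4) * l) :
    ‖(RX β x p q ex ex0).KP w‖ ≤ iS ^ 7 * ‖(RX β x 0 0 ex ex0).KP w‖ := by
  have hl := Bd.l_pos
  have hi := iS_pos
  have e : (w + 3 * (l : ℂ)).re = w.re + 3 * l := by simp
  have a1 := KF_le (q := q) (β := β) (x := x) (ex := ex) (ex0 := ex0) hp (w := w) (Or.inr (Or.inl hw))
  have a2 := Y_le (β := β) (x := x) (ex := ex) (ex0 := ex0) hp hq (u := w + 3 * l)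
    (by rw [e, hw]; linarith) (by rw [e, hw]; linarith)
  have key : ∀ a b c : ℂ, ‖a * (b * c)‖ = ‖a‖ * (‖b‖ * ‖c‖) := fun a b c => by
    rw [norm_mul, norm_mul]
  unfold RD.KP
  rw [key, key, mul_left_comm (iS ^ 7)]
  refine mul_le_mul_of_nonneg_left ?_ (norm_nonneg _)
  refine (mul_le_mul a1 a2 (norm_nonneg _) (by positivity)).trans (le_of_eq ?_)
  ring

theorem KP'_le (hp : |p| ≤ l / 2) (hq : |q| ≤ l / 2) {w : ℂ} (hw : w.re = -(11 / 4) * l) :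
    ‖(RX β x p q ex ex0).KP' w‖ ≤ iS ^ 7 * ‖(RX β x 0 0 ex ex0).KP' w‖ :=
  KP_le (p := q) (q := p) (β := β) (x := x) (ex := ex) (ex0 := ex0) hq hp hw

/-- **captured pairs** -/
theorem XD_le (hp : |p| ≤ l / 2) (hq : |q| ≤ l / 2) {w : ℂ} (hw : w.re = -(11 / 4) * l) :
    ‖(RX β x p q ex ex0).XD w‖ ≤ iS ^ 2 * ‖(RX β x 0 0 ex ex0).XD w‖ := by
  have hl := Bd.l_pos
  have hi := iS_pos
  obtain ⟨p1, p2⟩ := abs_le.1 hp
  obtain ⟨q1, q2⟩ := abs_le.1 hq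
  have a1 : Rg (w - p + l).re := by
    have : (w - p + l).re = w.re - p + l := by simp
    rw [this, hw]
    exact rg_neg (by linarith) (by linarith)
  have a2 : Rg (w - q).re := by
    have : (w - q).re = w.re - q := by simp
    rw [this, hw]
    exact rg_neg (by linarith) (by linarith)
  have a3 : Rg (w - (0 : ℂ) + l).re := by
    have : (w - (0 : ℂ) + l).re = w.re + l := by simp
    rw [this, hw]
    exact rg_neg (by linarith) (by linarith)
  have a4 : Rg (w - (0 : ℂ)).re := by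
    have : (w - (0 : ℂ)).re = w.re := by simp
    rw [this, hw]
    exact rg_neg (by linarith) (by linarith)
  have i1 := a1.sr (z := w - (0 : ℂ) + l) (by simp)
  have i2 := a2.sr (z := w - (0 : ℂ)) (by simp)
  have n1 := a1.pos
  have n2 := a2.pos
  have n3 := a3.pos
  have n4 := a4.pos
  show ‖-sin (2 * l) ^ 2 / (sin (w - p + l) * sin (w - q)) *
      ∏ j, (-sin (w - x j - 2 * l) / sin (w - x j))‖ ≤ iS ^ 2 *
    ‖-sin (2 * l) ^ 2 / (sin (w - (0 : ℂ) + l) * sin (w - (0 : ℂ))) *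
      ∏ j, (-sin (w - x j - 2 * l) / sin (w - x j))‖
  rw [norm_mul, norm_mul, norm_div, norm_div, norm_mul, norm_mul (sin (w - (0 : ℂ) + l)),
    ← mul_assoc]
  refine mul_le_mul_of_nonneg_right ?_ (norm_nonneg _)
  have h := quo_le (a := ‖-sin (2 * (l : ℂ)) ^ 2‖) (a' := ‖-sin (2 * (l : ℂ)) ^ 2‖) (A := 1)
    (B := iS ^ 2) (mul_pos n1 n2) (mul_pos n3 n4) zero_le_one (norm_nonneg _)
    (le_of_eq (one_mul _).symm)
    ((mul_le_mul i1 i2 n4.le (by positivity)).trans (le_of_eq (by ring)))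
  rwa [one_mul] at h

theorem XD'_le (hp : |p| ≤ l / 2) (hq : |q| ≤ l / 2) {w : ℂ} (hw : w.re = -(11 / 4) * l) :
    ‖(RX β x p q ex ex0).XD' w‖ ≤ iS ^ 2 * ‖(RX β x 0 0 ex ex0).XD' w‖ :=
  XD_le (p := q) (q := p) (β := β) (x := x) (ex := ex) (ex0 := ex0) hq hp hw

end D

end PBE

end
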