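import Pool.Agent.GEX.EClO
import Pool.Agent.PotH.DomR
import Pool.Agent.PotH.CutI
import Pool.Agent.PB.ValR
import Pool.Agent.PB.S4G0
import Pool.Agent.NUM3.Certs4

/-!
# Rows `0`, real ends: the potential and `GOk`

* `HE p q`: potential of the ends `p`, `q` (a row at `0` taken out) against `ThN`; `aE`: its atoms; `hok_E`;
* `lamE p q = lE p + lE q - 2 lE 0`; **`int_E`**: `∫ m P HE ≤ m lamE + C` on every admissible curve;
* `LE p q m = 2 m lamE p q`; `EXE p q m = m² EMF0 + LE`; **`gOk_GE`**, **`s4R_GE`**, **`perBd_GE`**.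
-/

set_option autoImplicit false
set_option linter.unusedSectionVars false

noncomputable section

open MeasureTheory Filter Topology Set Complex

namespace PBE

open NUMF (l l_pos)
open NUO (pA Tb yw)
open NUGC (OB ThN)
open PotH
open NUAct (zt)
open NUKer (iD)
open PBH (AT HS HS' Atm AtOk)
open PBO (PtZ PtsZ)

variable {p q : ℝ}

/-- **the potential** of the ends `p`, `q` -/
def HE (p q : ℝ) (η : ℝ → ℝ) (_a : Bool) (t : ℝ) : ℝ :=
  Real.log (PBO.thZ p (pA η t)) + Real.log (PBO.thZ q (pA η t)) - Real.log (PBO.rwC 0 (pA η t)) -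
    Real.log (ThN (pA η t))

/-- its atoms -/
def aE (p q : ℝ) (_a : Bool) : Fin 6 → Atm := ![⟨1, p, p - 3 * l, 0⟩, ⟨1, q, q - 3 * l, 0⟩,
  ⟨-1, 0, 3 * l, 0⟩, ⟨-1, 0, -(3 * l), 0⟩,
  ⟨-(1 / 2), 7 / 2 * l, -(7 / 2 * l), 0⟩, ⟨-(1 / 2), 5 / 2 * l, -(5 / 2 * l), 0⟩]

theorem thZr_pA {δ : ℝ} {η : ℝ → ℝ} (hδ : 0 < δ) (hδ1 : δ ≤ l / 2) (hη : ∀ t, |η t| ≤ δ / 2)
    (hp : |p| ≤ l / 2) (t : ℝ) :
    0 < PBO.thZ p (pA η t) ∧ Real.log (PBO.thZ p (pA η t)) = AT p (p - 3 * l) 0 η t := by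
  have hl := l_pos
  obtain ⟨p1, p2⟩ := abs_le.1 hp
  have h := PBH.thZ_pA hδ (by linarith) hη (z := (p : ℂ)) (by rw [ofReal_re]; linarith)
    (by rw [ofReal_re]; linarith) t
  rw [ofReal_re, ofReal_im] at h
  exact h

theorem rw0_pA {δ : ℝ} {η : ℝ → ℝ} (hδ : 0 < δ) (hδ1 : δ ≤ l / 2) (hη : ∀ t, |η t| ≤ δ / 2)
    (t : ℝ) : 0 < PBO.rwC 0 (pA η t) ∧ Real.log (PBO.rwC 0 (pA η t)) =
      AT 0 (3 * l) 0 η t + AT 0 (-(3 * l)) 0 η t := by
  have hl := l_pos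
  have h := PBH.rwC_pA hδ (by linarith) hη (x := 0) (by rw [zero_re, abs_zero]; linarith) t
  rwa [zero_re, zero_im, zero_add, zero_sub] at h

theorem HE_eq {δ : ℝ} {η : ℝ → ℝ} (hδ : 0 < δ) (hδ1 : δ ≤ l / 2) (hη : ∀ t, |η t| ≤ δ / 2)
    (hp : |p| ≤ l / 2) (hq : |q| ≤ l / 2) : HE p q η = HS (aE p q) η := by
  funext a t
  have e1 := (thZr_pA hδ hδ1 hη hp t).2
  have e2 := (thZr_pA hδ hδ1 hη hq t).2
  have e3 := (rw0_pA hδ hδ1 hη t).2
  have e4 := (PBH.ThN_pA hδ hδ1 hη t).2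
  unfold HE HS aE
  rw [e1, e2, e3, e4]
  simp only [Fin.sum_univ_succ, Matrix.cons_val_zero, Matrix.cons_val_succ, Fin.sum_univ_zero,
    Matrix.cons_val_fin_one]
  ring

lemma aE_ok {δ : ℝ} (hδ1 : δ ≤ l / 2) (hp : |p| ≤ l / 2) (hq : |q| ≤ l / 2) :
    AtOk 1 δ (aE p q) := by
  have hl := l_pos
  obtain ⟨p1, p2⟩ := abs_le.1 hp
  obtain ⟨q1, q2⟩ := abs_le.1 hq
  intro a i
  fin_cases i
  all_goals refine ⟨abs_le.2 ⟨?_, ?_⟩, abs_le.2 ⟨?_, ?_⟩, abs_le.2 ⟨?_, ?_⟩⟩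
  all_goals simp [aE]
  all_goals linarith

section
variable [NUSea.Sea]

/-- **the ends are an admissible potential**, `B0`, `N0` absolute -/
theorem hok_E (hp : |p| ≤ l / 2) (hq : |q| ≤ l / 2) : ∃ B0 N0 : ℝ, 0 ≤ B0 ∧ 0 ≤ N0 ∧
    ∀ e1 : ℝ, 0 < e1 → ∃ m0 : ℕ, ∀ m : ℕ,
    m0 ≤ m → ∀ (Cc : ℝ) (η η1 : ℝ → ℝ), CrvP e1 Cc m η η1 →
      (∀ t, |η t| ≤ l / 8 ∧ 0 < PBO.thZ p (pA η t) ∧ 0 < PBO.thZ q (pA η t) ∧
        0 < PBO.rwC 0 (pA η t) ∧ 0 < ThN (pA η t) ∧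
        ∀ a, PBO.thZ p (pA η t) * PBO.thZ q (pA η t) =
          PBO.rwC 0 (pA η t) * (ThN (pA η t) * Real.exp (HE p q η a t))) ∧
      ∃ H' : Bool → ℝ → ℝ, ∀ th b : ℝ, 0 ≤ th →
        HOk B0 N0 th b (Real.log m ^ 3) (HE p q η) H' := by
  have hl := l_pos
  have h8 := PBH.l8
  have hpi := Real.pi_lt_four
  obtain ⟨B0, N0, hB0, hN0, A0, hA0, H⟩ := PBH.hok_sm 6 (K := 1) (δ := l / 2) zero_le_one
    (by linarith) (by linarith)
  refine ⟨B0, N0, hB0, hN0, fun e1 he1 => ?_⟩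
  have t1 : Tendsto (fun m : ℕ => (m : ℝ) ^ (-(e1 / 2))) atTop (𝓝 0) :=
    (tendsto_rpow_neg_atTop (by linarith : 0 < e1 / 2)).comp tendsto_natCast_atTop_atTop
  have t2 : Tendsto (fun m : ℕ => Real.log m ^ 3) atTop atTop :=
    (tendsto_pow_atTop (by norm_num)).comp (Real.tendsto_log_atTop.comp tendsto_natCast_atTop_atTop)
  obtain ⟨m1, hm1⟩ := eventually_atTop.1 ((t1.eventually (ge_mem_nhds (by linarith :
    (0 : ℝ) < l / 2 / 4))).and (t2.eventually_ge_atTop A0))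
  refine ⟨m1, fun m hm Cc η η1 hη => ?_⟩
  obtain ⟨a1, a2⟩ := hm1 m hm
  have hS := PBH.sm_of hη a1
  have hη2 : ∀ t, |η t| ≤ l / 2 / 2 := fun t => (hS.le t).trans (by linarith)
  have hd : (0 : ℝ) < l / 2 := by linarith
  refine ⟨fun t => ⟨(hS.le t).trans (by linarith), ?_⟩, HS' (aE p q) η η1, fun th b hth => ?_⟩
  · have p1 := (thZr_pA hd le_rfl hη2 hp t).1
    have p2 := (thZr_pA hd le_rfl hη2 hq t).1
    have p3 := (rw0_pA hd le_rfl hη2 t).1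
    have p4 := (PBH.ThN_pA hd le_rfl hη2 t).1
    refine ⟨p1, p2, p3, p4, fun a => ?_⟩
    unfold HE
    rw [Real.exp_sub, Real.exp_sub, Real.exp_add, Real.exp_log p1, Real.exp_log p2,
      Real.exp_log p3, Real.exp_log p4]
    field_simp
  · rw [HE_eq hd le_rfl hη2 hp hq]
    exact H η η1 hS _ (aE_ok le_rfl hp hq) th b _ hth a2

end

lemma int4 {f g h k : ℝ → ℝ} (hf : Integrable f) (hg : Integrable g) (hh : Integrable h)
    (hk : Integrable k) : ∫ t, (f t + g t - h t - k t) =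
      (∫ t, f t) + (∫ t, g t) - (∫ t, h t) - ∫ t, k t := by
  have e1 : ∫ t, (f t + g t) = (∫ t, f t) + ∫ t, g t := integral_add hf hg
  have e2 : ∫ t, (f t + g t - h t) = (∫ t, (f t + g t)) - ∫ t, h t := integral_sub (hf.add hg) hh
  have e3 : ∫ t, (f t + g t - h t - k t) = (∫ t, (f t + g t - h t)) - ∫ t, k t :=
    integral_sub ((hf.add hg).sub hh) hk
  rw [e3, e2, e1]

section P0

attribute [local instance] NUSea.seaP

/-- the linear term of one species -/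
def lamE (p q : ℝ) : ℝ := NUMFH.lE (p : ℂ) + NUMFH.lE (q : ℂ) - NUMFH.mE 0

/-- **the ends against the sea on every admissible curve** -/
theorem int_E {e1 Cc : ℝ} (he : 0 < e1) (he1 : e1 ≤ 1) (hCc : 0 ≤ Cc) (hp : |p| ≤ l / 2)
    (hq : |q| ≤ l / 2) : ∃ C : ℝ, 0 ≤ C ∧
    ∀ (m : ℕ) (η η1 : ℝ → ℝ), 1 ≤ m → CrvP e1 Cc m η η1 → ∀ a : Bool,
      |(∫ t, (m : ℝ) * NUSea.P t * HE p q η a t) - m * lamE p q| ≤ C := by
  obtain ⟨C1, hC1, H1⟩ := PBV.exists_leg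
  obtain ⟨C2, hC2, H2⟩ := PBV.exists_th
  obtain ⟨C3, hC3, H3⟩ := PBV.exists_row
  refine ⟨(2 * C1 + C2 + C3) * (1 + Cc * (16 / e1 ^ 2)), by positivity, ?_⟩
  intro m η η1 hm hcv a
  have hl := l_pos
  obtain ⟨p1, p2⟩ := abs_le.1 hp
  obtain ⟨q1, q2⟩ := abs_le.1 hq
  obtain ⟨ε, e, hcur, hε0, hε1, hε⟩ := hcv.cur
  have hm1 : (1 : ℝ) ≤ m := by exact_mod_cast hm
  have hL0 := Real.log_nonneg hm1
  have hTb : NUO.Tb (Real.log m) = 3 / 8 * Real.log m := rfl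
  have hb : 0 ≤ (1 - e1) * NUO.Tb (Real.log m) := by
    rw [hTb]
    have : 0 ≤ 1 - e1 := by linarith
    positivity
  have hA := hcv.hd_le
  obtain ⟨i1, a1⟩ := H1 (by positivity) hε hcur hcv.d hb hA (p : ℂ) (by rw [ofReal_re]; linarith)
    (by rw [ofReal_re]; linarith)
  obtain ⟨j1, b1⟩ := H1 (by positivity) hε hcur hcv.d hb hA (q : ℂ) (by rw [ofReal_re]; linarith)
    (by rw [ofReal_re]; linarith)
  obtain ⟨i2, a2⟩ := H2 (by positivity) hε hcur hcv.d hb hA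
  obtain ⟨i3, a3⟩ := H3 (by positivity) hε hcur hcv.d hb hA 0 (by rw [zero_re, abs_zero]; positivity)
  rw [ofReal_im] at a1 b1
  have h3 := PBV.log_sq_le he hm
  have h4 : (1 - e1) * NUO.Tb (Real.log m) ≤ Real.log m := by
    rw [hTb]
    nlinarith
  have h5 : (1 - e1) * NUO.Tb (Real.log m) * (Cc * Real.log m * ε) ≤
      Real.log m * (Cc * Real.log m * (m : ℝ) ^ (-(e1 / 2))) := by
    refine mul_le_mul h4 (mul_le_mul_of_nonneg_left hε1 (by positivity)) (by positivity) hL0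
  have h6 : Real.log m * (Cc * Real.log m * (m : ℝ) ^ (-(e1 / 2))) =
      Cc * (Real.log m ^ 2 * (m : ℝ) ^ (-(e1 / 2))) := by ring
  have h7 : Cc * (Real.log m ^ 2 * (m : ℝ) ^ (-(e1 / 2))) ≤ Cc * (16 / e1 ^ 2) :=
    mul_le_mul_of_nonneg_left h3 hCc
  have h8 : 1 + (1 - e1) * NUO.Tb (Real.log m) * (Cc * Real.log m * ε) ≤
      1 + Cc * (16 / e1 ^ 2) := by linarith
  have c1 := a1.trans (mul_le_mul_of_nonneg_left h8 (by linarith))
  have d1 := b1.trans (mul_le_mul_of_nonneg_left h8 (by linarith))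
  have c2 := a2.trans (mul_le_mul_of_nonneg_left h8 (by linarith))
  have c3 := a3.trans (mul_le_mul_of_nonneg_left h8 (by linarith))
  have e3 : ∫ t, (m : ℝ) * NUSea.P t * HE p q η a t =
      (∫ t, (m : ℝ) * NUMF.P t * Real.log (PBO.thZ p (pA η t))) +
        (∫ t, (m : ℝ) * NUMF.P t * Real.log (PBO.thZ q (pA η t))) -
        (∫ t, (m : ℝ) * NUMF.P t * Real.log (PBO.rwC 0 (pA η t))) -
        ∫ t, (m : ℝ) * NUMF.P t * Real.log (ThN (NUO.pA η t)) := by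
    rw [← int4 i1 j1 i3 i2]
    refine integral_congr_ae (ae_of_all _ fun t => ?_)
    show (m : ℝ) * NUMF.P t * (Real.log (PBO.thZ p (pA η t)) + Real.log (PBO.thZ q (pA η t)) -
      Real.log (PBO.rwC 0 (pA η t)) - Real.log (ThN (pA η t))) =
      (m : ℝ) * NUMF.P t * Real.log (PBO.thZ p (pA η t)) +
        (m : ℝ) * NUMF.P t * Real.log (PBO.thZ q (pA η t)) -
        (m : ℝ) * NUMF.P t * Real.log (PBO.rwC 0 (pA η t)) -
        (m : ℝ) * NUMF.P t * Real.log (ThN (NUO.pA η t))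
    ring
  rw [e3]
  unfold lamE
  rw [abs_le] at c1 d1 c2 c3 ⊢
  constructor <;> nlinarith [c1.1, c1.2, c2.1, c2.2, c3.1, c3.2, d1.1, d1.2]

/-- the linear term -/
def LE (p q : ℝ) (m : ℕ) : ℝ := 2 * (m * lamE p q)

/-- **the bulk exponent** -/
def EXE (p q : ℝ) (m : ℕ) : ℝ := (m : ℝ) ^ 2 * PBVR.EMF0 + LE p q m

variable {n0 : ℕ} {h0 : ℝ} {ex ex0 : List ℂ}

theorem thZ_fE (u : ℂ) : fE p q u = PBO.thZ p u * PBO.thZ q u := by
  have h : ∀ r : ℝ, PBO.thZ (r : ℂ) u = ‖Complex.sin (u - r + 3 * NUP1.l)‖ /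
      ‖Complex.sin (u - r - 2 * NUP1.l)‖ := by
    intro r
    unfold PBO.thZ
    rw [show (r : ℂ) - u - 3 * (NUP1.l : ℂ) = -(u - r + 3 * NUP1.l) by ring,
      show (r : ℂ) - u + 2 * (NUP1.l : ℂ) = -(u - r - 2 * NUP1.l) by ring, Complex.sin_neg,
      Complex.sin_neg, norm_neg, norm_neg]
  rw [fE_eq, h, h]

/-- **the geometry** -/
theorem gOk_GE (hh : 0 ≤ h0) (h1 : PtsZ n0 h0 ex) (hp : |p| ≤ l / 2) (hq : |q| ≤ l / 2) :
    PBOX.GOk (GE p q (EXE p q) ex ex0) (LE p q) where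
  nn := GE_nn p q _ ex ex0
  pot := by
    obtain ⟨B0, N0, hB0, hN0, H⟩ := hok_E hp hq
    refine ⟨B0, N0, hB0, hN0, ?_⟩
    intro ep hep hep1 e1 he he1 J hJ
    obtain ⟨Cc, hCc, Cb, m1, hcrv⟩ := PBO.crvP_etaC (J := J) he he1 hJ
    obtain ⟨C, hC, hint⟩ := int_E (e1 := e1) (Cc := Cc) he (by linarith) (by linarith) hp hq
    obtain ⟨m2, H⟩ := H e1 he
    refine ⟨2 * C, max m1 m2, fun m hm => ?_⟩
    obtain ⟨hm1, hT, hc, -⟩ := hcrv m ((le_max_left _ _).trans hm)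
    obtain ⟨a1, H', a2⟩ := H m ((le_max_right _ _).trans hm) Cc _ _ hc
    refine ⟨HE p q (NUGC.etaC e1 J m m), H', fun d hd => a2 d _ hd, fun a t => ?_, ?_⟩
    · obtain ⟨b1, b2, b3, b5, b6, b4⟩ := a1 t
      have hl := NUMF.l_pos
      have e1' : ((GE p q (EXE p q) ex ex0).B m (4 / 3 * (1 - ep))).R a
          (pA (NUGC.etaC e1 J m m) t) = 2 * Real.cos NUP1.l *
            (PBO.rwC 0 (pA (NUGC.etaC e1 J m m) t) ^ (m - 1) *
              (PBO.thZ p (pA (NUGC.etaC e1 J m m) t) * PBO.thZ q (pA (NUGC.etaC e1 J m m) t))) := by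
        show (obE p q m _ ex ex0).R a _ = _
        rw [obE_R, thZ_fE, mul_assoc]
        rfl
      have e2 : PBO.rwC 0 (pA (NUGC.etaC e1 J m m) t) ^ (m - 1) *
          PBO.rwC 0 (pA (NUGC.etaC e1 J m m) t) = PBO.rwC 0 (pA (NUGC.etaC e1 J m m) t) ^ m := by
        rw [← pow_succ, Nat.sub_add_cancel hm1]
      rw [e1', b4 a, ← mul_assoc (PBO.rwC 0 (pA (NUGC.etaC e1 J m m) t) ^ (m - 1)), e2,
        PotH.rwC0_pow (by linarith)]
      exact le_of_eq (by ring)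
    · have c1 := (abs_le.1 (hint m _ _ hm1 hc true)).2
      have c2 := (abs_le.1 (hint m _ _ hm1 hc false)).2
      rw [Fintype.sum_bool]
      unfold LE
      linarith
  cut := by
    intro ep hep hep1 e1 he he1 J hJ
    obtain ⟨Cc, hCc, Cb, m1, hcrv⟩ := PBO.crvP_etaC (J := J) he he1 hJ
    obtain ⟨C0, hC0, m2, hm2, H⟩ := PotH.exists_cutR hep hep1 he he1 Cc (n0 + 1) hh
    refine ⟨C0, hC0, max m1 m2, fun m hm => ?_⟩
    obtain ⟨hm1, hT, hc, -⟩ := hcrv m ((le_max_left _ _).trans hm)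
    obtain ⟨Bc, Bc', hB⟩ := H m ((le_max_right _ _).trans hm)
    refine ⟨_, Bc, Bc', hB (m - 1) (List.replicate (m - 1) 0 ++ ex) ex ?_ _ _ hc, fun t => ?_⟩
    · exact { perm := List.Perm.refl _
              len := h1.len.trans (by omega)
              pt := h1.pt
              up := by omega
              dn := by omega }
    · show ‖(obE p q m _ ex ex0).φ _‖ ≤ _
      rw [obE_φ]
      exact le_rfl
  one := ⟨0, le_rfl, fun ep _ _ e1 _ _ J _ => ⟨0, fun m _ r O i => by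
    rw [add_zero]
    exact le_rfl⟩⟩
  EM := ⟨0, le_rfl, fun m => by
    rw [PBR.MF_seaP0, add_zero]
    exact le_rfl⟩
  MF := ⟨0, le_rfl, fun m g => by
    show _ ≤ (m : ℝ) * PB0.MF0 g.c g.w + 0
    rw [PB0.seaG_eq0, add_zero]⟩

/-- **the gas in the presence of objects and groups** -/
theorem s4R_GE (hh : 0 ≤ h0) (h1 : PtsZ n0 h0 ex) (hp : |p| ≤ l / 2) (hq : |q| ≤ l / 2) :
    PBOX.S4R (GE p q (EXE p q) ex ex0) := PBOX.s4R (gOk_GE hh h1 hp hq)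

/-- **the tilted bounds for the families of groups** -/
theorem perG_GE (hh : 0 ≤ h0) (h1 : PtsZ n0 h0 ex) (h2 : PtsZ n0 h0 ex0) (hp : |p| ≤ l / 2)
    (hq : |q| ≤ l / 2) : ∃ (C c b c1 Ca : ℝ) (k : ℕ), 0 < C ∧ 0 < c ∧ 0 < b ∧ 0 < c1 ∧ 0 ≤ Ca ∧
      PBOX.PerGR (GE p q (EXE p q) ex ex0) C c b k c1 Ca :=
  PBOX.perG_ofR (GE_nn _ _ _ _ _) Pool.Agent.NUM3.stabProd (s4R_GE hh h1 hp hq)
    (oneR_GE hp hq hh h1 h2)

/-- **the tilted bounds for all classes** -/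
theorem perBd_GE (hh : 0 ≤ h0) (h1 : PtsZ n0 h0 ex) (h2 : PtsZ n0 h0 ex0) (hp : |p| ≤ l / 2)
    (hq : |q| ≤ l / 2) : PBOX.PerBdR (GE p q (EXE p q) ex ex0) := by
  obtain ⟨C, c, b, c1, Ca, k, hC, hc, hb, hc1, hCa, h⟩ := perG_GE hh h1 h2 hp hq
  exact PBOX.perBd_ofR hC hc hb hc1 hCa h

end P0

end PBE

end
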