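import Pool.Agent.GEX.EMst
import Pool.Agent.GEX.S4I
import Pool.Agent.GEX.Top
import Pool.Agent.PB.TopR0
import Pool.Agent.PB.OneRT0

/-!
# Rows `0`, real ends: the class `W W` at fixed half quanta, with statistics and pinned objects

`PB/TopR0` for the ends `p`, `q`: `oneRT_GE`, **`topE`**, **`topE_val`**.
-/

set_option autoImplicit false
set_option linter.unusedSectionVars false

noncomputable section

open Complex MeasureTheory Finset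
open scoped ENNReal

namespace PBE

open PBI
open NUGC PBO PBF PotH PBR PBX
open NUO NUP1 NUCR NUP1S NUP1S.Ab NUP1S.AbC NUP1S.AbG NURow NUP1.Leg NUStabP NUDispW
open NUSea.H0 (Gd)
open PBP (gT)

variable {p q : ℝ} {ex ex0 : List ℂ} {n0 : ℕ} {h0 : ℝ} {EX : ℕ → ℝ}

attribute [local instance] NUSea.seaP

/-- **the one body bounds, with the tent** -/
theorem oneRT_GE (hp : |p| ≤ l / 2) (hq : |q| ≤ l / 2) (hh : 0 ≤ h0) (h1 : PtsZ n0 h0 ex)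
    (h2 : PtsZ n0 h0 ex0) : PBOX.OneRT (GE p q EX ex ex0) :=
  (PBO.oneRT_seaP (Ge := GE0 p q ex ex0) (n0 + 1) hh (by
    have := s1_pos
    unfold PBO.cR
    positivity) (GE0_ObZ hp hq h1 h2) (Kc := 0) fun m ep e1 J _ _ _ _ r O i => by
      rw [add_zero]
      exact le_rfl : PBI.OneRT (GE0 p q ex ex0))

/-- the half quanta of the class `W W` with the sea term -/
theorem kfE_le (hp : |p| ≤ l / 2) (ex ex0 : List ℂ) : ∃ C : ℝ, 0 ≤ C ∧ ∀ (ep : ℝ) (k : ℕ), 1 ≤ k → ∀ τ : ℝ,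
    ‖(DE p q ex ex0 ep k).KF (vl (5 / 4 * l) τ)‖ *
      Real.exp ((k : ℝ) * PB0.MF0 .w (vl (5 / 4 * l) τ)) ≤ C * Real.exp (-|τ|) := by
  obtain ⟨C, hC, h⟩ := kf0_le
  have hi := iS_pos
  refine ⟨iS ^ 3 * C, by positivity, fun ep k hk τ => ?_⟩
  have h1 := KF_le (p := p) (q := q) (m := k - 1) (β := beC ep) (x := fun _ => 0) (ex := ex)
    (ex0 := ex0) hp (w := vl (5 / 4 * l) τ) (Or.inl (NUO.vl_re _ _))
  have h2 : (RX (beC ep) (fun _ : Fin (k - 1) => (0 : ℂ)) 0 0 ex ex0).KF (vl (5 / 4 * l) τ) =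
      kf0 (k - 1) (vl (5 / 4 * l) τ) := (R0_Z (k - 1) (beC ep) ex ex0).KF _
  rw [h2] at h1
  refine (mul_le_mul_of_nonneg_right h1 (Real.exp_pos _).le).trans ?_
  rw [mul_assoc, mul_assoc]
  exact mul_le_mul_of_nonneg_left (h k hk τ) (by positivity)

theorem kfE'_le (hq : |q| ≤ l / 2) (ex ex0 : List ℂ) : ∃ C : ℝ, 0 ≤ C ∧ ∀ (ep : ℝ) (k : ℕ), 1 ≤ k → ∀ τ : ℝ,
    ‖(DE p q ex ex0 ep k).KF' (vl (5 / 4 * l) τ)‖ *
      Real.exp ((k : ℝ) * PB0.MF0 .w (vl (5 / 4 * l) τ)) ≤ C * Real.exp (-|τ|) :=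
  kfE_le (p := q) (q := p) hq ex ex0

/-- the base of the data -/
theorem bs_GE (hX : CutOk ex ex0) (hp : |p| ≤ l / 2) (hq : |q| ≤ l / 2) {ep : ℝ} (e0 : 0 < ep)
    (e1 : ep ≤ 1 / 100) (k : ℕ) : Bs (XB (DE p q ex ex0 ep k).X (DE p q ex ex0 ep k).Y)
      (fun g => ((GE p q EX ex ex0).B k (beC ep)).mul g) (NUSea.O.par0 k) ep
      (2 * (DE p q ex ex0 ep k).β) (Set.range fun i => ((DE p q ex ex0 ep k).x i).im) := by
  have h := bs_RD (DE_Ok hX hp hq e0 e1 k) (REq_RX (m := k - 1) (β := beC ep) (x := fun _ => 0)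
    (p := (p : ℂ)) (q := (q : ℂ)) (ex0 := ex0) hX.re) (PBO.parC_par0 k) e0 e1
  exact h.congr (fun a u z => rfl) fun g => obR_mul k (beC ep) g

/-- **the class `W W` at fixed half quanta in the window**, with a statistic -/
theorem topE (hX : CutOk ex ex0) (hh : 0 ≤ h0) (h1 : PtsZ n0 h0 ex) (h2 : PtsZ n0 h0 ex0)
    (hp : |p| ≤ l / 2) (hq : |q| ≤ l / 2) (A0 K2 : ℝ) {e : ℝ} (he : 0 < e) :
    ∃ κ0 : ℝ, 0 < κ0 ∧ κ0 ≤ 1 / 100 ∧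
      ∀ (ι : Type*) (ok : ℕ → ι → Prop) (Φ : ι → ℕ → ℕ → InsE), StatFam A0 ok Φ →
      ∀ ep : ℝ, 0 < ep → ep ≤ κ0 → ∀ e1 : ℝ, 0 < e1 → e1 ≤ κ0 →
      ∀ J : ℝ, 0 ≤ J → Real.exp (-(2 * Real.pi * J)) ≤ κ0 →
      ∀ (c : ℕ → ℂ) (Cn : ℝ), (∀ k, 1 ≤ k → ‖c k‖ * Real.exp (EXE p q k) ≤ Cn) →
      ∃ k0 : ℕ, 2 ≤ k0 ∧ ∀ k ≥ k0,
      (∀ (r : ℕ) (_O : Fin r → Xo), CurB ep (etaC e1 J k k) (etaC' e1 J k k)) ∧
      ∀ y : ℝ × ℝ, |y.1| ≤ TW ep e1 k → |y.2| ≤ TW ep e1 k → ∀ i : ι, ok k i →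
      ∀ (w : (r : ℕ) → (Fin r → Xo) → ℝ) (Bw : ℝ), 0 ≤ Bw → (∀ r O, 0 ≤ w r O) →
      (∀ (r : ℕ) (O : Fin r → Xo), w r O ≤ Bw * Real.exp (K2 * r) *
          Real.exp (∑ i, gT e1 (Real.log k) (ht (O i)))) →
      ENNReal.ofReal ‖c k * preWW (DE p q ex ex0 ep k) y‖ *
        ∑ n ∈ range (2 * k + 1), FE (RZW (DE p q ex ex0 ep k) (vl (5 / 4 * l) y.1)
          (vl (5 / 4 * l) y.2)) (NUSea.O.par0 k) n n (fun _ _ => etaC e1 J k k)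
          (fun _ _ => etaC' e1 J k k) (fun r O a b x => ENNReal.ofReal (w r O) *
            Φ i k n r O a b x) ≤
        ENNReal.ofReal (Bw * ((k : ℝ) ^ e * Real.exp (-mTR y))) := by
  obtain ⟨K, Ca, hK, hCa, hS4⟩ := PBOX.s4K (gOk_GE (ex := ex) (ex0 := ex0) hh h1 hp hq)
  obtain ⟨κ0, hκ, hκ1, htop⟩ := PBOX.topR (G := GE p q (EXE p q) ex ex0)
    (fun m β => GE_nn _ _ _ _ _ _ _) Pool.Agent.NUM3.stabProd
    (oneRT_GE hp hq hh h1 h2) (K + A0) K2 hCa (e := e / 2) (by linarith)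
  obtain ⟨C1, hC1, hkf⟩ := kfE_le (q := q) hp ex ex0
  obtain ⟨C2, hC2, hkf'⟩ := kfE'_le (p := p) hq ex ex0
  obtain ⟨Cg, hCg, hdk⟩ := dk_le
  refine ⟨κ0, hκ, hκ1, ?_⟩
  intro ι ok Φ hst ep hep hep1 e1 he1 he11 J hJ hJ1 c Cn hc
  obtain ⟨Cst, hCst, m0, hm0, htop⟩ := htop ι ok Φ (hS4 A0 ι ok Φ hst) ep hep hep1 e1 he1 he11 J hJ
    hJ1
  have hCn : 0 ≤ Cn := (by positivity : (0 : ℝ) ≤ _).trans (hc 1 le_rfl)
  obtain ⟨C0, hC0⟩ : ∃ C0, C0 = max C1 C2 := ⟨_, rfl⟩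
  have hC00 : 0 ≤ C0 := by rw [hC0]; exact hC1.trans (le_max_left _ _)
  obtain ⟨m1, hm1⟩ := Filter.eventually_atTop.1
    (((tendsto_rpow_atTop (show (0 : ℝ) < e / 2 by linarith)).comp
      tendsto_natCast_atTop_atTop).eventually_ge_atTop (C0 * C0 * Cg * Cst * Cn))
  refine ⟨max m0 m1, hm0.trans (le_max_left _ _), fun k hk => ?_⟩
  have hk0 : m0 ≤ k := (le_max_left _ _).trans hk
  have hk1 : m1 ≤ k := (le_max_right _ _).trans hk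
  have h1k : 1 ≤ k := by omega
  have hkp : (0 : ℝ) < k := by exact_mod_cast h1k
  obtain ⟨hcur, htop⟩ := htop k hk0
  refine ⟨hcur, fun y hy1 hy2 i hok w Bw hBw hw0 hwB => ?_⟩
  have hep2 : ep ≤ 1 / 100 := hep1.trans hκ1
  have hbs := bs_GE (EX := EXE p q) hX hp hq hep hep2 k
  have b1 : ‖(DE p q ex ex0 ep k).KF (vl (5 / 4 * l) y.1)‖ *
      Real.exp ((k : ℝ) * PB0.MF0 .w (vl (5 / 4 * l) y.1)) ≤ C0 * Real.exp (-|y.1|) :=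
    (hkf ep k h1k y.1).trans (mul_le_mul_of_nonneg_right (by rw [hC0]; exact le_max_left _ _)
      (Real.exp_pos _).le)
  have b2 : ‖(DE p q ex ex0 ep k).KF' (vl (5 / 4 * l) y.2)‖ *
      Real.exp ((k : ℝ) * PB0.MF0 .w (vl (5 / 4 * l) y.2)) ≤ C0 * Real.exp (-|y.2|) :=
    (hkf' ep k h1k y.2).trans (mul_le_mul_of_nonneg_right (by rw [hC0]; exact le_max_right _ _)
      (Real.exp_pos _).le)
  have key := htop _ _ _ hbs y hy1 hy2 i hok w Bw hBw hw0 hwB C0 Cg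
    ‖(DE p q ex ex0 ep k).KF (vl (5 / 4 * l) y.1)‖ ‖(DE p q ex ex0 ep k).KF' (vl (5 / 4 * l) y.2)‖
    ‖Dk (vl (5 / 4 * l) y.1 - vl (5 / 4 * l) y.2)‖ hC00 (norm_nonneg _) (norm_nonneg _)
    (norm_nonneg _) b1 b2 (hdk y.1 y.2)
  have e1 : ‖c k * preWW (DE p q ex ex0 ep k) y‖ = ‖c k‖ *
      (‖(DE p q ex ex0 ep k).KF (vl (5 / 4 * l) y.1)‖ *
      ‖(DE p q ex ex0 ep k).KF' (vl (5 / 4 * l) y.2)‖ *
      ‖Dk (vl (5 / 4 * l) y.1 - vl (5 / 4 * l) y.2)‖) := by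
    unfold preWW
    rw [norm_mul, norm_mul, norm_mul]
  rw [e1, ENNReal.ofReal_mul (norm_nonneg _), mul_assoc]
  refine (mul_le_mul' le_rfl key).trans ?_
  rw [← ENNReal.ofReal_mul (norm_nonneg _)]
  refine ENNReal.ofReal_le_ofReal ?_
  have hEM : (GE p q (EXE p q) ex ex0).EX k = EXE p q k := rfl
  have hck := hc k h1k
  obtain ⟨X0, hX0⟩ : ∃ X0, X0 = Real.exp (EXE p q k) := ⟨_, rfl⟩
  rw [hEM, ← hX0]
  rw [← hX0] at hck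
  have hX00 : 0 ≤ X0 := by
    rw [hX0]
    exact (Real.exp_pos _).le
  have hpow : (k : ℝ) ^ e = (k : ℝ) ^ (e / 2) * (k : ℝ) ^ (e / 2) := by
    rw [← Real.rpow_add hkp]
    congr 1
    ring
  have hbig : C0 * C0 * Cg * Cst * Cn ≤ (k : ℝ) ^ (e / 2) := hm1 k hk1
  have hp0 : 0 ≤ (k : ℝ) ^ (e / 2) := by positivity
  have hm : Real.exp (-(2 * |y.1| + 2 * |y.2| + |y.1 - y.2| / 2)) = Real.exp (-mTR y) := rfl
  rw [hm]
  have hE0 := (Real.exp_pos (-mTR y)).le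
  calc ‖c k‖ * (C0 * C0 * Cg * Bw * (Cst * (k : ℝ) ^ (e / 2) * X0 * Real.exp (-mTR y)))
      = Bw * (C0 * C0 * Cg * Cst * (‖c k‖ * X0)) * (k : ℝ) ^ (e / 2) * Real.exp (-mTR y) := by ring
    _ ≤ Bw * (C0 * C0 * Cg * Cst * Cn) * (k : ℝ) ^ (e / 2) * Real.exp (-mTR y) := by gcongr
    _ ≤ Bw * (k : ℝ) ^ (e / 2) * (k : ℝ) ^ (e / 2) * Real.exp (-mTR y) := by gcongr
    _ = _ := by
        rw [hpow]
        ring

/-- **the class `W W` at fixed half quanta in the window**: the value without statistic -/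
theorem topE_val (hX : CutOk ex ex0) (hh : 0 ≤ h0) (h1 : PtsZ n0 h0 ex) (h2 : PtsZ n0 h0 ex0)
    (hp : |p| ≤ l / 2) (hq : |q| ≤ l / 2) {e : ℝ} (he : 0 < e) : ∃ κ0 : ℝ, 0 < κ0 ∧ κ0 ≤ 1 / 100 ∧
      ∀ ep : ℝ, 0 < ep → ep ≤ κ0 → ∀ e1 : ℝ, 0 < e1 → e1 ≤ κ0 →
      ∀ J : ℝ, 0 ≤ J → Real.exp (-(2 * Real.pi * J)) ≤ κ0 →
      ∀ (c : ℕ → ℂ) (Cn : ℝ), (∀ k, 1 ≤ k → ‖c k‖ * Real.exp (EXE p q k) ≤ Cn) →
      ∃ k0 : ℕ, 2 ≤ k0 ∧ ∀ k ≥ k0,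
      (∀ (r : ℕ) (_O : Fin r → Xo), CurB ep (etaC e1 J k k) (etaC' e1 J k k)) ∧
      ∀ y : ℝ × ℝ, |y.1| ≤ TW ep e1 k → |y.2| ≤ TW ep e1 k → ∀ M ≤ 2 * k,
      ‖c k * preWW (DE p q ex ex0 ep k) y * ∑ n ∈ range (M + 1), FF (RZW (DE p q ex ex0 ep k)
          (vl (5 / 4 * l) y.1) (vl (5 / 4 * l) y.2)) (NUSea.O.par0 k) n n
          (fun _ _ => etaC e1 J k k) (fun _ _ => etaC' e1 J k k) (fun _ _ _ _ _ => 1)‖ ≤
        (k : ℝ) ^ e * Real.exp (-mTR y) := by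
  obtain ⟨κ0, hκ, hκ1, h⟩ := topE hX hh h1 h2 hp hq 0 0 he
  refine ⟨κ0, hκ, hκ1, fun ep hep hep1 e1 he1 he11 J hJ hJ1 c Cn hc => ?_⟩
  obtain ⟨k0, hk0, h⟩ := h Unit (fun _ _ => True) _ (statFam_one _) ep hep hep1 e1 he1 he11 J hJ
    hJ1 c Cn hc
  refine ⟨k0, hk0, fun k hk => ?_⟩
  obtain ⟨hcur, h⟩ := h k hk
  refine ⟨hcur, fun y hy1 hy2 M hM => ?_⟩
  have key := h y hy1 hy2 () trivial (fun _ _ => 1) 1 zero_le_one (fun _ _ => zero_le_one)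
    (fun r O => by
      rw [zero_mul, Real.exp_zero, one_mul, one_mul]
      exact Real.one_le_exp (Finset.sum_nonneg fun i _ => PBP.gT_nonneg _ _ _))
  have hR : 0 ≤ (k : ℝ) ^ e * Real.exp (-mTR y) := by positivity
  rw [← ENNReal.ofReal_le_ofReal_iff hR, norm_mul, ENNReal.ofReal_mul (norm_nonneg _)]
  rw [one_mul] at key
  refine le_trans (mul_le_mul' le_rfl ?_) key
  rw [ofReal_norm]
  refine (enorm_sum_le _ _).trans ?_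
  refine le_trans (Finset.sum_le_sum fun n _ => FF_le _) ?_
  refine (Finset.sum_le_sum_of_subset (f := fun n => FA (RZW (DE p q ex ex0 ep k)
    (vl (5 / 4 * l) y.1) (vl (5 / 4 * l) y.2)) (NUSea.O.par0 k) n n (fun _ _ => etaC e1 J k k)
    (fun _ _ => etaC' e1 J k k) (fun _ _ _ _ _ => 1)) (show range (M + 1) ⊆ range (2 * k + 1) from
      Finset.range_subset_range.2 (by omega))).trans ?_
  refine Finset.sum_le_sum fun n _ => ?_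
  rw [FA_eq_FE]
  exact FE_mono fun r O a b x => by simp

end PBE

end
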