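import Pool.Agent.GEX.ETop
import Pool.Agent.PB.UXR
import Pool.Agent.PB.UXRfin

/-!
# Rows `0`, real ends: the bounds `UX` of the class `W W` at fixed half quanta

`PB/UXR` for the ends `p`, `q`: `kE` (kernels, independent of `ep`), `famE`, **`ux_famE`**, **`uxE`**.
-/

set_option autoImplicit false
set_option linter.unusedSectionVars false

noncomputable section

open Complex MeasureTheory Finset
open scoped ENNReal

namespace PBE

open PBI
open NUGC PBO PBF PotH PBR PBX PBU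
open NUO NUP1 NUCR NUP1S NUP1S.Ab NUP1S.AbC NUP1S.AbG NURow NUP1.Leg NUStabP NUDispW
open PBP (gT)

variable {p q : ℝ} {ex ex0 : List ℂ} {n0 : ℕ} {h0 : ℝ}

/-- the kernels of the class `W W`, `k` effective rows `0`, ends `p`, `q` -/
def kE (p q : ℝ) (k : ℕ) (y : ℝ × ℝ) : ℂ :=
  preWW (RX (m := k - 1) (4 / 3) (fun _ => 0) (p : ℂ) q [] []) y

theorem preWW_DE (ep : ℝ) (k : ℕ) (y : ℝ × ℝ) : preWW (DE p q ex ex0 ep k) y = kE p q k y := rfl

/-- **the main class at fixed half quanta** -/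
def famE (p q : ℝ) (ex ex0 : List ℂ) (nr : ℕ → ℂ) : PBU.Fam (ℝ × ℝ) where
  Z ep m y := RZW (DE p q ex ex0 ep m) (vl (5 / 4 * l) y.1) (vl (5 / 4 * l) y.2)
  Pf m y := nr m * kE p q m y
  top m := 2 * m
  ok m y := |y.1| ≤ 3 / 8 * Real.log m ∧ |y.2| ≤ 3 / 8 * Real.log m
  bd _ y := Real.exp (-mTR y)

attribute [local instance] NUSea.seaP

/-- **U1, U3, U4 of the regular main class at fixed half quanta** -/
theorem ux_famE (hX : CutOk ex ex0) (hh : 0 ≤ h0) (h1 : PtsZ n0 h0 ex) (h2 : PtsZ n0 h0 ex0)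
    (hp : |p| ≤ l / 2) (hq : |q| ≤ l / 2) (hS : StatU) {nr : ℕ → ℂ} {Cn : ℝ}
    (hn : ∀ k, 1 ≤ k → ‖nr k‖ * Real.exp (EXE p q k) ≤ Cn) : UX (famE p q ex ex0 nr) := by
  intro pp K ε hε
  obtain ⟨K', hK'⟩ : ∃ K', K' = max |K| 1 := ⟨_, rfl⟩
  have hK1 : 1 ≤ K' := by rw [hK']; exact le_max_right _ _
  obtain ⟨κ0, hκ, hκ1, htop⟩ := topE hX hh h1 h2 hp hq ((pp : ℝ) + 1) (Real.log K') hε
  refine ⟨κ0, hκ, fun ep e1 J hep he1 hJ hsm => ?_⟩
  have hexpJ := Real.exp_pos (-(2 * Real.pi * J))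
  have a1 : ep ≤ κ0 := by linarith
  have a2 : e1 ≤ κ0 := by linarith
  have a3 : Real.exp (-(2 * Real.pi * J)) ≤ κ0 := by linarith
  intro C0 y₁ y₂ hy1 hy2
  obtain ⟨k0, hk0, htop⟩ := htop (StI pp) (okU C0 y₁ y₂) (phU e1 J)
    (statFam_U hS he1 (a2.trans hκ1) hJ C0 hy1 hy2 pp) ep hep a1 e1 he1 a2 J hJ a3 nr Cn hn
  refine ⟨k0, fun m hm y hy ρ hρ Bw hBw w hw g g' hg => ?_⟩
  obtain ⟨-, htop⟩ := htop m hm
  have hm1 : 1 ≤ m := by omega
  have hmp : (0 : ℝ) < m := by exact_mod_cast hm1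
  have hL : 0 ≤ Real.log m := Real.log_nonneg (by exact_mod_cast hm1)
  have hTW : 3 / 8 * Real.log m ≤ TW ep e1 m := by
    have h : TW ep e1 m = (1 + 2 * e1 + 2 * ep) * (3 / 8 * Real.log m) := rfl
    rw [h]
    nlinarith [mul_nonneg he1.le hL, mul_nonneg hep.le hL]
  -- the weight of the objects
  obtain ⟨w', hw'⟩ : ∃ w' : (r : ℕ) → (Fin r → Xo) → ℝ, w' = fun r O => max (w r O) 0 := ⟨_, rfl⟩
  have hw0 : ∀ r O, 0 ≤ w' r O := fun r O => by rw [hw']; exact le_max_right _ _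
  have hw1 : ∀ (r : ℕ) (O : Fin r → Xo), w' r O ≤ Bw * Real.exp (Real.log K' * r) *
      Real.exp (∑ i, gT e1 (Real.log m) (ht (O i))) := by
    intro r O
    have e : w' r O = max (w r O) 0 := by rw [hw']
    rw [e]
    have hk : Real.exp (Real.log K' * r) = K' ^ r := by
      rw [Real.exp_mul, Real.exp_log (by linarith), Real.rpow_natCast]
    rw [hk]
    refine max_le ((hw r O).trans ?_) (by positivity)
    rw [Real.exp_sum]
    refine mul_le_mul_of_nonneg_right (mul_le_mul_of_nonneg_left ?_ hBw)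
      (Finset.prod_nonneg fun i _ => (Real.exp_pos _).le)
    have h1 : K ^ r ≤ |K| ^ r := by
      rw [← abs_pow]
      exact le_abs_self _
    refine h1.trans (pow_le_pow_left₀ (abs_nonneg _) ?_ r)
    rw [hK']
    exact le_max_left _ _
  have hww : ∀ r O, ENNReal.ofReal (w r O) = ENNReal.ofReal (w' r O) := by
    intro r O
    have e : w' r O = max (w r O) 0 := by rw [hw']
    rw [e]
    rcases le_total (w r O) 0 with h | h
    · rw [max_eq_right h, ENNReal.ofReal_of_nonpos h, ENNReal.ofReal_zero]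
    · rw [max_eq_left h]
  have key := htop y (hy.1.trans hTW) (hy.2.trans hTW) (ρ, g, g') ⟨hρ, hg⟩ w' Bw hBw hw0 hw1
  rw [FS_eq, ← ofReal_norm]
  simp only [hww]
  refine key.trans (le_of_eq ?_)
  rw [mul_assoc]
  rfl

/-- **the same with the normaliser over its bulk**, cutoffs over `± i` -/
theorem uxE (hp : |p| ≤ l / 2) (hq : |q| ≤ l / 2) : UX (famE p q [I, -I] [] (nE p q)) :=
  ux_famE (n0 := 2) (h0 := 1) PBO.cutOk_I zero_le_one (PtsZ.II le_rfl le_rfl) (PtsZ.nil 2 1) hp hq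
    statU_all (Cn := cN p q) fun _ hk => (norm_nE hp hq hk).le

end PBE

end
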